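import Pool.Agent.Zk9.OneD
import Pool.Agent.Zk60.AE.AllE

set_option autoImplicit false

/-!
The one-dimensional estimate with an explicit dependence on the distance to the critical points.
-/

namespace Pool.Agent.Zk60.AE

open Finset

theorem one_d_const {c : ℝ} (hc : 0 < c) (L : ℕ) [NeZero L] {η : ℝ}
    (h1 : 1 / (L : ℝ) ≤ η) (h2 : η ≤ 1 / 2) (E : ℝ) :
      (1 / (L : ℝ)) * ∑ q ∈ (Finset.univ : Finset (ZMod L)).filter
        (fun q => c ≤ |(ZMod.stdAddChar q : ℂ).im|),
          ((2 - 2 * (ZMod.stdAddChar q : ℂ).re - E) ^ 2 + η ^ 2) ^ (-(1 / 2) : ℝ) ≤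
            (3 * (1 / c + 4) + 1) / Real.log 2 * Real.log (1 / η) := by
  have hl2 : 0 < Real.log 2 := Real.log_pos (by norm_num)
  have hL : 0 < L := Nat.pos_of_ne_zero (NeZero.ne L)
  have hL0 : (0 : ℝ) < L := by exact_mod_cast hL
  have hη : 0 < η := lt_of_lt_of_le (by positivity) h1
  have hηL : η⁻¹ ≤ L := by
    rw [inv_le_comm₀ hη hL0, ← one_div]
    exact h1
  set J := ⌈Real.log (1 / η) / Real.log 2⌉₊ with hJdef
  have hlog : Real.log 2 ≤ Real.log (1 / η) := by
    apply Real.log_le_log (by norm_num)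
    rw [le_div_iff₀ hη]
    linarith
  have hJ1 : 1 ≤ 2 ^ J * η := by
    have h3 : Real.log (1 / η) / Real.log 2 ≤ J := Nat.le_ceil _
    rw [div_le_iff₀ hl2] at h3
    have h4 : Real.log (1 / η) ≤ Real.log ((2 : ℝ) ^ J) := by
      rw [Real.log_pow]
      exact h3
    have h5 := (Real.log_le_log_iff (by positivity) (by positivity)).1 h4
    rwa [div_le_iff₀ hη] at h5
  have hJ2 : (J : ℝ) ≤ Real.log (1 / η) / Real.log 2 + 1 :=
    (Nat.ceil_lt_add_one (div_nonneg (hl2.le.trans hlog) hl2.le)).le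
  have hJ3 : (J : ℝ) + 1 ≤ 3 * (Real.log (1 / η) / Real.log 2) := by
    have : 1 ≤ Real.log (1 / η) / Real.log 2 := by
      rw [le_div_iff₀ hl2]
      linarith
    linarith
  set S := (Finset.univ : Finset (ZMod L)).filter (fun q => c ≤ |(ZMod.stdAddChar q : ℂ).im|)
    with hS
  have hcardS : (S.card : ℝ) ≤ L := by
    have : S.card ≤ (Finset.univ : Finset (ZMod L)).card := card_filter_le _ _
    rw [card_univ, ZMod.card] at this
    exact_mod_cast this
  have hsum : ∑ q ∈ S, ((2 - 2 * (ZMod.stdAddChar q : ℂ).re - E) ^ 2 + η ^ 2) ^ (-(1 / 2) : ℝ) ≤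
      L * ((J + 1) * (1 / c + 4) + 1) := by
    calc ∑ q ∈ S, ((2 - 2 * (ZMod.stdAddChar q : ℂ).re - E) ^ 2 + η ^ 2) ^ (-(1 / 2) : ℝ)
        ≤ ∑ q ∈ S, (∑ j ∈ range (J + 1), (if |2 - 2 * (ZMod.stdAddChar q : ℂ).re - E| ≤ 2 ^ j * η
            then 2 * (2 ^ j * η)⁻¹ else 0) + 1) := sum_le_sum fun q _ => pointwise hη hJ1 _
      _ = ∑ j ∈ range (J + 1), ∑ q ∈ S, (if |2 - 2 * (ZMod.stdAddChar q : ℂ).re - E| ≤ 2 ^ j * η
            then 2 * (2 ^ j * η)⁻¹ else 0) + S.card := by
          rw [sum_add_distrib, sum_comm, sum_const, nsmul_eq_mul, mul_one]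
      _ ≤ ∑ j ∈ range (J + 1), (L * (1 / c + 4)) + L := by
          refine add_le_add (sum_le_sum fun j _ => ?_) hcardS
          rw [← sum_filter, sum_const, nsmul_eq_mul]
          have h6 := count hc L (r := 2 ^ j * η) (by positivity) E
          rw [← hS] at h6
          have hpos : 0 < (2 : ℝ) ^ j * η := by positivity
          have h7 : (2 ^ j * η)⁻¹ ≤ L := by
            refine (inv_anti₀ hη ?_).trans hηL
            have : (1 : ℝ) ≤ 2 ^ j := one_le_pow₀ (by norm_num)
            nlinarith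
          calc _ ≤ 2 * (L * (2 ^ j * η) / (4 * c) + 1) * (2 * (2 ^ j * η)⁻¹) :=
                mul_le_mul_of_nonneg_right h6 (by positivity)
            _ = L * (1 / c) + 4 * (2 ^ j * η)⁻¹ := by
                field_simp
                ring
            _ ≤ L * (1 / c) + 4 * L := by linarith
            _ = L * (1 / c + 4) := by ring
      _ = L * ((J + 1) * (1 / c + 4) + 1) := by
          rw [sum_const, card_range, nsmul_eq_mul]
          push_cast
          ring
  calc (1 / (L : ℝ)) * ∑ q ∈ S, ((2 - 2 * (ZMod.stdAddChar q : ℂ).re - E) ^ 2 + η ^ 2) ^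
        (-(1 / 2) : ℝ)
      ≤ (1 / (L : ℝ)) * (L * ((J + 1) * (1 / c + 4) + 1)) :=
        mul_le_mul_of_nonneg_left hsum (by positivity)
    _ = (J + 1) * (1 / c + 4) + 1 := by
        field_simp
    _ ≤ 3 * (Real.log (1 / η) / Real.log 2) * (1 / c + 4) + Real.log (1 / η) / Real.log 2 := by
        have h8 : ((J : ℝ) + 1) * (1 / c + 4) ≤
            3 * (Real.log (1 / η) / Real.log 2) * (1 / c + 4) :=
          mul_le_mul_of_nonneg_right hJ3 (by positivity)
        have h9 : 1 ≤ Real.log (1 / η) / Real.log 2 := by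
          rw [le_div_iff₀ hl2]
          linarith
        linarith
    _ = _ := by ring

theorem one_dc : S_OneDC := by
  have hl2 : 0 < Real.log 2 := Real.log_pos (by norm_num)
  refine ⟨16 / Real.log 2, by positivity, fun c hc hc1 L _ η h1 h2 E => ?_⟩
  refine (one_d_const hc L h1 h2 E).trans ?_
  have hlog : 0 ≤ Real.log (1 / η) := by
    have hL : 0 < L := Nat.pos_of_ne_zero (NeZero.ne L)
    have hL0 : (0 : ℝ) < L := by exact_mod_cast hL
    have hη : 0 < η := lt_of_lt_of_le (by positivity) h1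
    apply Real.log_nonneg
    rw [le_div_iff₀ hη]
    linarith
  refine mul_le_mul_of_nonneg_right ?_ hlog
  rw [div_div, div_le_div_iff₀ hl2 (by positivity)]
  have h3 : 3 * (1 / c + 4) + 1 ≤ 16 / c := by
    have h4 : 1 ≤ 1 / c := by
      rw [le_div_iff₀ hc]
      linarith
    have h5 : 16 / c = 3 * (1 / c) + 13 * (1 / c) := by ring
    linarith
  calc (3 * (1 / c + 4) + 1) * (Real.log 2 * c) ≤ 16 / c * (Real.log 2 * c) :=
        mul_le_mul_of_nonneg_right h3 (by positivity)
    _ = 16 * Real.log 2 := by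
        field_simp

theorem diam_aux {L : ℕ} (hL : 0 < L) (S : Finset ℕ) {D : ℝ} (hD : 0 ≤ D)
    (h : ∀ a ∈ S, ∀ b ∈ S, ang L b - ang L a ≤ D) :
    (S.card : ℝ) ≤ D * L / (2 * Real.pi) + 1 := by
  have hpi := Real.pi_pos
  have hL0 : (0 : ℝ) < L := by exact_mod_cast hL
  refine card_le_diam S (by positivity) fun a ha b hb => ?_
  have h1 := h a ha b hb
  have h2 : ang L b - ang L a = 2 * Real.pi * (b - a) / L := by
    unfold ang
    ring
  rw [h2, div_le_iff₀ hL0] at h1
  rw [le_div_iff₀ (by positivity)]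
  linarith

theorem near_aux {c y : ℝ} (hy0 : 0 ≤ y) (hy : y ≤ Real.pi / 2) (h : Real.sin y ≤ c) :
    y ≤ Real.pi / 2 * c := by
  have hpi := Real.pi_pos
  have h1 : 2 / Real.pi * y ≤ Real.sin y := Real.mul_le_sin hy0 hy
  have h2 : 2 / Real.pi * y ≤ c := h1.trans h
  calc y = Real.pi / 2 * (2 / Real.pi * y) := by
        field_simp
    _ ≤ _ := mul_le_mul_of_nonneg_left h2 (by positivity)

theorem cnt : S_Cnt := by
  classical
  have hpi := Real.pi_pos
  refine ⟨4, by norm_num, fun c hc L _ hcL => ?_⟩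
  have hL : 0 < L := Nat.pos_of_ne_zero (NeZero.ne L)
  have hL0 : (0 : ℝ) < L := by exact_mod_cast hL
  have hcL1 : 1 ≤ c * L := by
    rwa [div_le_iff₀ hL0] at hcL
  set T := ((univ : Finset (ZMod L)).filter
    (fun q => |(ZMod.stdAddChar q : ℂ).im| ≤ c)).image ZMod.val with hT
  have hcard : ((univ : Finset (ZMod L)).filter
      (fun q => |(ZMod.stdAddChar q : ℂ).im| ≤ c)).card = T.card :=
    (card_image_of_injective _ (ZMod.val_injective L)).symm
  rw [hcard]
  have hmem : ∀ k ∈ T, 0 ≤ ang L k ∧ ang L k < 2 * Real.pi ∧ |Real.sin (ang L k)| ≤ c := by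
    intro k hk
    rw [hT, mem_image] at hk
    obtain ⟨q, hq, rfl⟩ := hk
    rw [mem_filter, std_im] at hq
    have hk' : (q.val : ℝ) < L := by exact_mod_cast ZMod.val_lt q
    refine ⟨?_, ?_, hq.2⟩
    · unfold ang
      positivity
    · unfold ang
      rw [div_lt_iff₀ hL0]
      exact mul_lt_mul_of_pos_left hk' (by positivity)
  have b1 : ((T.filter fun k => ang L k ≤ Real.pi / 2).card : ℝ) ≤
      (Real.pi / 2 * c) * L / (2 * Real.pi) + 1 := by
    refine diam_aux hL _ (by positivity) fun a ha b hb => ?_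
    rw [mem_filter] at ha hb
    obtain ⟨a1, a2, a3⟩ := hmem a ha.1
    obtain ⟨c1, c2, c3⟩ := hmem b hb.1
    have := near_aux c1 hb.2 ((le_abs_self _).trans c3)
    linarith
  have b2 : (((T.filter fun k => ¬ ang L k ≤ Real.pi / 2).filter
      fun k => ang L k ≤ 3 * Real.pi / 2).card : ℝ) ≤
      (2 * (Real.pi / 2 * c)) * L / (2 * Real.pi) + 1 := by
    have key : ∀ k ∈ (T.filter fun k => ¬ ang L k ≤ Real.pi / 2).filter
        (fun k => ang L k ≤ 3 * Real.pi / 2), |ang L k - Real.pi| ≤ Real.pi / 2 * c := by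
      intro k hk
      rw [mem_filter, mem_filter, not_le] at hk
      obtain ⟨a1, a2, a3⟩ := hmem k hk.1.1
      have h1 := hk.1.2
      have h2 := hk.2
      refine near_aux (abs_nonneg _) (abs_le.2 ⟨by linarith, by linarith⟩) ?_
      have h3 : |Real.sin (ang L k - Real.pi)| ≤ c := by
        rw [Real.sin_sub_pi, abs_neg]
        exact a3
      rcases abs_cases (ang L k - Real.pi) with h | h
      · rw [h.1]
        exact (le_abs_self _).trans h3
      · rw [h.1, Real.sin_neg]
        exact (neg_le_abs _).trans h3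
    refine diam_aux hL _ (by positivity) fun a ha b hb => ?_
    have h1 := (abs_le.1 (key a ha)).1
    have h2 := (abs_le.1 (key b hb)).2
    linarith
  have b3 : (((T.filter fun k => ¬ ang L k ≤ Real.pi / 2).filter
      fun k => ¬ ang L k ≤ 3 * Real.pi / 2).card : ℝ) ≤
      (Real.pi / 2 * c) * L / (2 * Real.pi) + 1 := by
    refine diam_aux hL _ (by positivity) fun a ha b hb => ?_
    rw [mem_filter, mem_filter, not_le, not_le] at ha hb
    obtain ⟨a1, a2, a3⟩ := hmem a ha.1.1
    obtain ⟨c1, c2, c3⟩ := hmem b hb.1.1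
    have h1 := ha.2
    have h3 : Real.sin (2 * Real.pi - ang L a) ≤ c := by
      rw [Real.sin_two_pi_sub]
      exact (neg_le_abs _).trans a3
    have := near_aux (by linarith) (by linarith) h3
    linarith
  have e1 : (T.filter fun k => ang L k ≤ Real.pi / 2).card +
      (T.filter fun k => ¬ ang L k ≤ Real.pi / 2).card = T.card :=
    card_filter_add_card_filter_not _
  have e2 : ((T.filter fun k => ¬ ang L k ≤ Real.pi / 2).filter
      fun k => ang L k ≤ 3 * Real.pi / 2).card + ((T.filter fun k => ¬ ang L k ≤ Real.pi / 2).filter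
      fun k => ¬ ang L k ≤ 3 * Real.pi / 2).card =
      (T.filter fun k => ¬ ang L k ≤ Real.pi / 2).card :=
    card_filter_add_card_filter_not _
  have e3 : (T.card : ℝ) = ((T.filter fun k => ang L k ≤ Real.pi / 2).card : ℝ) +
      ((((T.filter fun k => ¬ ang L k ≤ Real.pi / 2).filter
      fun k => ang L k ≤ 3 * Real.pi / 2).card : ℝ) +
      (((T.filter fun k => ¬ ang L k ≤ Real.pi / 2).filter
      fun k => ¬ ang L k ≤ 3 * Real.pi / 2).card : ℝ)) := by
    rw [← e1, ← e2]
    push_cast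
    ring
  have e4 : (Real.pi / 2 * c) * L / (2 * Real.pi) = c * L / 4 := by
    field_simp
    ring
  have e5 : (2 * (Real.pi / 2 * c)) * L / (2 * Real.pi) = c * L / 2 := by
    field_simp
  rw [e4] at b1 b3
  rw [e5] at b2
  rw [e3]
  linarith

end Pool.Agent.Zk60.AE
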