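import Pool.Agent.Zk95.MS.Taylor

/-!
# Images of flat sets under `C^r` maps are null (measure-zero refinement of Sard's lemma)
-/

set_option autoImplicit false
set_option linter.all false

open Set Filter Topology Metric Module MeasureTheory
open scoped ContDiff ENNReal NNReal

namespace Pool.Agent.Zk9

/-- a differentiable map that vanishes on a measurable set has zero derivative at almost every
point of the set -/
theorem ae_fderiv_zero {Y G : Type} [NormedAddCommGroup Y] [NormedSpace ℝ Y]
    [FiniteDimensional ℝ Y] [MeasurableSpace Y] [BorelSpace Y] [NormedAddCommGroup G]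
    [NormedSpace ℝ G] [FiniteDimensional ℝ G] (μ : Measure Y) [μ.IsAddHaarMeasure] {h : Y → G}
    (hh : Differentiable ℝ h) {E : Set Y} (hE : MeasurableSet E) (h0 : ∀ y ∈ E, h y = 0) :
    ∀ᵐ y ∂(μ.restrict E), fderiv ℝ h y = 0 := by
  rcases subsingleton_or_nontrivial Y with hY | hY
  · refine Eventually.of_forall fun y => ?_
    ext v
    rw [Subsingleton.elim v 0]
    simp
  obtain ⟨e, he⟩ := exists_ne (0 : Y)
  let b := Module.finBasis ℝ G
  have h1 : ∀ i, ∀ᵐ y ∂(μ.restrict E),
      ((b.coord i).toContinuousLinearMap).comp (fderiv ℝ h y) = 0 := by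
    intro i
    set ℓ : G →L[ℝ] ℝ := (b.coord i).toContinuousLinearMap with hℓ
    have h2 : ApproximatesLinearOn (fun y => ℓ (h y) • e) (0 : Y →L[ℝ] Y) E 0 := by
      intro x hx y hy
      simp [h0 x hx, h0 y hy]
    have h3 := h2.norm_fderiv_sub_le μ hE (fun y => (ℓ.comp (fderiv ℝ h y)).smulRight e)
      (fun y hy => by
        have h4 : HasFDerivAt (fun y => ℓ (h y)) (ℓ.comp (fderiv ℝ h y)) y :=
          ℓ.hasFDerivAt.comp y (hh y).hasFDerivAt
        exact (h4.smul_const e).hasFDerivWithinAt)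
    filter_upwards [h3] with y hy
    have h5 : (ℓ.comp (fderiv ℝ h y)).smulRight e - 0 = 0 := by
      have := le_antisymm hy (zero_le)
      exact nnnorm_eq_zero.1 this
    ext v
    have h6 := DFunLike.congr_fun h5 v
    simp only [sub_zero, ContinuousLinearMap.smulRight_apply, ContinuousLinearMap.zero_apply,
      smul_eq_zero] at h6
    rcases h6 with h6 | h6
    · exact h6
    · exact absurd h6 he
  have h2 := ae_all_iff.2 h1
  filter_upwards [h2] with y hy
  ext v
  apply b.ext_elem
  intro i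
  have := DFunLike.congr_fun (hy i) v
  simpa using this

/-- Hoelder bound in terms of norms -/
theorem holder_piece {Y F : Type} [NormedAddCommGroup Y] [NormedAddCommGroup F] {g : Y → F}
    {s : Set Y} {C : ℝ} (hC : 0 ≤ C) {r : ℕ}
    (h : ∀ x ∈ s, ∀ y ∈ s, ‖g x - g y‖ ≤ C * ‖x - y‖ ^ r) :
    HolderOnWith (Real.toNNReal C) (r : NNReal) g s := by
  intro x hx y hy
  have h1 := h x hx y hy
  rw [← dist_eq_norm, ← dist_eq_norm] at h1
  rw [edist_dist, edist_dist]
  have h2 : ENNReal.ofReal (dist x y) ^ (((r : NNReal) : ℝ)) = ENNReal.ofReal (dist x y ^ r) := by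
    rw [NNReal.coe_natCast, ENNReal.rpow_natCast, ENNReal.ofReal_pow dist_nonneg]
  rw [h2]
  have h3 : (Real.toNNReal C : ENNReal) = ENNReal.ofReal C := rfl
  rw [h3, ← ENNReal.ofReal_mul hC]
  exact ENNReal.ofReal_le_ofReal h1

theorem haus_piece {Y F : Type} [NormedAddCommGroup Y] [NormedSpace ℝ Y] [MeasurableSpace Y]
    [BorelSpace Y] [NormedAddCommGroup F]
    [MeasurableSpace F] [BorelSpace F] {g : Y → F}
    {s : Set Y} {C : ℝ} (hC : 0 ≤ C) {r : ℕ} (hr : 1 ≤ r)
    (h : ∀ x ∈ s, ∀ y ∈ s, ‖g x - g y‖ ≤ C * ‖x - y‖ ^ r) :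
    μH[(finrank ℝ Y : ℝ) / r] (g '' s) ≤
      ENNReal.ofReal C ^ ((finrank ℝ Y : ℝ) / r) * μH[(finrank ℝ Y : ℝ)] s := by
  have h1 := (holder_piece hC h).hausdorffMeasure_image_le
    (by exact_mod_cast hr) (d := (finrank ℝ Y : ℝ) / r) (by positivity)
  have h2 : ((r : NNReal) : ℝ) * ((finrank ℝ Y : ℝ) / r) = (finrank ℝ Y : ℝ) := by
    have : (r : ℝ) ≠ 0 := by positivity
    push_cast
    field_simp
  rw [h2] at h1
  exact h1

/-- Taylor bound at a flat point -/
theorem flat_bound {Y F : Type} [NormedAddCommGroup Y] [NormedSpace ℝ Y] [NormedAddCommGroup F]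
    [NormedSpace ℝ F] {r : ℕ} (hr : 1 ≤ r) {g : Y → F} (hg : ContDiff ℝ r g) {p q : Y}
    (hp : ∀ i, 1 ≤ i → i ≤ r - 1 → iteratedFDeriv ℝ i g p = 0) {M : ℝ}
    (hM : ∀ z ∈ segment ℝ p q, ‖iteratedFDeriv ℝ r g z‖ ≤ M) :
    ‖g q - g p‖ ≤ M * ‖q - p‖ ^ r := by
  obtain ⟨n, rfl⟩ : ∃ n, r = n + 1 := ⟨r - 1, by omega⟩
  have h := Pool.Agent.Zk95.MS.taylor_line n hg p (q - p) (M := M) (fun t ht => hM _ (by
    rw [segment_eq_image']
    exact ⟨t, ht, rfl⟩))
  rw [Finset.sum_eq_single_of_mem 0 (by simp)] at h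
  · simpa [iteratedFDeriv_zero_apply] using h
  · intro i hi hi0
    rw [hp i (Nat.one_le_iff_ne_zero.2 hi0) (by have := Finset.mem_range.1 hi; omega)]
    simp

theorem flat_null {Y F : Type} [NormedAddCommGroup Y] [NormedSpace ℝ Y] [FiniteDimensional ℝ Y]
    [NormedAddCommGroup F] [NormedSpace ℝ F] [FiniteDimensional ℝ F] [MeasurableSpace F]
    [BorelSpace F] (r : ℕ) (hr : 1 ≤ r) (g : Y → F) (hg : ContDiff ℝ r g)
    (hY : 1 ≤ finrank ℝ Y) :
    μH[(finrank ℝ Y : ℝ) / r] (g '' {y | ∀ i, 1 ≤ i → i ≤ max 1 (r - 1) →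
      iteratedFDeriv ℝ i g y = 0}) = 0 := by
  borelize Y
  set E : Set Y := {y | ∀ i, 1 ≤ i → i ≤ max 1 (r - 1) → iteratedFDeriv ℝ i g y = 0} with hEdef
  set d : ℝ := (finrank ℝ Y : ℝ) / r with hd
  have hd0 : 0 < d := by
    have : (0 : ℝ) < finrank ℝ Y := by exact_mod_cast hY
    positivity
  have hcont : ∀ i, i ≤ r → Continuous (iteratedFDeriv ℝ i g) := fun i hi =>
    hg.continuous_iteratedFDeriv (by exact_mod_cast hi)
  have hEflat : ∀ y ∈ E, ∀ i, 1 ≤ i → i ≤ r - 1 → iteratedFDeriv ℝ i g y = 0 :=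
    fun y hy i h1 h2 => hy i h1 (h2.trans (le_max_right _ _))
  have hEcl : IsClosed E := by
    have : E = ⋂ i, ⋂ (_ : 1 ≤ i), ⋂ (_ : i ≤ max 1 (r - 1)), {y | iteratedFDeriv ℝ i g y = 0} := by
      ext y; simp [hEdef]
    rw [this]
    refine isClosed_iInter fun i => isClosed_iInter fun _ => isClosed_iInter fun hi => ?_
    exact isClosed_eq (hcont i (by omega)) continuous_const
  have hEr : MeasurableSet E := hEcl.measurableSet
  -- the bad part
  set B : Set Y := {y | y ∈ E ∧ iteratedFDeriv ℝ r g y ≠ 0} with hB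
  have hBnull : μH[(finrank ℝ Y : ℝ)] B = 0 := by
    rcases Nat.eq_or_lt_of_le hr with h1 | h1
    · have : B = ∅ := by
        ext y
        simp only [hB, Set.mem_setOf_eq, Set.mem_empty_iff_false, iff_false, not_and, not_not]
        intro hy
        exact hy r (by omega) (by omega)
      rw [this]
      simp
    · haveI := Pool.Agent.Zk95.MS.finite_multilinear (Y := Y) (F := F) (r - 1)
      have h2 : ContDiff ℝ 1 (iteratedFDeriv ℝ (r - 1) g) := by
        refine ContDiff.iteratedFDeriv_right hg ?_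
        have : (1 : WithTop ℕ∞) + ((r - 1 : ℕ) : WithTop ℕ∞) = ((1 + (r - 1) : ℕ) : WithTop ℕ∞) := by
          push_cast; rfl
        rw [this]
        exact_mod_cast (by omega : 1 + (r - 1) ≤ r)
      have h3 := ae_fderiv_zero (μH[(finrank ℝ Y : ℝ)] : Measure Y) (h2.differentiable (by simp))
        hEr (fun y hy => hEflat y hy (r - 1) (by omega) le_rfl)
      rw [ae_restrict_iff' hEr] at h3
      refine measure_mono_null ?_ h3
      intro y hy
      simp only [Set.mem_compl_iff, Set.mem_setOf_eq]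
      intro h4
      refine hy.2 ?_
      have h5 : iteratedFDeriv ℝ (r - 1 + 1) g y = 0 := by
        ext v
        rw [iteratedFDeriv_succ_apply_left, h4 hy.1]
        simp
      have h6 : r - 1 + 1 = r := by omega
      rw [h6] at h5
      exact h5
  -- localisation
  have hmain : ∀ p : Y, μH[d] (g '' (E ∩ closedBall p 1)) = 0 := by
    intro p
    have hcomp : IsCompact (closedBall p (1 : ℝ)) := isCompact_closedBall _ _
    obtain ⟨M, hM⟩ := hcomp.exists_bound_of_continuousOn (hcont r le_rfl).continuousOn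
    have hM0 : 0 ≤ M := (norm_nonneg _).trans (hM p (by simp))
    have hseg : ∀ x ∈ closedBall p (1 : ℝ), ∀ y ∈ closedBall p (1 : ℝ),
        segment ℝ x y ⊆ closedBall p 1 := fun x hx y hy =>
      (convex_closedBall p 1).segment_subset hx hy
    have hbad : μH[d] (g '' (B ∩ closedBall p 1)) = 0 := by
      have h1 := haus_piece (g := g) (s := B ∩ closedBall p 1) hM0 hr (fun x hx y hy => by
        rw [norm_sub_rev, norm_sub_rev x y]
        exact flat_bound hr hg (hEflat x hx.1.1) (fun z hz => hM z (hseg x hx.2 y hy.2 hz)))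
      have h2 : μH[(finrank ℝ Y : ℝ)] (B ∩ closedBall p 1) = 0 :=
        measure_mono_null inter_subset_left hBnull
      rw [h2, mul_zero] at h1
      exact le_antisymm h1 (zero_le)
    set Gd : Set Y := {y | y ∈ E ∧ iteratedFDeriv ℝ r g y = 0} with hGd
    have hgood : μH[d] (g '' (Gd ∩ closedBall p 1)) = 0 := by
      have hfin : μH[(finrank ℝ Y : ℝ)] (closedBall p (1 : ℝ)) < ⊤ := hcomp.measure_lt_top
      have hbound : ∀ ε : ℝ, 0 < ε → μH[d] (g '' (Gd ∩ closedBall p 1)) ≤
          ENNReal.ofReal ε ^ d * μH[(finrank ℝ Y : ℝ)] (closedBall p (1 : ℝ)) := by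
        intro ε hε
        have huc := hcomp.uniformContinuousOn_of_continuous (hcont r le_rfl).continuousOn
        obtain ⟨δ, hδ, hδ2⟩ := Metric.uniformContinuousOn_iff.1 huc ε hε
        -- cover by small balls
        obtain ⟨u, hu⟩ := TopologicalSpace.exists_dense_seq Y
        set D : ℕ → Set Y := disjointed (fun n => ball (u n) (δ / 2)) with hD
        have hDm : ∀ n, MeasurableSet (D n) := MeasurableSet.disjointed fun n => measurableSet_ball
        have hDd : Pairwise (Function.onFun Disjoint D) := disjoint_disjointed _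
        have hDu : (⋃ n, D n) = univ := by
          rw [hD, iUnion_disjointed, eq_univ_iff_forall]
          intro y
          obtain ⟨n, hn⟩ := hu.exists_dist_lt y (half_pos hδ)
          exact mem_iUnion.2 ⟨n, hn⟩
        have hpiece : ∀ n, μH[d] (g '' (Gd ∩ closedBall p 1 ∩ D n)) ≤
            ENNReal.ofReal ε ^ d * μH[(finrank ℝ Y : ℝ)] (closedBall p (1 : ℝ) ∩ D n) := by
          intro n
          have h1 := haus_piece (g := g) (s := Gd ∩ closedBall p 1 ∩ D n) hε.le hr
            (fun x hx y hy => by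
              rw [norm_sub_rev, norm_sub_rev x y]
              refine flat_bound hr hg (hEflat x hx.1.1.1) (fun z hz => ?_)
              have hz1 : z ∈ closedBall p 1 := hseg x hx.1.2 y hy.1.2 hz
              have hx2 : x ∈ ball (u n) (δ / 2) := disjointed_subset _ n hx.2
              have hy2 : y ∈ ball (u n) (δ / 2) := disjointed_subset _ n hy.2
              have hz2 : z ∈ ball (u n) (δ / 2) := (convex_ball _ _).segment_subset hx2 hy2 hz
              have h3 : dist z x < δ := by
                calc dist z x ≤ dist z (u n) + dist x (u n) := dist_triangle_right _ _ _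
                  _ < δ / 2 + δ / 2 := add_lt_add hz2 hx2
                  _ = δ := by ring
              have h4 := hδ2 z hz1 x hx.1.2 h3
              rw [hx.1.1.2, dist_zero_right] at h4
              exact h4.le)
          refine h1.trans ?_
          gcongr
          exact inter_subset_right
        calc μH[d] (g '' (Gd ∩ closedBall p 1))
            = μH[d] (⋃ n, g '' (Gd ∩ closedBall p 1 ∩ D n)) := by
              rw [← image_iUnion, ← inter_iUnion, hDu, inter_univ]
          _ ≤ ∑' n, μH[d] (g '' (Gd ∩ closedBall p 1 ∩ D n)) := measure_iUnion_le _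
          _ ≤ ∑' n, ENNReal.ofReal ε ^ d * μH[(finrank ℝ Y : ℝ)] (closedBall p (1 : ℝ) ∩ D n) :=
              ENNReal.tsum_le_tsum hpiece
          _ = ENNReal.ofReal ε ^ d * ∑' n, μH[(finrank ℝ Y : ℝ)] (closedBall p (1 : ℝ) ∩ D n) :=
              ENNReal.tsum_mul_left
          _ = ENNReal.ofReal ε ^ d * μH[(finrank ℝ Y : ℝ)] (closedBall p (1 : ℝ)) := by
              rw [← measure_iUnion, ← inter_iUnion, hDu, inter_univ]
              · intro i j hij
                exact (hDd hij).mono inter_subset_right inter_subset_right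
              · intro n
                exact (measurableSet_closedBall).inter (hDm n)
      have hlim : Tendsto (fun ε : ℝ => ENNReal.ofReal ε ^ d *
          μH[(finrank ℝ Y : ℝ)] (closedBall p (1 : ℝ))) (𝓝[>] 0) (𝓝 0) := by
        have h1 : Tendsto (fun ε : ℝ => ENNReal.ofReal ε ^ d) (𝓝[>] 0) (𝓝 0) := by
          have h2 : Tendsto (fun ε : ℝ => ENNReal.ofReal ε) (𝓝[>] 0) (𝓝 0) := by
            have := (ENNReal.continuous_ofReal.tendsto (0 : ℝ)).mono_left
              (nhdsWithin_le_nhds (s := Ioi (0 : ℝ)))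
            simpa using this
          have h3 := ((ENNReal.continuous_rpow_const (y := d)).tendsto 0).comp h2
          rw [ENNReal.zero_rpow_of_pos hd0] at h3
          exact h3
        have h4 := ENNReal.Tendsto.mul_const h1 (b := μH[(finrank ℝ Y : ℝ)] (closedBall p (1 : ℝ)))
          (Or.inr hfin.ne)
        rwa [zero_mul] at h4
      refine le_antisymm (ge_of_tendsto hlim ?_) (zero_le)
      filter_upwards [self_mem_nhdsWithin] with ε hε
      exact hbound ε hε
    have hsplit : E ∩ closedBall p 1 ⊆ (B ∩ closedBall p 1) ∪ (Gd ∩ closedBall p 1) := by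
      rintro y ⟨hy1, hy2⟩
      by_cases h : iteratedFDeriv ℝ r g y = 0
      · exact Or.inr ⟨⟨hy1, h⟩, hy2⟩
      · exact Or.inl ⟨⟨hy1, h⟩, hy2⟩
    refine measure_mono_null (image_mono hsplit) ?_
    rw [image_union]
    exact measure_union_null hbad hgood
  obtain ⟨u, hu⟩ := TopologicalSpace.exists_dense_seq Y
  have hcov : E ⊆ ⋃ n, (E ∩ closedBall (u n) 1) := by
    intro y hy
    obtain ⟨n, hn⟩ := hu.exists_dist_lt y one_pos
    exact mem_iUnion.2 ⟨n, hy, hn.le⟩
  refine measure_mono_null (image_mono hcov) ?_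
  rw [image_iUnion]
  exact measure_iUnion_null fun n => hmain (u n)

end Pool.Agent.Zk9
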