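import Mathlib

/-!
# Symmetry of the iterated derivatives of real `C^n` functions, and derivatives of Taylor polynomials
-/

set_option autoImplicit false
set_option linter.all false

open Set Filter Topology Metric Module
open scoped ContDiff Nat

namespace Pool.Agent.Zk9

section

variable {E : Type} [NormedAddCommGroup E] [NormedSpace ℝ E]

theorem iter_swap (n : ℕ) : ∀ {F : Type} [NormedAddCommGroup F] [NormedSpace ℝ F] (f : E → F),
    ContDiff ℝ (n + 1 : ℕ) f → ∀ (x : E) (m : Fin (n + 1) → E) (i : Fin n),
      iteratedFDeriv ℝ (n + 1) f x (m ∘ Equiv.swap i.castSucc i.succ) =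
        iteratedFDeriv ℝ (n + 1) f x m := by
  induction n with
  | zero => intro F _ _ f hf x m i; exact i.elim0
  | succ n ih =>
    intro F _ _ f hf x m i
    induction i using Fin.cases with
    | succ j =>
      rw [iteratedFDeriv_succ_apply_left, iteratedFDeriv_succ_apply_left]
      have h0 : (m ∘ Equiv.swap j.succ.castSucc j.succ.succ) 0 = m 0 := by
        simp only [Function.comp]
        rw [Equiv.swap_apply_of_ne_of_ne]
        · intro h
          have := congrArg Fin.val h
          simp at this
        · intro h
          have := congrArg Fin.val h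
          simp at this
      have h1 : Fin.tail (m ∘ Equiv.swap j.succ.castSucc j.succ.succ) =
          Fin.tail m ∘ Equiv.swap j.castSucc j.succ := by
        funext k
        simp only [Fin.tail, Function.comp]
        rw [← Fin.succ_castSucc, (Fin.succ_injective _).swap_apply]
      rw [h0, h1]
      have hd : Differentiable ℝ (iteratedFDeriv ℝ (n + 1) f) := by
        refine hf.differentiable_iteratedFDeriv ?_
        exact_mod_cast Nat.lt_succ_self (n + 1)
      have h2 : ∀ w : Fin (n + 1) → E, ∀ v : E, fderiv ℝ (iteratedFDeriv ℝ (n + 1) f) x v w =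
          fderiv ℝ (fun y => iteratedFDeriv ℝ (n + 1) f y w) x v := by
        intro w v
        have h3 := ((ContinuousMultilinearMap.apply ℝ (fun _ : Fin (n + 1) => E) F w).hasFDerivAt
          (x := iteratedFDeriv ℝ (n + 1) f x)).comp x (hd x).hasFDerivAt
        have h4 : (⇑(ContinuousMultilinearMap.apply ℝ (fun _ : Fin (n + 1) => E) F w) ∘
          iteratedFDeriv ℝ (n + 1) f) = fun y => iteratedFDeriv ℝ (n + 1) f y w := rfl
        rw [h4] at h3
        rw [h3.fderiv]
        rfl
      rw [h2, h2]
      congr 2
      funext y
      exact ih f (hf.of_le (by exact_mod_cast Nat.le_succ _)) y (Fin.tail m) j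
    | zero =>
      rcases n with _ | n
      · have h1 := (hf.contDiffAt (x := x)).isSymmSndFDerivAt (by simp [minSmoothness])
        rw [iteratedFDeriv_two_apply, iteratedFDeriv_two_apply]
        have e0 : (m ∘ Equiv.swap (Fin.castSucc 0) (Fin.succ 0)) 0 = m 1 := by
          simp only [Function.comp]
          congr 1
        have e1 : (m ∘ Equiv.swap (Fin.castSucc 0) (Fin.succ 0)) 1 = m 0 := by
          simp only [Function.comp]
          congr 1
        rw [e0, e1]
        exact h1 _ _
      · rw [iteratedFDeriv_succ_apply_right (𝕜 := ℝ) (f := f) (x := x)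
          (m ∘ Equiv.swap (Fin.castSucc 0) (Fin.succ 0)),
          iteratedFDeriv_succ_apply_right (𝕜 := ℝ) (f := f) (x := x) m]
        set j : Fin (n + 1) := 0 with hj
        have hj0 : (0 : Fin (n + 1 + 1)) = j.castSucc := rfl
        rw [hj0]
        have h0 : (m ∘ Equiv.swap j.castSucc.castSucc j.castSucc.succ) (Fin.last _) =
            m (Fin.last _) := by
          simp only [Function.comp]
          rw [Equiv.swap_apply_of_ne_of_ne]
          · intro h
            have := congrArg Fin.val h
            simp [hj] at this
          · intro h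
            have := congrArg Fin.val h
            simp [hj] at this
        have h1 : Fin.init (m ∘ Equiv.swap j.castSucc.castSucc j.castSucc.succ) =
            Fin.init m ∘ Equiv.swap j.castSucc j.succ := by
          funext k
          simp only [Fin.init, Function.comp]
          rw [Fin.succ_castSucc, (Fin.castSucc_injective _).swap_apply]
        rw [h0, h1]
        have hf2 : ContDiff ℝ (n + 1 + 1 - 1 + 1 : ℕ) (fderiv ℝ f) := by
          have h := hf
          have : ((n + 1 + 1 + 1 : ℕ) : WithTop ℕ∞) = ((n + 1 + 1 - 1 + 1 : ℕ) : WithTop ℕ∞) + 1 := by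
            norm_cast
          rw [this] at h
          exact (contDiff_succ_iff_fderiv.1 h).2.2
        have h5 := ih (fderiv ℝ f) hf2 x (Fin.init m) j
        have h6 := DFunLike.congr_fun h5 (m (Fin.last _))
        exact h6

theorem iter_symm {n : ℕ} {F : Type} [NormedAddCommGroup F] [NormedSpace ℝ F] {f : E → F}
    (hf : ContDiff ℝ n f) (x : E) (m : Fin n → E) (σ : Equiv.Perm (Fin n)) :
    iteratedFDeriv ℝ n f x (m ∘ σ) = iteratedFDeriv ℝ n f x m := by
  rcases n with _ | n
  · congr 1
    exact Subsingleton.elim _ _
  · have h1 : σ ∈ Submonoid.closure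
        (Set.range fun i : Fin n => Equiv.swap i.castSucc i.succ) := by
      rw [Equiv.Perm.mclosure_swap_castSucc_succ]
      trivial
    induction h1 using Submonoid.closure_induction generalizing m with
    | mem τ hτ =>
      obtain ⟨i, rfl⟩ := hτ
      exact iter_swap n f hf x m i
    | one => rfl
    | mul a b _ _ ha hb =>
      have : m ∘ ⇑(a * b) = (m ∘ a) ∘ b := rfl
      rw [this, hb, ha]

end

theorem iter_poly {Y F : Type} [NormedAddCommGroup Y] [NormedSpace ℝ Y] [NormedAddCommGroup F]
    [NormedSpace ℝ F] [CompleteSpace F] (n : ℕ)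
    (T : ∀ j : ℕ, ContinuousMultilinearMap ℝ (fun _ : Fin j => Y) F) (y : Y) (i : ℕ) (hi : i ≤ n)
    (v : Fin i → Y) :
    iteratedFDeriv ℝ i (fun z => ∑ j ∈ Finset.range (n + 1), T j (fun _ => z - y)) y v =
      ∑ σ : Equiv.Perm (Fin i), T i (fun k => v (σ k)) := by
  classical
  let p : FormalMultilinearSeries ℝ Y F := fun j => if j ≤ n then T j else 0
  have hp : HasFPowerSeriesOnBall
      (fun z => ∑ j ∈ Finset.range (n + 1), T j (fun _ => z - y)) p y ⊤ := by
    refine ⟨?_, ENNReal.zero_lt_top, ?_⟩
    · rw [p.radius_eq_top_of_forall_image_add_eq_zero (n + 1)]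
      intro m
      simp only [p]
      rw [if_neg (by omega)]
    · intro w _
      have h1 : ∑ j ∈ Finset.range (n + 1), T j (fun _ => y + w - y) =
          ∑ j ∈ Finset.range (n + 1), p j (fun _ => w) := by
        refine Finset.sum_congr rfl fun j hj => ?_
        have : j ≤ n := by have := Finset.mem_range.1 hj; omega
        simp only [p, if_pos this, add_sub_cancel_left]
      rw [h1]
      refine hasSum_sum_of_ne_finset_zero fun j hj => ?_
      have : ¬ j ≤ n := by
        intro h
        exact hj (Finset.mem_range.2 (by omega))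
      simp only [p, if_neg this]
      rfl
  rw [hp.iteratedFDeriv_eq_sum_of_completeSpace v]
  simp only [p, if_pos hi]

end Pool.Agent.Zk9
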