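import Pool.Agent.Zk95.MS.Taylor
import Pool.Agent.Zk9.IterSymm

/-!
# The Taylor family of `Zk95.MS.Taylor` with its jets along the second factor
-/

set_option autoImplicit false
set_option linter.all false

open Set Filter Topology Metric Module
open scoped ContDiff Nat

namespace Pool.Agent.Zk9

open Pool.Agent.Zk95.MS

/-- derivatives along the second factor -/
theorem iter_slice {U Y F : Type} [NormedAddCommGroup U] [NormedSpace ℝ U] [NormedAddCommGroup Y]
    [NormedSpace ℝ Y] [NormedAddCommGroup F] [NormedSpace ℝ F] {r : ℕ} {f : U × Y → F}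
    (hf : ContDiff ℝ r f) (x : U × Y) (i : ℕ) (hi : i ≤ r) (v : Fin i → Y) :
    iteratedFDeriv ℝ i (fun z => f (x.1, z)) x.2 v =
      iteratedFDeriv ℝ i f x (fun k => ContinuousLinearMap.inr ℝ U Y (v k)) := by
  have h1 : (fun z => f (x.1, z)) =
      (fun y => f ((x.1, 0) + y)) ∘ (ContinuousLinearMap.inr ℝ U Y) := by
    funext z
    simp
  have h2 : ContDiff ℝ r (fun y => f ((x.1, 0) + y)) := hf.comp (contDiff_const.add contDiff_id)
  rw [h1, (ContinuousLinearMap.inr ℝ U Y).iteratedFDeriv_comp_right h2 x.2 (by exact_mod_cast hi),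
    ContinuousMultilinearMap.compContinuousLinearMap_apply, iteratedFDeriv_comp_add_left]
  have h3 : ((x.1, 0) : U × Y) + (ContinuousLinearMap.inr ℝ U Y) x.2 = x := by
    ext <;> simp
  rw [h3]

theorem taylor_family {U Y F : Type} [NormedAddCommGroup U] [NormedSpace ℝ U]
    [FiniteDimensional ℝ U] [NormedAddCommGroup Y] [NormedSpace ℝ Y] [FiniteDimensional ℝ Y]
    [NormedAddCommGroup F] [NormedSpace ℝ F] [FiniteDimensional ℝ F] (r : ℕ) (hr : 1 ≤ r)
    (f : U × Y → F) (hf : ContDiff ℝ r f) :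
    ∃ (K : Type) (_ : NormedAddCommGroup K) (_ : NormedSpace ℝ K) (_ : FiniteDimensional ℝ K)
      (κ : U × Y → K) (Φ : K × Y → F), Continuous κ ∧ ContDiff ℝ ∞ Φ ∧
      (∀ x, Φ (κ x, x.2) = f x) ∧
      (∀ x : U × Y, (fderiv ℝ f x).comp (ContinuousLinearMap.inr ℝ U Y) = 0 →
        HasFDerivAt (fun z => Φ (κ x, z)) (0 : Y →L[ℝ] F) x.2) ∧
      (∀ x : U × Y, ∀ i < r, iteratedFDeriv ℝ i (fun z => Φ (κ x, z)) x.2 =
        iteratedFDeriv ℝ i (fun z => f (x.1, z)) x.2) ∧
      ∀ p₀ : U × Y, ∃ C : ℝ, 0 ≤ C ∧ ∀ x x' : U × Y, ∀ z : Y,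
        x.1 ∈ Metric.closedBall p₀.1 1 → x'.1 ∈ Metric.closedBall p₀.1 1 →
        x.2 ∈ Metric.closedBall p₀.2 1 → x'.2 ∈ Metric.closedBall p₀.2 1 →
        z ∈ Metric.closedBall p₀.2 1 →
        ‖Φ (κ x, z) - Φ (κ x', z)‖ ≤ C * (‖x.1 - x'.1‖ + ‖z - x.2‖ ^ r + ‖z - x'.2‖ ^ r) := by
  obtain ⟨n, rfl⟩ : ∃ n, r = n + 1 := ⟨r - 1, by omega⟩
  set J : Y →L[ℝ] U × Y := ContinuousLinearMap.inr ℝ U Y with hJ
  haveI hfin : ∀ i : Fin (n + 1), FiniteDimensional ℝ
      (ContinuousMultilinearMap ℝ (fun _ : Fin (i : ℕ) => Y) F) := fun i =>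
    finite_multilinear (i : ℕ)
  let κ : U × Y → (∀ i : Fin (n + 1), ContinuousMultilinearMap ℝ (fun _ : Fin i => Y) F) × Y :=
    fun x => (fun i => (iteratedFDeriv ℝ i f x).compContinuousLinearMap (fun _ => J), x.2)
  let Φ : ((∀ i : Fin (n + 1), ContinuousMultilinearMap ℝ (fun _ : Fin i => Y) F) × Y) × Y → F :=
    fun q => ∑ i : Fin (n + 1), (((i : ℕ)! : ℝ))⁻¹ • q.1.1 i (fun _ => q.2 - q.1.2)
  have hΦκ : ∀ (x : U × Y) (z : Y), Φ (κ x, z) = ∑ i ∈ Finset.range (n + 1),
      ((i ! : ℝ))⁻¹ • iteratedFDeriv ℝ i f x (fun _ => J (z - x.2)) := by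
    intro x z
    rw [Finset.sum_range]
    rfl
  have hTay : ∀ p₀ : U × Y, ∃ M : ℝ, 0 ≤ M ∧ ∀ (x : U × Y) (z : Y),
      x.1 ∈ Metric.closedBall p₀.1 1 → x.2 ∈ Metric.closedBall p₀.2 1 →
      z ∈ Metric.closedBall p₀.2 1 → ‖f (x.1, z) - Φ (κ x, z)‖ ≤ M * ‖z - x.2‖ ^ (n + 1) := by
    intro p₀
    have hcomp : IsCompact (Metric.closedBall p₀.1 1 ×ˢ Metric.closedBall p₀.2 1) :=
      (isCompact_closedBall _ _).prod (isCompact_closedBall _ _)
    obtain ⟨M, hM⟩ := hcomp.exists_bound_of_continuousOn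
      (hf.continuous_iteratedFDeriv (m := n + 1) (by exact_mod_cast le_rfl)).continuousOn
    have hM0 : 0 ≤ M := (norm_nonneg _).trans (hM p₀ ⟨by simp, by simp⟩)
    refine ⟨M, hM0, fun x z hx1 hx2 hz => ?_⟩
    have h := taylor_line (f := f) n hf x (J (z - x.2)) (M := M) (fun t ht => by
      refine hM _ ⟨?_, ?_⟩
      · simpa [hJ] using hx1
      · have h1 : (x + t • J (z - x.2)).2 = x.2 + t • (z - x.2) := by simp [hJ]
        rw [h1]
        have h2 := (convex_closedBall p₀.2 (1 : ℝ)) hx2 hz (a := 1 - t) (b := t)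
          (by linarith [ht.2]) ht.1 (by ring)
        have h3 : x.2 + t • (z - x.2) = (1 - t) • x.2 + t • z := by
          rw [smul_sub, sub_smul, one_smul]; abel
        rw [h3]
        exact h2)
    rw [hΦκ]
    have h4 : x + J (z - x.2) = (x.1, z) := by
      ext
      · simp [hJ]
      · simp [hJ]
    rw [h4] at h
    have h5 : ‖J (z - x.2)‖ = ‖z - x.2‖ := by simp [hJ, Prod.norm_def]
    rw [h5] at h
    exact h
  refine ⟨(∀ i : Fin (n + 1), ContinuousMultilinearMap ℝ (fun _ : Fin i => Y) F) × Y,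
    inferInstance, inferInstance, inferInstance, κ, Φ, ?_, ?_, ?_, ?_, ?_, ?_⟩
  · refine Continuous.prodMk (continuous_pi fun i => ?_) continuous_snd
    have h1 : Continuous (iteratedFDeriv ℝ (i : ℕ) f) :=
      hf.continuous_iteratedFDeriv (by exact_mod_cast i.2.le)
    exact (ContinuousMultilinearMap.compContinuousLinearMapL
      (fun _ : Fin (i : ℕ) => J)).continuous.comp h1
  · refine ContDiff.sum fun i _ => contDiff_const.smul ?_
    have h1 := contDiff_diag (Y := Y) (i : ℕ) (F := F)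
    refine h1.comp (ContDiff.prodMk ?_ ?_)
    · exact contDiff_pi.1 (contDiff_fst.comp contDiff_fst) i
    · exact contDiff_snd.sub (contDiff_snd.comp contDiff_fst)
  · intro x
    rw [hΦκ, Finset.sum_eq_single_of_mem 0 (by simp)]
    · simp [iteratedFDeriv_zero_apply]
    · intro i _ hi
      rw [sub_self, map_zero]
      have : (iteratedFDeriv ℝ i f x) (fun _ => (0 : U × Y)) = 0 := by
        haveI : Nonempty (Fin i) := ⟨⟨0, Nat.pos_of_ne_zero hi⟩⟩
        exact (iteratedFDeriv ℝ i f x).map_zero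
      rw [this, smul_zero]
  · intro x hx
    have h0 : (fun z => Φ (κ x, z)) = fun z => ∑ i ∈ Finset.range (n + 1),
      ((i ! : ℝ))⁻¹ • iteratedFDeriv ℝ i f x (fun _ => J (z - x.2)) := funext fun z => hΦκ x z
    rw [h0]
    have h1 : ∀ i ∈ Finset.range (n + 1), HasFDerivAt (fun z => ((i ! : ℝ))⁻¹ •
        iteratedFDeriv ℝ i f x (fun _ => J (z - x.2))) (0 : Y →L[ℝ] F) x.2 := by
      intro i _
      rcases Nat.lt_or_ge 1 i with hi | hi
      · refine Asymptotics.IsBigO.hasFDerivAt (n := i) ?_ hi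
        refine Asymptotics.IsBigO.of_bound (|((i ! : ℝ))⁻¹| * ‖iteratedFDeriv ℝ i f x‖)
          (Filter.Eventually.of_forall fun z => ?_)
        rw [norm_smul, Real.norm_eq_abs, mul_assoc]
        refine mul_le_mul_of_nonneg_left ?_ (abs_nonneg _)
        refine (ContinuousMultilinearMap.le_opNorm _ _).trans ?_
        rw [Finset.prod_const, Finset.card_univ, Fintype.card_fin]
        have h5 : ‖J (z - x.2)‖ = ‖z - x.2‖ := by simp [hJ, Prod.norm_def]
        rw [h5, Real.norm_of_nonneg (by positivity)]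
      · interval_cases i
        · have h2 : (fun z : Y => (((0 : ℕ)! : ℝ))⁻¹ •
              iteratedFDeriv ℝ 0 f x (fun _ => J (z - x.2))) = fun _ => f x := by
            funext z; simp [iteratedFDeriv_zero_apply]
          rw [h2]
          exact hasFDerivAt_const _ _
        · have h2 : (fun z : Y => (((1 : ℕ)! : ℝ))⁻¹ •
              iteratedFDeriv ℝ 1 f x (fun _ => J (z - x.2))) = fun _ => 0 := by
            funext z
            rw [iteratedFDeriv_one_apply]
            have h3 := DFunLike.congr_fun hx (z - x.2)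
            rw [ContinuousLinearMap.comp_apply] at h3
            rw [h3]
            simp
          rw [h2]
          exact hasFDerivAt_const _ _
    have h2 := HasFDerivAt.fun_sum h1
    simpa using h2
  · intro x i hi
    ext v
    rw [iter_slice hf x i hi.le v]
    have h0 : (fun z => Φ (κ x, z)) = fun z => ∑ j ∈ Finset.range (n + 1),
        (((j ! : ℝ))⁻¹ • (iteratedFDeriv ℝ j f x).compContinuousLinearMap (fun _ => J))
          (fun _ => z - x.2) := funext fun z => by rw [hΦκ x z]; rfl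
    rw [h0, iter_poly n (fun j => ((j ! : ℝ))⁻¹ •
      (iteratedFDeriv ℝ j f x).compContinuousLinearMap (fun _ => J)) x.2 i (by omega) v]
    have h1 : ∀ σ : Equiv.Perm (Fin i), (((i ! : ℝ))⁻¹ •
        (iteratedFDeriv ℝ i f x).compContinuousLinearMap (fun _ => J)) (fun k => v (σ k)) =
        ((i ! : ℝ))⁻¹ • iteratedFDeriv ℝ i f x (fun k => J (v k)) := by
      intro σ
      have h2 := iter_symm (n := i) (f := f) (hf.of_le (by exact_mod_cast hi.le)) x
        (fun k => J (v k)) σ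
      rw [← h2]
      rfl
    rw [Finset.sum_congr rfl (fun σ _ => h1 σ), Finset.sum_const, Finset.card_univ,
      Fintype.card_perm, Fintype.card_fin, ← Nat.cast_smul_eq_nsmul ℝ, smul_smul,
      mul_inv_cancel₀ (by positivity), one_smul]
  · intro p₀
    obtain ⟨M, hM0, hM⟩ := hTay p₀
    -- Lipschitz bound
    have hcomp : IsCompact (Metric.closedBall p₀.1 1 ×ˢ Metric.closedBall p₀.2 1) :=
      (isCompact_closedBall _ _).prod (isCompact_closedBall _ _)
    have hd : Differentiable ℝ f := hf.differentiable (by simp)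
    obtain ⟨L, hL⟩ := hcomp.exists_bound_of_continuousOn
      (hf.continuous_fderiv (by simp)).continuousOn
    have hL0 : 0 ≤ L := (norm_nonneg _).trans (hL p₀ ⟨by simp, by simp⟩)
    have hLip : ∀ u u' : U, ∀ z : Y, u ∈ Metric.closedBall p₀.1 1 → u' ∈ Metric.closedBall p₀.1 1 →
        z ∈ Metric.closedBall p₀.2 1 → ‖f (u, z) - f (u', z)‖ ≤ L * ‖u - u'‖ := by
      intro u u' z hu hu' hz
      have h1 := ((convex_closedBall p₀.1 (1 : ℝ)).prod (convex_closedBall p₀.2 (1 : ℝ))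
        ).norm_image_sub_le_of_norm_fderiv_le (fun y _ => hd y) hL
        (⟨hu', hz⟩ : (u', z) ∈ Metric.closedBall p₀.1 1 ×ˢ Metric.closedBall p₀.2 1)
        (⟨hu, hz⟩ : (u, z) ∈ Metric.closedBall p₀.1 1 ×ˢ Metric.closedBall p₀.2 1)
      have h2 : ‖((u, z) : U × Y) - (u', z)‖ = ‖u - u'‖ := by simp [Prod.norm_def]
      rw [h2] at h1
      exact h1
    refine ⟨max M L, hM0.trans (le_max_left _ _), fun x x' z hx1 hx1' hx2 hx2' hz => ?_⟩
    have e1 := hM x z hx1 hx2 hz
    have e2 := hM x' z hx1' hx2' hz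
    have e3 := hLip x.1 x'.1 z hx1 hx1' hz
    have e4 : Φ (κ x, z) - Φ (κ x', z) = -(f (x.1, z) - Φ (κ x, z)) + (f (x.1, z) - f (x'.1, z)) +
        (f (x'.1, z) - Φ (κ x', z)) := by abel
    rw [e4]
    refine (norm_add₃_le).trans ?_
    rw [norm_neg]
    have g1 : M * ‖z - x.2‖ ^ (n + 1) ≤ max M L * ‖z - x.2‖ ^ (n + 1) :=
      mul_le_mul_of_nonneg_right (le_max_left _ _) (by positivity)
    have g2 : M * ‖z - x'.2‖ ^ (n + 1) ≤ max M L * ‖z - x'.2‖ ^ (n + 1) :=
      mul_le_mul_of_nonneg_right (le_max_left _ _) (by positivity)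
    have g3 : L * ‖x.1 - x'.1‖ ≤ max M L * ‖x.1 - x'.1‖ :=
      mul_le_mul_of_nonneg_right (le_max_right _ _) (by positivity)
    rw [mul_add, mul_add]
    linarith

end Pool.Agent.Zk9
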