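import Mathlib
import Pool.Agent.Zk23.AKDefs2

/-!
# One round of patching: an averaging argument over translations
-/

set_option autoImplicit false

namespace Pool.Agent.Zk9.AKP6

open Finset Pool.Agent.Zk23.AKStep

open scoped Classical

/-- points of `F_q^d × F_q^m` -/
abbrev G (q d m : ℕ) := (Fin d → ZMod q) × (Fin m → ZMod q)

theorem card_fst {q d m : ℕ} [Fact q.Prime] (T : Finset (Fin d → ZMod q)) :
    (univ.filter (fun g : G q d m => g.1 ∈ T)).card = T.card * q ^ m := by
  have h1 : (univ.filter (fun g : G q d m => g.1 ∈ T)) = T ×ˢ univ := by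
    ext g
    simp
  rw [h1, card_product, card_univ, Fintype.card_pi]
  simp [ZMod.card]

theorem card_G (q d m : ℕ) [Fact q.Prime] : Fintype.card (G q d m) = q ^ (d + m) := by
  rw [Fintype.card_prod, Fintype.card_pi, Fintype.card_pi, pow_add]
  simp [ZMod.card]

theorem card_pairs {q d m : ℕ} [Fact q.Prime] (e : G q d m → G q d m → G q d m)
    (he : ∀ u, Function.Injective (e u)) (T : Finset (Fin d → ZMod q)) {H' : ℕ}
    (hT : T.card ≤ H') :
    (univ.filter (fun p : G q d m × G q d m => (e p.1 p.2).1 ∈ T)).card ≤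
      q ^ (d + m) * (H' * q ^ m) := by
  have h1 : (univ.filter (fun p : G q d m × G q d m => (e p.1 p.2).1 ∈ T)).card =
      ∑ u : G q d m, (univ.filter (fun b : G q d m => (e u b).1 ∈ T)).card := by
    rw [card_filter, Fintype.sum_prod_type]
    refine sum_congr rfl fun u _ => ?_
    rw [card_filter]
  rw [h1, ← card_G q d m, ← card_univ, ← smul_eq_mul, ← sum_const]
  refine sum_le_sum fun u _ => ?_
  calc (univ.filter (fun b : G q d m => (e u b).1 ∈ T)).card
      ≤ (univ.filter (fun g : G q d m => g.1 ∈ T)).card := by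
        refine card_le_card_of_injOn (e u) (fun b hb => ?_) ((he u).injOn)
        simpa using hb
    _ = T.card * q ^ m := card_fst T
    _ ≤ H' * q ^ m := Nat.mul_le_mul_right _ hT

theorem count (q d m : ℕ) [Fact q.Prime] (S : Finset ℚ)
    (hS : ∀ r ∈ S, (1 : ZMod q) + (r : ZMod q) ≠ 0) (D : Set (G q d m)) (η : ℝ)
    (hη : ((Dᶜ).ncard : ℝ) ≤ η * (q : ℝ) ^ (d + m)) (X Y : G q d m → G q d m)
    (T : Option ℚ → Finset (Fin d → ZMod q)) (H' : ℕ) (hT : ∀ r, (T r).card ≤ H')
    (E : Set (G q d m)) :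
    ∃ u b : G q d m, ((E \ {v | v - u ∈ D ∧ (Y (v - u) + b).1 ∉ T none ∧
      ∀ r ∈ S, (X (v - u) + (r : ZMod q) • Y (v - u) + u + (1 + (r : ZMod q)) • b).1 ∉
        T (some r)}).ncard : ℝ) ≤ (η + (S.card + 1) * H' / (q : ℝ) ^ d) * (E.ncard : ℝ) := by
  have hq : 0 < (q : ℝ) := by exact_mod_cast (Fact.out : q.Prime).pos
  obtain ⟨gd, hgd⟩ : ∃ gd : G q d m → (G q d m × G q d m) → Prop, gd = fun v p =>
      v - p.1 ∈ D ∧ (Y (v - p.1) + p.2).1 ∉ T none ∧
      ∀ r ∈ S, (X (v - p.1) + (r : ZMod q) • Y (v - p.1) + p.1 + (1 + (r : ZMod q)) • p.2).1 ∉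
        T (some r) := ⟨_, rfl⟩
  have hbad : ∀ v, ((univ.filter (fun p => ¬ gd v p)).card : ℝ) ≤
      (q : ℝ) ^ (d + m) * ((q : ℝ) ^ (d + m) * (η + (S.card + 1) * H' / (q : ℝ) ^ d)) := by
    intro v
    have hsub : univ.filter (fun p => ¬ gd v p) ⊆
        (univ.filter (fun p : G q d m × G q d m => v - p.1 ∉ D)) ∪
        ((univ.filter (fun p : G q d m × G q d m => (Y (v - p.1) + p.2).1 ∈ T none)) ∪
        S.biUnion (fun r => univ.filter (fun p : G q d m × G q d m =>
          (X (v - p.1) + (r : ZMod q) • Y (v - p.1) + p.1 + (1 + (r : ZMod q)) • p.2).1 ∈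
            T (some r)))) := by
      intro p hp
      simp only [mem_filter, mem_univ, true_and, mem_union, mem_biUnion] at hp ⊢
      by_contra hcon
      push Not at hcon
      apply hp
      rw [hgd]
      exact ⟨by simpa using hcon.1, hcon.2.1, hcon.2.2⟩
    have c1 : (univ.filter (fun p : G q d m × G q d m => v - p.1 ∉ D)).card =
        q ^ (d + m) * (Dᶜ).ncard := by
      have h1 : (univ.filter (fun p : G q d m × G q d m => v - p.1 ∉ D)) =
          (univ.filter (fun u : G q d m => v - u ∉ D)) ×ˢ univ := by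
        ext p
        simp
      have h2 : (univ.filter (fun u : G q d m => v - u ∉ D)).card = (Dᶜ).ncard := by
        rw [← Set.ncard_coe_finset]
        refine Set.ncard_congr (fun u _ => v - u) (fun u hu => by simpa using hu)
          (fun a b _ _ hab => by simpa using hab) (fun w hw => ⟨v - w, by simpa using hw, by simp⟩)
      rw [h1, card_product, h2, card_univ, card_G, mul_comm]
    have c2 : (univ.filter (fun p : G q d m × G q d m => (Y (v - p.1) + p.2).1 ∈ T none)).card ≤
        q ^ (d + m) * (H' * q ^ m) :=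
      card_pairs (fun u b => Y (v - u) + b) (fun u a b hab => by simpa using hab) _ (hT none)
    have c3 : ∀ r ∈ S, (univ.filter (fun p : G q d m × G q d m =>
          (X (v - p.1) + (r : ZMod q) • Y (v - p.1) + p.1 + (1 + (r : ZMod q)) • p.2).1 ∈
            T (some r))).card ≤ q ^ (d + m) * (H' * q ^ m) := fun r hr =>
      card_pairs (fun u b => X (v - u) + (r : ZMod q) • Y (v - u) + u + (1 + (r : ZMod q)) • b)
        (fun u a b hab => by
          have h1 : (1 + (r : ZMod q)) • a = (1 + (r : ZMod q)) • b := by simpa using hab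
          exact (IsUnit.mk0 _ (hS r hr)).smul_left_cancel.1 h1) _ (hT (some r))
    have c4 : (univ.filter (fun p => ¬ gd v p)).card ≤
        q ^ (d + m) * (Dᶜ).ncard + (q ^ (d + m) * (H' * q ^ m) +
          S.card * (q ^ (d + m) * (H' * q ^ m))) := by
      refine (card_le_card hsub).trans ((card_union_le _ _).trans ?_)
      refine Nat.add_le_add c1.le ((card_union_le _ _).trans (Nat.add_le_add c2 ?_))
      refine card_biUnion_le.trans ?_
      calc _ ≤ ∑ _r ∈ S, q ^ (d + m) * (H' * q ^ m) := sum_le_sum c3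
        _ = _ := by rw [sum_const, smul_eq_mul]
    have c5 : ((univ.filter (fun p => ¬ gd v p)).card : ℝ) ≤
        (q : ℝ) ^ (d + m) * (Dᶜ).ncard + ((q : ℝ) ^ (d + m) * (H' * (q : ℝ) ^ m) +
          S.card * ((q : ℝ) ^ (d + m) * (H' * (q : ℝ) ^ m))) := by
      exact_mod_cast c4
    refine c5.trans ?_
    have h6 : (q : ℝ) ^ (d + m) * (Dᶜ).ncard ≤
        (q : ℝ) ^ (d + m) * (η * (q : ℝ) ^ (d + m)) :=
      mul_le_mul_of_nonneg_left hη (by positivity)
    have h7 : (q : ℝ) ^ (d + m) * ((q : ℝ) ^ (d + m) * (η + (S.card + 1) * H' / (q : ℝ) ^ d)) =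
        (q : ℝ) ^ (d + m) * (η * (q : ℝ) ^ (d + m)) +
        ((q : ℝ) ^ (d + m) * (H' * (q : ℝ) ^ m) +
          S.card * ((q : ℝ) ^ (d + m) * (H' * (q : ℝ) ^ m))) := by
      have hqd : (q : ℝ) ^ d ≠ 0 := by positivity
      rw [pow_add]
      field_simp
      ring
    rw [h7]
    linarith
  obtain ⟨E', hE'⟩ : ∃ E' : Finset (G q d m), (E' : Set (G q d m)) = E :=
    ⟨E.toFinset, by simp⟩
  have hsum : ∑ p : G q d m × G q d m, ((E'.filter (fun v => ¬ gd v p)).card : ℝ) ≤
      ∑ _p : G q d m × G q d m, (η + (S.card + 1) * H' / (q : ℝ) ^ d) * (E'.card : ℝ) := by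
    have h1 : ∑ p : G q d m × G q d m, ((E'.filter (fun v => ¬ gd v p)).card : ℝ) =
        ∑ v ∈ E', ((univ.filter (fun p => ¬ gd v p)).card : ℝ) := by
      simp only [card_filter, Nat.cast_sum]
      rw [sum_comm]
    rw [h1]
    refine (sum_le_sum fun v _ => hbad v).trans (le_of_eq ?_)
    rw [sum_const, sum_const, card_univ, Fintype.card_prod, card_G, nsmul_eq_mul, nsmul_eq_mul]
    push_cast
    ring
  obtain ⟨p, _, hp⟩ := exists_le_of_sum_le univ_nonempty hsum
  refine ⟨p.1, p.2, ?_⟩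
  have h8 : E \ {v | v - p.1 ∈ D ∧ (Y (v - p.1) + p.2).1 ∉ T none ∧
      ∀ r ∈ S, (X (v - p.1) + (r : ZMod q) • Y (v - p.1) + p.1 + (1 + (r : ZMod q)) • p.2).1 ∉
        T (some r)} = ((E'.filter (fun v => ¬ gd v p) : Finset (G q d m)) : Set (G q d m)) := by
    rw [← hE', hgd]
    ext v
    simp
  rw [h8, Set.ncard_coe_finset, ← hE', Set.ncard_coe_finset]
  exact hp

end Pool.Agent.Zk9.AKP6
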