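import Mathlib
import Pool.Agent.Zk23.AKDefs2
import Pool.Agent.Zk9.AKP6

/-!
# One round of patching: the construction
-/

set_option autoImplicit false

namespace Pool.Agent.Zk9.AKP6

open Finset Pool.Agent.Zk23.AKStep

open scoped Classical

/-- P6 -/
theorem step (q d m : ℕ) [Fact q.Prime] (S : Finset ℚ)
    (hS : ∀ r ∈ S, (1 : ZMod q) + (r : ZMod q) ≠ 0)
    (Γ Γ' : Option ℚ → Finset ((Fin d → ZMod q) × (Fin m → ZMod q)))
    (hΓ : ∀ r, Set.InjOn Prod.fst (Γ r : Set ((Fin d → ZMod q) × (Fin m → ZMod q))))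
    (hΓ' : ∀ r, Set.InjOn Prod.fst (Γ' r : Set ((Fin d → ZMod q) × (Fin m → ZMod q))))
    (η : ℝ) (hη : (((setDiff q d m S Γ)ᶜ).ncard : ℝ) ≤ η * (q : ℝ) ^ (d + m))
    (H' : ℕ) (hH' : ∀ r, (Γ' r).card ≤ H') :
    ∃ Γ'' : Option ℚ → Finset ((Fin d → ZMod q) × (Fin m → ZMod q)),
      (∀ r, Set.InjOn Prod.fst (Γ'' r : Set ((Fin d → ZMod q) × (Fin m → ZMod q)))) ∧
      (∀ r, (Γ'' r).card ≤ (Γ' r).card + (Γ r).card) ∧
      (((setDiff q d m S Γ'')ᶜ).ncard : ℝ) ≤
        (η + (S.card + 1) * H' / (q : ℝ) ^ d) * (((setDiff q d m S Γ')ᶜ).ncard : ℝ) := by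
  -- witnesses
  have hw : ∀ v : G q d m, ∃ xy : G q d m × G q d m, v ∈ setDiff q d m S Γ →
      v = xy.1 - xy.2 ∧ xy.2 ∈ Γ none ∧ ∀ r ∈ S, xy.1 + (r : ZMod q) • xy.2 ∈ Γ (some r) := by
    intro v
    by_cases h : v ∈ setDiff q d m S Γ
    · obtain ⟨x, y, h1, h2, h3⟩ := h
      exact ⟨(x, y), fun _ => ⟨h1, h2, h3⟩⟩
    · exact ⟨(0, 0), fun h' => absurd h' h⟩
  choose W hW using hw
  obtain ⟨u, b, hub⟩ := count q d m S hS (setDiff q d m S Γ) η hη (fun v => (W v).1)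
    (fun v => (W v).2) (fun r => (Γ' r).image Prod.fst) H'
    (fun r => card_image_le.trans (hH' r)) (setDiff q d m S Γ')ᶜ
  -- the translates
  obtain ⟨τ, hτ⟩ : ∃ τ : Option ℚ → G q d m,
      τ = fun r => r.elim b (fun r => u + b + (r : ZMod q) • b) := ⟨_, rfl⟩
  refine ⟨fun r => Γ' r ∪ (((Γ r).image (fun w => w + τ r)).filter
    (fun w => w.1 ∉ (Γ' r).image Prod.fst)), ?_, ?_, ?_⟩
  · intro r x hx y hy hxy
    simp only [coe_union, coe_filter, Set.mem_union, mem_coe, Set.mem_ofPred_eq] at hx hy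
    rcases hx with hx | ⟨hx, hx'⟩
    · rcases hy with hy | ⟨hy, hy'⟩
      · exact hΓ' r hx hy hxy
      · exact absurd (mem_image.2 ⟨x, hx, hxy⟩) hy'
    · rcases hy with hy | ⟨hy, hy'⟩
      · exact absurd (mem_image.2 ⟨y, hy, hxy.symm⟩) hx'
      · obtain ⟨x1, h1, rfl⟩ := mem_image.1 hx
        obtain ⟨y1, h2, rfl⟩ := mem_image.1 hy
        have h3 := hΓ r h1 h2 (by simpa using hxy)
        rw [h3]
  · intro r
    refine (card_union_le _ _).trans (Nat.add_le_add_left ?_ _)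
    exact (card_filter_le _ _).trans card_image_le
  · refine le_trans ?_ hub
    rw [Nat.cast_le]
    refine Set.ncard_le_ncard ?_ (Set.toFinite _)
    intro v hv
    refine ⟨fun h => hv ?_, fun h => hv ?_⟩
    · obtain ⟨x, y, h1, h2, h3⟩ := h
      exact ⟨x, y, h1, mem_union_left _ h2, fun r hr => mem_union_left _ (h3 r hr)⟩
    · obtain ⟨h1, h2, h3⟩ := h
      obtain ⟨e1, e2, e3⟩ := hW _ h1
      refine ⟨(W (v - u)).1 + (u + b), (W (v - u)).2 + b, ?_, ?_, ?_⟩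
      · calc v = (v - u) + u := (sub_add_cancel v u).symm
          _ = ((W (v - u)).1 - (W (v - u)).2) + u := congrArg (fun z => z + u) e1
          _ = _ := by abel
      · exact mem_union_right _ (mem_filter.2 ⟨mem_image.2 ⟨_, e2, by rw [hτ]; rfl⟩, h2⟩)
      · intro r hr
        have h4 : (W (v - u)).1 + (u + b) + (r : ZMod q) • ((W (v - u)).2 + b) =
            (W (v - u)).1 + (r : ZMod q) • (W (v - u)).2 + (u + b + (r : ZMod q) • b) := by
          rw [smul_add]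
          abel
        have h5 : (W (v - u)).1 + (r : ZMod q) • (W (v - u)).2 + u + (1 + (r : ZMod q)) • b =
            (W (v - u)).1 + (r : ZMod q) • (W (v - u)).2 + (u + b + (r : ZMod q) • b) := by
          rw [add_smul, one_smul]
          abel
        rw [h4]
        refine mem_union_right _ (mem_filter.2 ⟨mem_image.2 ⟨_, e3 r hr, by rw [hτ]; rfl⟩, ?_⟩)
        rw [← h5]
        exact h3 r hr

end Pool.Agent.Zk9.AKP6
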