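import Pool.Agent.Zk23.AKDefs

/-!
# Graphs over finite fields: the upper bound
-/

set_option autoImplicit false

namespace Pool.Agent.Zk9.AKP5

open Finset Pool.Agent.Zk23.AKDefs

/-- Encoding of bounded integer vectors. -/
theorem enc_fin (n : ℕ) (B : ℤ) : ∃ c : Fin n → ℤ, ∀ Z : Fin n → ℤ, (∀ i, |Z i| < B) →
    ∑ i, Z i * c i = 0 → ∀ i, Z i = 0 := by
  induction n with
  | zero => exact ⟨fun _ => 0, fun Z _ _ i => i.elim0⟩
  | succ n ih =>
    obtain ⟨c, hc⟩ := ih
    refine ⟨Fin.cons 1 fun i => B * c i, fun Z hZ hs => ?_⟩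
    rw [Fin.sum_univ_succ] at hs
    simp only [Fin.cons_zero, mul_one, Fin.cons_succ] at hs
    have h1 : ∑ i : Fin n, Z i.succ * (B * c i) = B * ∑ i : Fin n, Z i.succ * c i := by
      rw [mul_sum]
      exact sum_congr rfl fun i _ => by ring
    rw [h1] at hs
    have h0 : Z 0 = 0 := by
      have h2 : B ∣ Z 0 := ⟨-∑ i : Fin n, Z i.succ * c i, by linarith⟩
      exact Int.eq_zero_of_abs_lt_dvd h2 (hZ 0)
    have hB : B ≠ 0 := by
      have := hZ 0
      rw [h0, abs_zero] at this
      exact this.ne'
    rw [h0, zero_add] at hs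
    have h3 := hc (fun i => Z i.succ) (fun i => hZ i.succ) ((mul_eq_zero.1 hs).resolve_left hB)
    intro i
    exact Fin.cases h0 h3 i

theorem enc (ι : Type) [Fintype ι] (B : ℤ) : ∃ c : ι → ℤ, ∀ Z : ι → ℤ, (∀ i, |Z i| < B) →
    ∑ i, Z i * c i = 0 → ∀ i, Z i = 0 := by
  obtain ⟨c, hc⟩ := enc_fin (Fintype.card ι) B
  refine ⟨fun i => c (Fintype.equivFin ι i), fun Z hZ hs i => ?_⟩
  have h1 := hc (fun j => Z ((Fintype.equivFin ι).symm j)) (fun j => hZ _) (by
    rw [← hs]
    refine Fintype.sum_equiv (Fintype.equivFin ι).symm _ _ fun j => ?_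
    simp)
  have := h1 (Fintype.equivFin ι i)
  simpa using this

/-- A function that factors through a key takes few values. -/
theorem card_key {V κ β : Type} [DecidableEq β] (s : Finset V) (F : V → β)
    (key : V → κ) (T : Finset κ) (h1 : ∀ v ∈ s, key v ∈ T)
    (h2 : ∀ v ∈ s, ∀ v' ∈ s, key v = key v' → F v = F v') : (s.image F).card ≤ T.card := by
  classical
  rcases s.eq_empty_or_nonempty with rfl | ⟨v₀, _⟩
  · simp
  · have : Nonempty V := ⟨v₀⟩
    have hex : ∀ b ∈ s.image F, ∃ v ∈ s, F v = b := fun b hb => mem_image.1 hb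
    choose! g hg1 hg2 using hex
    refine card_le_card_of_injOn (fun b => key (g b)) (fun b hb => h1 _ (hg1 b hb)) ?_
    intro b hb b' hb' hbb
    have := h2 _ (hg1 b hb) _ (hg1 b' hb') hbb
    rwa [hg2 b hb, hg2 b' hb'] at this

section main

variable {q d m : ℕ} [hq : Fact q.Prime]

/-- The coordinates. -/
def co (w : (Fin d → ZMod q) × (Fin m → ZMod q)) (i : Fin d ⊕ Fin m) : ZMod q :=
  Sum.elim w.1 w.2 i

omit hq in
theorem co_inj {a b : (Fin d → ZMod q) × (Fin m → ZMod q)} (h : ∀ i, co a i = co b i) : a = b :=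
  Prod.ext (funext fun i => h (Sum.inl i)) (funext fun i => h (Sum.inr i))

theorem co_sub (a b : (Fin d → ZMod q) × (Fin m → ZMod q)) (i : Fin d ⊕ Fin m) :
    co (a - b) i = co a i - co b i := by
  rcases i with i | i <;> rfl

theorem co_add_smul (a b : (Fin d → ZMod q) × (Fin m → ZMod q)) (s : ZMod q)
    (i : Fin d ⊕ Fin m) : co (a + s • b) i = co a i + s * co b i := by
  rcases i with i | i <;> rfl

/-- The lifts of the coordinates. -/
def li (w : (Fin d → ZMod q) × (Fin m → ZMod q)) (i : Fin d ⊕ Fin m) : ℤ := ((co w i).val : ℤ)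

omit hq in
theorem li_nonneg (w : (Fin d → ZMod q) × (Fin m → ZMod q)) (i : Fin d ⊕ Fin m) : 0 ≤ li w i :=
  Int.natCast_nonneg _

theorem li_lt (w : (Fin d → ZMod q) × (Fin m → ZMod q)) (i : Fin d ⊕ Fin m) : li w i < q := by
  have := ZMod.val_lt (co w i)
  unfold li
  exact_mod_cast this

theorem li_cast (w : (Fin d → ZMod q) × (Fin m → ZMod q)) (i : Fin d ⊕ Fin m) :
    ((li w i : ℤ) : ZMod q) = co w i := by
  unfold li
  rw [Int.cast_natCast, ZMod.natCast_zmod_val]

theorem half (S : Finset ℚ) (hS : ∀ r ∈ S, r.den < q)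
    (f : Option ℚ → (Fin d → ZMod q) → (Fin m → ZMod q)) :
    ∃ A : Finset (ℤ × ℤ), (graphDiff q d m S f).ncard ≤ (A.image (pr (some (-1)))).card ∧
      big S A ≤ (1 + ∑ r ∈ S, (r.den + 2 * r.num.natAbs + 1) ^ (d + m)) * q ^ d := by
  classical
  have hq0 : (0 : ℤ) < q := by exact_mod_cast hq.1.pos
  have hfin : Finite (graphDiff q d m S f) := Set.toFinite _
  let _ : Fintype (graphDiff q d m S f) := Fintype.ofFinite _
  have hex : ∀ v : graphDiff q d m S f, ∃ z : ((Fin d → ZMod q) × (Fin m → ZMod q)) ×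
      ((Fin d → ZMod q) × (Fin m → ZMod q)), (v : (Fin d → ZMod q) × (Fin m → ZMod q)) = z.1 - z.2 ∧
      z.2 ∈ graph (f none) ∧ ∀ r ∈ S, z.1 + (r : ZMod q) • z.2 ∈ graph (f (some r)) := by
    rintro ⟨v, x, y, h⟩
    exact ⟨(x, y), h⟩
  choose z hz1 hz2 hz3 using hex
  obtain ⟨c, hc⟩ := enc (Fin d ⊕ Fin m) (2 * q)
  obtain ⟨φ, hφ⟩ : ∃ φ : ((Fin d ⊕ Fin m) → ℤ) → ℤ, φ = fun X => ∑ i, X i * c i := ⟨_, rfl⟩
  have hφ' : ∀ X, φ X = ∑ i, X i * c i := fun X => by rw [hφ]
  have e1 : (univ.image fun v : graphDiff q d m S f => (φ (li (z v).1), φ (li (z v).2))).image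
      (pr (some (-1))) = univ.image fun v : graphDiff q d m S f =>
        ((φ (li (z v).1) - φ (li (z v).2) : ℤ) : ℚ) := by
    rw [image_image]
    refine image_congr fun v _ => ?_
    simp only [Function.comp_apply, pr]
    push_cast
    ring
  refine ⟨univ.image fun v : graphDiff q d m S f => (φ (li (z v).1), φ (li (z v).2)), ?_, ?_⟩
  · rw [e1, card_image_of_injective, card_univ, Set.ncard_eq_toFinset_card', Set.toFinset_card]
    intro v v' h
    have h1 : φ (li (z v).1) - φ (li (z v).2) = φ (li (z v').1) - φ (li (z v').2) := by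
      simp only at h
      exact_mod_cast h
    have h2 : ∑ i, ((li (z v).1 i - li (z v).2 i) - (li (z v').1 i - li (z v').2 i)) * c i = 0 := by
      simp only [hφ'] at h1
      simp only [sub_mul, sum_sub_distrib]
      linarith
    have h3 := hc _ (fun i => by
      have a1 := li_nonneg (z v).1 i
      have a2 := li_nonneg (z v).2 i
      have a3 := li_nonneg (z v').1 i
      have a4 := li_nonneg (z v').2 i
      have b1 := li_lt (z v).1 i
      have b2 := li_lt (z v).2 i
      have b3 := li_lt (z v').1 i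
      have b4 := li_lt (z v').2 i
      rw [abs_lt]
      constructor <;> linarith) h2
    apply Subtype.ext
    rw [hz1 v, hz1 v']
    refine co_inj fun i => ?_
    have h4 := h3 i
    have h5 : ((li (z v).1 i - li (z v).2 i : ℤ) : ZMod q) =
        ((li (z v').1 i - li (z v').2 i : ℤ) : ZMod q) := by
      congr 1
      linarith
    push_cast at h5
    rw [li_cast, li_cast, li_cast, li_cast] at h5
    rw [co_sub, co_sub]
    exact h5
  · unfold big
    refine max_le ?_ (Finset.sup_le fun r hr => ?_)
    · rw [image_image]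
      refine (card_key univ _ (fun v => (z v).2.1) (univ : Finset (Fin d → ZMod q))
        (fun _ _ => mem_univ _) fun v _ v' _ h => ?_).trans ?_
      · have h1 : (z v).2 = (z v').2 := by
          have a1 := hz2 v
          have a2 := hz2 v'
          unfold graph at a1 a2
          simp only [Set.mem_ofPred_eq] at a1 a2
          exact Prod.ext h (by rw [a1, a2, h])
        simp only [Function.comp_apply, pr, h1]
      · rw [card_univ, Fintype.card_fun, ZMod.card, Fintype.card_fin]
        exact Nat.le_mul_of_pos_left _ (by omega)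
    · rw [image_image]
      have hden : ((r.den : ℕ) : ZMod q) ≠ 0 := by
        rw [Ne, ZMod.natCast_eq_zero_iff]
        intro h
        have := Nat.le_of_dvd r.den_pos h
        have := hS r hr
        omega
      refine (card_key univ _
        (fun v => (((z v).1 + (r : ZMod q) • (z v).2).1,
          fun i => ((r.den : ℤ) * li (z v).1 i + r.num * li (z v).2 i) / (q : ℤ)))
        ((univ : Finset (Fin d → ZMod q)) ×ˢ Fintype.piFinset fun _ : Fin d ⊕ Fin m =>
          Finset.Icc (-(r.num.natAbs : ℤ)) ((r.den : ℤ) + r.num.natAbs))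
        (fun v _ => ?_) fun v _ v' _ h => ?_).trans ?_
      · rw [mem_product]
        refine ⟨mem_univ _, ?_⟩
        rw [Fintype.mem_piFinset]
        intro i
        have a1 := li_nonneg (z v).1 i
        have a2 := li_nonneg (z v).2 i
        have b1 := (li_lt (z v).1 i).le
        have b2 := (li_lt (z v).2 i).le
        have n1 : |r.num * li (z v).2 i| ≤ (r.num.natAbs : ℤ) * q := by
          rw [abs_mul, Int.natCast_natAbs, abs_of_nonneg a2]
          exact mul_le_mul_of_nonneg_left b2 (abs_nonneg _)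
        obtain ⟨n2, n3⟩ := abs_le.1 n1
        have n4 : 0 ≤ (r.den : ℤ) * li (z v).1 i := mul_nonneg (Int.natCast_nonneg _) a1
        have n5 : (r.den : ℤ) * li (z v).1 i ≤ r.den * q :=
          mul_le_mul_of_nonneg_left b1 (Int.natCast_nonneg _)
        rw [mem_Icc]
        constructor
        · apply Int.le_ediv_of_mul_le hq0
          linarith
        · apply Int.ediv_le_of_le_mul hq0
          linarith
      · have h1 := (Prod.ext_iff.1 h).1
        have h2 := (Prod.ext_iff.1 h).2
        simp only at h1 h2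
        have h3 : (z v).1 + (r : ZMod q) • (z v).2 = (z v').1 + (r : ZMod q) • (z v').2 := by
          have a1 := hz3 v r hr
          have a2 := hz3 v' r hr
          unfold graph at a1 a2
          simp only [Set.mem_ofPred_eq] at a1 a2
          exact Prod.ext h1 (by rw [a1, a2, h1])
        have h4 : ∀ i, (r.den : ℤ) * li (z v).1 i + r.num * li (z v).2 i =
            (r.den : ℤ) * li (z v').1 i + r.num * li (z v').2 i := by
          intro i
          have c1 : ∀ u : graphDiff q d m S f,
              (((r.den : ℤ) * li (z u).1 i + r.num * li (z u).2 i : ℤ) : ZMod q) =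
                (r.den : ZMod q) * co ((z u).1 + (r : ZMod q) • (z u).2) i := by
            intro u
            push_cast
            rw [li_cast, li_cast, co_add_smul, Rat.cast_def]
            field_simp
          have c2 : (((r.den : ℤ) * li (z v).1 i + r.num * li (z v).2 i : ℤ) : ZMod q) =
              (((r.den : ℤ) * li (z v').1 i + r.num * li (z v').2 i : ℤ) : ZMod q) := by
            rw [c1, c1, h3]
          rw [ZMod.intCast_eq_intCast_iff] at c2
          have c3 := congrFun h2 i
          have c4 : ((r.den : ℤ) * li (z v).1 i + r.num * li (z v).2 i) % (q : ℤ) =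
              ((r.den : ℤ) * li (z v').1 i + r.num * li (z v').2 i) % (q : ℤ) := c2
          rw [← Int.emod_add_mul_ediv ((r.den : ℤ) * li (z v).1 i + r.num * li (z v).2 i) q,
            ← Int.emod_add_mul_ediv ((r.den : ℤ) * li (z v').1 i + r.num * li (z v').2 i) q, c3, c4]
        have h5 : (r.den : ℤ) * φ (li (z v).1) + r.num * φ (li (z v).2) =
            (r.den : ℤ) * φ (li (z v').1) + r.num * φ (li (z v').2) := by
          have c5 : ∀ u : graphDiff q d m S f,
              (r.den : ℤ) * φ (li (z u).1) + r.num * φ (li (z u).2) =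
                ∑ i, ((r.den : ℤ) * li (z u).1 i + r.num * li (z u).2 i) * c i := by
            intro u
            simp only [hφ', mul_sum, ← sum_add_distrib]
            exact sum_congr rfl fun i _ => by ring
          rw [c5, c5]
          exact sum_congr rfl fun i _ => by rw [h4 i]
        simp only [Function.comp_apply, pr]
        have hd : (r.den : ℚ) ≠ 0 := by exact_mod_cast r.den_pos.ne'
        have h6 : (r.den : ℚ) * φ (li (z v).1) + r.num * φ (li (z v).2) =
            (r.den : ℚ) * φ (li (z v').1) + r.num * φ (li (z v').2) := by exact_mod_cast h5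
        have h7 : r * r.den = r.num := Rat.mul_den_eq_num r
        apply mul_left_cancel₀ hd
        linear_combination h6 + (φ (li (z v).2) - φ (li (z v').2) : ℚ) * h7
      · rw [card_product, card_univ, Fintype.card_fun, ZMod.card, Fintype.card_fin,
          Fintype.card_piFinset, prod_const, card_univ, Int.card_Icc, Fintype.card_sum,
          Fintype.card_fin, Fintype.card_fin, mul_comm]
        refine Nat.mul_le_mul_right _ ?_
        have h1 : ((r.den : ℤ) + r.num.natAbs + 1 - -(r.num.natAbs : ℤ)).toNat =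
            r.den + 2 * r.num.natAbs + 1 := by omega
        rw [h1]
        have h2 := single_le_sum (f := fun r : ℚ => (r.den + 2 * r.num.natAbs + 1) ^ (d + m))
          (fun _ _ => Nat.zero_le _) hr
        omega

end main

theorem upper (S : Finset ℚ) (κ : ℝ) (hκ : 0 ≤ κ) (h : Bound S κ) (d m : ℕ) :
    ∃ C : ℝ, ∀ (q : ℕ) [Fact q.Prime], (∀ r ∈ S, r.den < q) →
      ∀ f : Option ℚ → (Fin d → ZMod q) → (Fin m → ZMod q),
        ((graphDiff q d m S f).ncard : ℝ) ≤ C * (q : ℝ) ^ (κ * d) := by
  refine ⟨((1 + ∑ r ∈ S, (r.den + 2 * r.num.natAbs + 1) ^ (d + m) : ℕ) : ℝ) ^ κ,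
    fun q hq hS f => ?_⟩
  obtain ⟨A, h1, h2⟩ := half S hS f
  calc ((graphDiff q d m S f).ncard : ℝ) ≤ ((A.image (pr (some (-1)))).card : ℝ) := by
        exact_mod_cast h1
    _ ≤ (big S A : ℝ) ^ κ := h A
    _ ≤ (((1 + ∑ r ∈ S, (r.den + 2 * r.num.natAbs + 1) ^ (d + m)) * q ^ d : ℕ) : ℝ) ^ κ :=
        Real.rpow_le_rpow (Nat.cast_nonneg _) (by exact_mod_cast h2) hκ
    _ = _ := by
        rw [Nat.cast_mul, Real.mul_rpow (Nat.cast_nonneg _) (Nat.cast_nonneg _), Nat.cast_pow,
          ← Real.rpow_natCast (q : ℝ) d, ← Real.rpow_mul (Nat.cast_nonneg _), mul_comm (d : ℝ) κ]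

end Pool.Agent.Zk9.AKP5
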