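import Mathlib
import Pool.Agent.Zk23.AKDefs3
import Pool.Agent.Zk9.AKP6

/-!
# One round of patching for progressions in the graph of one function
-/

set_option autoImplicit false

namespace Pool.Agent.Zk9.AKM2

open Finset Pool.Agent.Zk23.AKAP

open Pool.Agent.Zk9.AKP6 (G card_fst card_G)

open scoped Classical

theorem card_pairs {q d m : ℕ} [Fact q.Prime] {Ω : Type} [Fintype Ω]
    (e : Ω → G q d m → G q d m) (he : ∀ u, Function.Injective (e u))
    (T : Finset (Fin d → ZMod q)) {H' : ℕ} (hT : T.card ≤ H') :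
    (univ.filter (fun p : Ω × G q d m => (e p.1 p.2).1 ∈ T)).card ≤
      Fintype.card Ω * (H' * q ^ m) := by
  have h1 : (univ.filter (fun p : Ω × G q d m => (e p.1 p.2).1 ∈ T)).card =
      ∑ u : Ω, (univ.filter (fun b : G q d m => (e u b).1 ∈ T)).card := by
    rw [card_filter, Fintype.sum_prod_type]
    refine sum_congr rfl fun u _ => ?_
    rw [card_filter]
  rw [h1, ← card_univ, ← smul_eq_mul, ← sum_const]
  refine sum_le_sum fun u _ => ?_
  calc (univ.filter (fun b : G q d m => (e u b).1 ∈ T)).card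
      ≤ (univ.filter (fun g : G q d m => g.1 ∈ T)).card := by
        refine card_le_card_of_injOn (e u) (fun b hb => ?_) ((he u).injOn)
        simpa using hb
    _ = T.card * q ^ m := card_fst T
    _ ≤ H' * q ^ m := Nat.mul_le_mul_right _ hT

/-- M2 -/
theorem step1 (q d m k : ℕ) [Fact q.Prime] {Ω : Type} [Finite Ω] [Nonempty Ω]
    (Γ : Ω → Finset ((Fin d → ZMod q) × (Fin m → ZMod q)))
    (Γ' : Finset ((Fin d → ZMod q) × (Fin m → ZMod q)))
    (hΓ : ∀ ω, Set.InjOn Prod.fst (Γ ω : Set ((Fin d → ZMod q) × (Fin m → ZMod q))))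
    (hΓ' : Set.InjOn Prod.fst (Γ' : Set ((Fin d → ZMod q) × (Fin m → ZMod q))))
    (η : ℝ) (hη : ∀ v : (Fin d → ZMod q) × (Fin m → ZMod q), v.1 ≠ 0 →
      (Nat.card {ω : Ω // v ∉ apSet q d m k
        (Γ ω : Set ((Fin d → ZMod q) × (Fin m → ZMod q)))} : ℝ) ≤ η * Nat.card Ω)
    (H : ℕ) (hH : ∀ ω, (Γ ω).card ≤ H) :
    ∃ Γ'' : Finset ((Fin d → ZMod q) × (Fin m → ZMod q)),
      Set.InjOn Prod.fst (Γ'' : Set ((Fin d → ZMod q) × (Fin m → ZMod q))) ∧
      Γ''.card ≤ Γ'.card + H ∧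
      (Set.ncard {v : (Fin d → ZMod q) × (Fin m → ZMod q) | v.1 ≠ 0 ∧ v ∉ apSet q d m k
        (Γ'' : Set ((Fin d → ZMod q) × (Fin m → ZMod q)))} : ℝ) ≤
        (η + k * Γ'.card / (q : ℝ) ^ d) *
        (Set.ncard {v : (Fin d → ZMod q) × (Fin m → ZMod q) | v.1 ≠ 0 ∧ v ∉ apSet q d m k
          (Γ' : Set ((Fin d → ZMod q) × (Fin m → ZMod q)))} : ℝ) := by
  have hq : 0 < (q : ℝ) := by exact_mod_cast (Fact.out : q.Prime).pos
  let _ : Fintype Ω := Fintype.ofFinite Ω
  -- witnesses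
  have hw : ∀ (ω : Ω) (v : G q d m), ∃ y : G q d m,
      v ∈ apSet q d m k (Γ ω : Set (G q d m)) → ∀ j < k, y + (j : ZMod q) • v ∈ Γ ω := by
    intro ω v
    by_cases h : v ∈ apSet q d m k (Γ ω : Set (G q d m))
    · obtain ⟨y, hy⟩ := h
      exact ⟨y, fun _ j hj => hy j hj⟩
    · exact ⟨0, fun h' => absurd h' h⟩
  choose W hW using hw
  obtain ⟨T, hT⟩ : ∃ T : Finset (Fin d → ZMod q), T = Γ'.image Prod.fst := ⟨_, rfl⟩
  have hTc : T.card ≤ Γ'.card := by rw [hT]; exact card_image_le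
  obtain ⟨gd, hgd⟩ : ∃ gd : G q d m → (Ω × G q d m) → Prop, gd = fun v p =>
      v ∈ apSet q d m k (Γ p.1 : Set (G q d m)) ∧
      ∀ j ∈ range k, (W p.1 v + (j : ZMod q) • v + p.2).1 ∉ T := ⟨_, rfl⟩
  obtain ⟨E, hE⟩ : ∃ E : Finset (G q d m), (E : Set (G q d m)) =
      {v | v.1 ≠ 0 ∧ v ∉ apSet q d m k (Γ' : Set (G q d m))} :=
    ⟨{v | v.1 ≠ 0 ∧ v ∉ apSet q d m k (Γ' : Set (G q d m))}.toFinset, by simp⟩
  have hbad : ∀ v ∈ E, ((univ.filter (fun p => ¬ gd v p)).card : ℝ) ≤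
      (Fintype.card Ω : ℝ) * ((q : ℝ) ^ (d + m) * (η + k * Γ'.card / (q : ℝ) ^ d)) := by
    intro v hv
    have hv0 : v.1 ≠ 0 := by
      have h1 : v ∈ (E : Set (G q d m)) := hv
      rw [hE] at h1
      exact h1.1
    have hsub : univ.filter (fun p => ¬ gd v p) ⊆
        (univ.filter (fun p : Ω × G q d m => v ∉ apSet q d m k (Γ p.1 : Set (G q d m)))) ∪
        (range k).biUnion (fun j => univ.filter (fun p : Ω × G q d m =>
          (W p.1 v + (j : ZMod q) • v + p.2).1 ∈ T)) := by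
      intro p hp
      simp only [mem_filter, mem_univ, true_and, mem_union, mem_biUnion] at hp ⊢
      by_contra hcon
      push Not at hcon
      apply hp
      rw [hgd]
      exact ⟨hcon.1, hcon.2⟩
    have c1 : (univ.filter (fun p : Ω × G q d m =>
        v ∉ apSet q d m k (Γ p.1 : Set (G q d m)))).card =
        Nat.card {ω : Ω // v ∉ apSet q d m k (Γ ω : Set (G q d m))} * q ^ (d + m) := by
      have h1 : (univ.filter (fun p : Ω × G q d m =>
          v ∉ apSet q d m k (Γ p.1 : Set (G q d m)))) =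
          (univ.filter (fun ω : Ω => v ∉ apSet q d m k (Γ ω : Set (G q d m)))) ×ˢ univ := by
        ext p
        simp
      rw [h1, card_product, card_univ, card_G, Nat.card_eq_fintype_card, Fintype.card_subtype]
    have c3 : ∀ j ∈ range k, (univ.filter (fun p : Ω × G q d m =>
          (W p.1 v + (j : ZMod q) • v + p.2).1 ∈ T)).card ≤
            Fintype.card Ω * (Γ'.card * q ^ m) := fun j _ =>
      card_pairs (fun ω b => W ω v + (j : ZMod q) • v + b)
        (fun u a b hab => by simpa using hab) _ hTc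
    have c4 : (univ.filter (fun p => ¬ gd v p)).card ≤
        Nat.card {ω : Ω // v ∉ apSet q d m k (Γ ω : Set (G q d m))} * q ^ (d + m) +
          k * (Fintype.card Ω * (Γ'.card * q ^ m)) := by
      refine (card_le_card hsub).trans ((card_union_le _ _).trans ?_)
      refine Nat.add_le_add c1.le ?_
      refine card_biUnion_le.trans ?_
      calc _ ≤ ∑ _j ∈ range k, Fintype.card Ω * (Γ'.card * q ^ m) := sum_le_sum c3
        _ = _ := by rw [sum_const, smul_eq_mul, card_range]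
    have c5 : ((univ.filter (fun p => ¬ gd v p)).card : ℝ) ≤
        (Nat.card {ω : Ω // v ∉ apSet q d m k (Γ ω : Set (G q d m))} : ℝ) * (q : ℝ) ^ (d + m) +
          k * (Fintype.card Ω * (Γ'.card * (q : ℝ) ^ m)) := by
      exact_mod_cast c4
    refine c5.trans ?_
    have h6 := mul_le_mul_of_nonneg_right (hη v hv0) (by positivity : 0 ≤ (q : ℝ) ^ (d + m))
    rw [Nat.card_eq_fintype_card (α := Ω)] at h6
    have h7 : (Fintype.card Ω : ℝ) * ((q : ℝ) ^ (d + m) * (η + k * Γ'.card / (q : ℝ) ^ d)) =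
        η * (Fintype.card Ω : ℝ) * (q : ℝ) ^ (d + m) +
          k * (Fintype.card Ω * (Γ'.card * (q : ℝ) ^ m)) := by
      have hqd : (q : ℝ) ^ d ≠ 0 := by positivity
      rw [pow_add]
      field_simp
    rw [h7]
    linarith
  have hsum : ∑ p : Ω × G q d m, ((E.filter (fun v => ¬ gd v p)).card : ℝ) ≤
      ∑ _p : Ω × G q d m, (η + k * Γ'.card / (q : ℝ) ^ d) * (E.card : ℝ) := by
    have h1 : ∑ p : Ω × G q d m, ((E.filter (fun v => ¬ gd v p)).card : ℝ) =
        ∑ v ∈ E, ((univ.filter (fun p => ¬ gd v p)).card : ℝ) := by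
      simp only [card_filter, Nat.cast_sum]
      rw [sum_comm]
    rw [h1]
    refine (sum_le_sum fun v hv => hbad v hv).trans (le_of_eq ?_)
    rw [sum_const, sum_const, card_univ, Fintype.card_prod, card_G, nsmul_eq_mul, nsmul_eq_mul]
    push_cast
    ring
  obtain ⟨p, _, hp⟩ := exists_le_of_sum_le univ_nonempty hsum
  obtain ⟨ω, b⟩ := p
  refine ⟨Γ' ∪ (((Γ ω).image (fun w => w + b)).filter (fun w => w.1 ∉ T)), ?_, ?_, ?_⟩
  · intro x hx y hy hxy
    simp only [coe_union, coe_filter, Set.mem_union, mem_coe, Set.mem_ofPred_eq] at hx hy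
    rcases hx with hx | ⟨hx, hx'⟩
    · rcases hy with hy | ⟨hy, hy'⟩
      · exact hΓ' hx hy hxy
      · exact absurd (by rw [hT]; exact mem_image.2 ⟨x, hx, hxy⟩) hy'
    · rcases hy with hy | ⟨hy, hy'⟩
      · exact absurd (by rw [hT]; exact mem_image.2 ⟨y, hy, hxy.symm⟩) hx'
      · obtain ⟨x1, h1, rfl⟩ := mem_image.1 hx
        obtain ⟨y1, h2, rfl⟩ := mem_image.1 hy
        have h3 := hΓ ω h1 h2 (by simpa using hxy)
        rw [h3]
  · refine (card_union_le _ _).trans (Nat.add_le_add_left ?_ _)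
    exact (card_filter_le _ _).trans (card_image_le.trans (hH ω))
  · rw [← hE, Set.ncard_coe_finset]
    refine le_trans ?_ hp
    rw [Nat.cast_le, ← Set.ncard_coe_finset]
    refine Set.ncard_le_ncard ?_ (Set.toFinite _)
    rintro v ⟨hv0, hv⟩
    have hvE : v ∈ E := by
      have h1 : v ∈ (E : Set (G q d m)) := by
        rw [hE]
        refine ⟨hv0, fun h => hv ?_⟩
        obtain ⟨y, hy⟩ := h
        exact ⟨y, fun j hj => mem_coe.2 (mem_union_left _ (hy j hj))⟩
      exact h1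
    rw [mem_coe, mem_filter]
    refine ⟨hvE, fun h => hv ?_⟩
    rw [hgd] at h
    obtain ⟨h1, h2⟩ := h
    refine ⟨W ω v + b, fun j hj => ?_⟩
    have h3 := hW ω v h1 j hj
    have h4 : W ω v + b + (j : ZMod q) • v = W ω v + (j : ZMod q) • v + b := by abel
    rw [h4, mem_coe]
    exact mem_union_right _ (mem_filter.2 ⟨mem_image.2 ⟨_, h3, rfl⟩, h2 j (mem_range.2 hj)⟩)

end Pool.Agent.Zk9.AKM2
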