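import Pool.Agent.Zk9.Color

set_option autoImplicit false

/-!
Lifting a set of residues to the integers and colouring the lifts.
-/

namespace Pool.Agent.Zk9.KK

open Finset

/-- The reduction modulo `p`. -/
def red (p K d M : ℕ) (x : (Fin d → Fin K) × (Fin M → Fin K)) :
    (Fin d → ZMod p) × (Fin M → ZMod p) :=
  (fun i => (((x.1 i : ℕ)) : ZMod p), fun i => (((x.2 i : ℕ)) : ZMod p))

theorem card_res {p k : ℕ} (hp : p.Prime) (hk : 1 ≤ k) (r : ZMod p) :
    ((univ : Finset (Fin (k * (p - 1) + 1))).filter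
      fun y : Fin (k * (p - 1) + 1) => (((y : ℕ)) : ZMod p) = r).card ≤ k := by
  have hp1 := hp.two_le
  have h1 : ((univ : Finset (Fin (k * (p - 1) + 1))).filter
      fun y : Fin (k * (p - 1) + 1) => (((y : ℕ)) : ZMod p) = r).card ≤ (range k).card := by
    refine card_le_card_of_injOn (fun y => (y : ℕ) / p) ?_ ?_
    · intro y _
      rw [mem_coe, mem_range]
      have h2 : (y : ℕ) < k * (p - 1) + 1 := y.2
      rw [Nat.div_lt_iff_lt_mul (by omega)]
      have h3 : k * (p - 1) + k = k * p := by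
        obtain ⟨q, rfl⟩ : ∃ q, p = q + 1 := ⟨p - 1, by omega⟩
        simp
        ring
      omega
    · intro y hy y' hy' he
      rw [mem_coe, mem_filter] at hy hy'
      have h2 : (((y : ℕ)) : ZMod p) = (((y' : ℕ)) : ZMod p) := hy.2.trans hy'.2.symm
      rw [ZMod.natCast_eq_natCast_iff] at h2
      have h3 : (y : ℕ) % p = (y' : ℕ) % p := h2
      have he' : (y : ℕ) / p = (y' : ℕ) / p := he
      apply Fin.ext
      rw [← Nat.div_add_mod (y : ℕ) p, ← Nat.div_add_mod (y' : ℕ) p, h3, he']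
  rwa [card_range] at h1

open Classical in
theorem card_lifts {p k d M : ℕ} (hp : p.Prime) (hk : 1 ≤ k)
    (r : (Fin d → ZMod p) × (Fin M → ZMod p)) :
    ((univ : Finset ((Fin d → Fin (k * (p - 1) + 1)) × (Fin M → Fin (k * (p - 1) + 1)))).filter
      fun x => red p (k * (p - 1) + 1) d M x = r).card ≤ k ^ (d + M) := by
  set T : ZMod p → Finset (Fin (k * (p - 1) + 1)) := fun s =>
    (univ : Finset (Fin (k * (p - 1) + 1))).filter
      fun y : Fin (k * (p - 1) + 1) => (((y : ℕ)) : ZMod p) = s with hT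
  have h1 : ((univ : Finset ((Fin d → Fin (k * (p - 1) + 1)) ×
      (Fin M → Fin (k * (p - 1) + 1)))).filter
      fun x => red p (k * (p - 1) + 1) d M x = r) ⊆
      (Fintype.piFinset fun i => T (r.1 i)) ×ˢ (Fintype.piFinset fun i => T (r.2 i)) := by
    intro x hx
    rw [mem_filter] at hx
    rw [mem_product, Fintype.mem_piFinset, Fintype.mem_piFinset]
    refine ⟨fun i => ?_, fun i => ?_⟩
    · simp only [hT, mem_filter, mem_univ, true_and]
      exact congrFun (congrArg Prod.fst hx.2) i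
    · simp only [hT, mem_filter, mem_univ, true_and]
      exact congrFun (congrArg Prod.snd hx.2) i
  refine (card_le_card h1).trans ?_
  rw [card_product, Fintype.card_piFinset, Fintype.card_piFinset, pow_add]
  refine Nat.mul_le_mul ?_ ?_
  · calc ∏ i, (T (r.1 i)).card ≤ ∏ _i : Fin d, k := prod_le_prod' fun i _ => card_res hp hk _
      _ = k ^ d := by rw [prod_const, card_univ, Fintype.card_fin]
  · calc ∏ i, (T (r.2 i)).card ≤ ∏ _i : Fin M, k := prod_le_prod' fun i _ => card_res hp hk _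
      _ = k ^ M := by rw [prod_const, card_univ, Fintype.card_fin]

theorem code_sep {p k q : ℕ} (hq : (k + 2) * q ≤ p) {x y : ℕ} (hx : x < q) (hy : y < q)
    (hxy : x ≠ y) (z : ℤ) :
    (k : ℤ) + 2 ≤ |(((k + 2) * x : ℕ) : ℤ) - (((k + 2) * y : ℕ) : ℤ) + p * z| := by
  push_cast
  have hq' : ((k : ℤ) + 2) * q ≤ p := by exact_mod_cast hq
  have hx' : (x : ℤ) + 1 ≤ q := by exact_mod_cast hx
  have hy' : (y : ℤ) + 1 ≤ q := by exact_mod_cast hy
  have hx0 : (0 : ℤ) ≤ x := by positivity
  have hy0 : (0 : ℤ) ≤ y := by positivity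
  have hk2 : (0 : ℤ) ≤ (k : ℤ) + 2 := by positivity
  have hD1 : ((k : ℤ) + 2) * x - ((k : ℤ) + 2) * y ≤ p - (k + 2) := by nlinarith
  have hD2 : -(p - ((k : ℤ) + 2)) ≤ ((k : ℤ) + 2) * x - ((k : ℤ) + 2) * y := by nlinarith
  have hp0 : (0 : ℤ) ≤ p := by positivity
  rcases lt_trichotomy z 0 with hz | hz | hz
  · rw [le_abs]
    right
    have : (p : ℤ) * z ≤ p * (-1) := mul_le_mul_of_nonneg_left (by omega) hp0
    linarith
  · subst hz
    rw [mul_zero, add_zero, le_abs]
    rcases lt_or_gt_of_ne hxy with h | h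
    · right
      have h' : (x : ℤ) + 1 ≤ y := by exact_mod_cast h
      nlinarith
    · left
      have h' : (y : ℤ) + 1 ≤ x := by exact_mod_cast h
      nlinarith
  · rw [le_abs]
    left
    have : (p : ℤ) * 1 ≤ p * z := mul_le_mul_of_nonneg_left (by omega) hp0
    linarith

/-- lifting to the integers and colouring -/
theorem exists_lift (p k d M h : ℕ) (hp : p.Prime) (hk : 1 ≤ k) (hh : 1 ≤ h)
    (A : Finset ((Fin d → ZMod p) × (Fin M → ZMod p)))
    (hA : ∀ ρ : (Fin d → ZMod p) × (Fin M → ZMod p), ∃ a : (Fin d → ZMod p) × (Fin M → ZMod p),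
      ∀ t : ℕ, t < k → a + t • ρ ∈ A)
    (hfib : ∀ c : Fin d → ZMod p, (A.filter (fun x => x.1 = c)).card ≤ p ^ (h - 1))
    (hlarge : (2 * k + 3) ^ d * p ^ (h - 1) * k ^ (d + M) + 1 ≤ (p / (k + 2)) ^ h) :
    ∃ (ι : Type) (_ : Finite ι) (u : ι → Fin d → ℕ) (v : ι → Fin M → ℕ) (c : ι → Fin h → ℕ),
      (∀ a i, u a i ≤ k * (p - 1)) ∧ (∀ a i, v a i ≤ k * (p - 1)) ∧ (∀ a i, c a i ≤ k * (p - 1)) ∧
      (∀ a a', a ≠ a' →
        (∃ i, ∀ z : ℤ, (k : ℤ) + 2 ≤ |(u a i : ℤ) - u a' i + p * z|) ∨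
        (∃ i, ∀ z : ℤ, (k : ℤ) + 2 ≤ |(c a i : ℤ) - c a' i + p * z|)) ∧
      (∀ (ρ : Fin d → ℕ) (σ : Fin M → ℕ), (∀ i, ρ i < p) → (∀ i, σ i < p) →
        ∃ (a₀ : Fin d → ℕ) (b₀ : Fin M → ℕ), ∀ t : ℕ, t < k → ∃ a : ι,
          (∀ i, u a i = a₀ i + t * ρ i) ∧ (∀ i, v a i = b₀ i + t * σ i)) := by
  classical
  have _ := hh
  have : NeZero p := ⟨hp.ne_zero⟩
  have hp2 := hp.two_le
  set K := k * (p - 1) + 1 with hK
  set ι := {x : (Fin d → Fin K) × (Fin M → Fin K) // red p K d M x ∈ A} with hι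
  set u : ι → Fin d → ℕ := fun a i => (a.1.1 i : ℕ) with hu
  set v : ι → Fin M → ℕ := fun a i => (a.1.2 i : ℕ) with hv
  set R : ι → ι → Prop := fun a a' => ∀ i, ∃ z : ℤ, |(u a i : ℤ) - u a' i + p * z| < k + 2 with hR
  have hsymm : ∀ a b, R a b → R b a := by
    intro a b hab i
    obtain ⟨z, hz⟩ := hab i
    refine ⟨-z, ?_⟩
    rw [← abs_neg]
    convert hz using 2
    ring
  set Δ := (2 * k + 3) ^ d * p ^ (h - 1) * k ^ (d + M) with hΔ
  have hdeg : ∀ a : ι, {b | b ≠ a ∧ R a b}.ncard ≤ Δ := by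
    intro a
    set S : Finset ι := univ.filter fun b => R a b with hS
    have h1 : {b | b ≠ a ∧ R a b}.ncard ≤ S.card := by
      rw [← Set.ncard_coe_finset]
      refine Set.ncard_le_ncard (fun b hb => ?_) (Finset.finite_toSet S)
      rw [mem_coe, hS, mem_filter]
      exact ⟨mem_univ _, hb.2⟩
    refine h1.trans ?_
    -- the residues near `a`
    set g : (Fin d → Fin (2 * k + 3)) → (Fin d → ZMod p) := fun s i =>
      ((u a i : ℕ) : ZMod p) + ((s i : ℕ) : ZMod p) - ((k : ZMod p) + 1) with hg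
    set C : Finset (Fin d → ZMod p) := univ.image g with hC
    have hCc : C.card ≤ (2 * k + 3) ^ d := by
      refine card_image_le.trans ?_
      rw [card_univ, Fintype.card_fun, Fintype.card_fin, Fintype.card_fin]
    set A' := A.filter fun x => x.1 ∈ C with hA'
    have hA'c : A'.card ≤ p ^ (h - 1) * C.card := by
      refine (card_le_mul_card_image (f := Prod.fst) A' (p ^ (h - 1)) fun c _ => ?_).trans ?_
      · refine (card_le_card ?_).trans (hfib c)
        intro x hx
        rw [mem_filter] at hx ⊢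
        exact ⟨(mem_filter.1 hx.1).1, hx.2⟩
      · refine Nat.mul_le_mul_left _ (card_le_card ?_)
        intro c hc
        obtain ⟨x, hx, rfl⟩ := mem_image.1 hc
        exact (mem_filter.1 hx).2
    have himg : S.image (fun b : ι => red p K d M b.1) ⊆ A' := by
      intro r hr
      obtain ⟨b, hb, rfl⟩ := mem_image.1 hr
      rw [hA', mem_filter]
      refine ⟨b.2, ?_⟩
      have hRb : R a b := (mem_filter.1 hb).2
      choose z hz using hRb
      rw [hC, mem_image]
      have hlt : ∀ i, (((k : ℤ) + 1) - ((u a i : ℤ) - u b i + p * z i)).toNat < 2 * k + 3 := by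
        intro i
        have := abs_lt.1 (hz i)
        omega
      have hnn : ∀ i, 0 ≤ ((k : ℤ) + 1) - ((u a i : ℤ) - u b i + p * z i) := by
        intro i
        have := abs_lt.1 (hz i)
        omega
      refine ⟨fun i => ⟨_, hlt i⟩, mem_univ _, ?_⟩
      funext i
      simp only [hg]
      have e1 : (((((k : ℤ) + 1) - ((u a i : ℤ) - u b i + p * z i)).toNat : ℕ) : ZMod p) =
          ((k : ZMod p) + 1) - (((u a i : ℕ) : ZMod p) - ((u b i : ℕ) : ZMod p)) := by
        have e2 : ((((k : ℤ) + 1) - ((u a i : ℤ) - u b i + p * z i)).toNat : ℤ) =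
            ((k : ℤ) + 1) - ((u a i : ℤ) - u b i + p * z i) := Int.toNat_of_nonneg (hnn i)
        have e3 := congrArg (fun w : ℤ => (w : ZMod p)) e2
        simp only [Int.cast_natCast] at e3
        rw [e3]
        push_cast
        rw [ZMod.natCast_self]
        ring
      rw [e1]
      show _ = ((u b i : ℕ) : ZMod p)
      ring
    have hfiber : ∀ r ∈ S.image (fun b : ι => red p K d M b.1),
        (S.filter fun b => red p K d M b.1 = r).card ≤ k ^ (d + M) := by
      intro r _
      refine le_trans ?_ (card_lifts (d := d) (M := M) hp hk r)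
      refine card_le_card_of_injOn (fun b : ι => b.1) ?_ ?_
      · intro b hb
        rw [mem_coe, mem_filter] at hb ⊢
        exact ⟨mem_univ _, hb.2⟩
      · intro b _ b' _ he
        exact Subtype.ext he
    have h2 := card_le_mul_card_image (f := fun b : ι => red p K d M b.1) S (k ^ (d + M)) hfiber
    calc S.card ≤ k ^ (d + M) * (S.image (fun b : ι => red p K d M b.1)).card := h2
      _ ≤ k ^ (d + M) * (p ^ (h - 1) * (2 * k + 3) ^ d) :=
          Nat.mul_le_mul_left _ ((card_le_card himg).trans (hA'c.trans (Nat.mul_le_mul_left _ hCc)))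
      _ = Δ := by rw [hΔ]; ring
  obtain ⟨col, hcol⟩ := exists_coloring R hsymm Δ hdeg
  set q := p / (k + 2) with hq
  have hqp : (k + 2) * q ≤ p := Nat.mul_div_le p (k + 2)
  obtain ⟨emb⟩ : Nonempty (Fin (Δ + 1) ↪ (Fin h → Fin q)) := by
    apply Function.Embedding.nonempty_of_card_le
    rw [Fintype.card_fin, Fintype.card_fun, Fintype.card_fin, Fintype.card_fin]
    exact hlarge
  refine ⟨ι, inferInstance, u, v, fun a i => (k + 2) * (emb (col a) i : ℕ), ?_, ?_, ?_, ?_, ?_⟩
  · intro a i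
    exact Nat.lt_succ_iff.1 (a.1.1 i).2
  · intro a i
    exact Nat.lt_succ_iff.1 (a.1.2 i).2
  · intro a i
    have h1 : (emb (col a) i : ℕ) + 1 ≤ q := (emb (col a) i).2
    have h2 : (k + 2) * ((emb (col a) i : ℕ) + 1) ≤ p := (Nat.mul_le_mul_left _ h1).trans hqp
    have h3 : 1 * (p - 1) ≤ k * (p - 1) := Nat.mul_le_mul_right _ hk
    have h4 : (k + 2) * ((emb (col a) i : ℕ) + 1) = (k + 2) * (emb (col a) i : ℕ) + (k + 2) := by
      ring
    show (k + 2) * (emb (col a) i : ℕ) ≤ k * (p - 1)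
    omega
  · intro a a' haa
    by_cases hRa : R a a'
    · right
      have h1 : emb (col a) ≠ emb (col a') := fun he => hcol a a' haa hRa (emb.injective he)
      obtain ⟨i, hi⟩ := Function.ne_iff.1 h1
      refine ⟨i, fun z => ?_⟩
      exact code_sep hqp (emb (col a) i).2 (emb (col a') i).2 (fun he => hi (Fin.ext he)) z
    · left
      simp only [hR] at hRa
      push Not at hRa
      exact hRa
  · intro ρ σ hρ hσ
    obtain ⟨a, ha⟩ := hA (fun i => ((ρ i : ℕ) : ZMod p), fun i => ((σ i : ℕ) : ZMod p))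
    have hbd : ∀ (y : ZMod p) (t r : ℕ), t < k → r < p → y.val + t * r < K := by
      intro y t r ht hr
      have h1 : y.val < p := ZMod.val_lt y
      have h2 : t * r ≤ (k - 1) * (p - 1) := Nat.mul_le_mul (by omega) (by omega)
      have h3 : (k - 1) * (p - 1) + (p - 1) = k * (p - 1) := by
        obtain ⟨k', rfl⟩ : ∃ k', k = k' + 1 := ⟨k - 1, by omega⟩
        simp
        ring
      omega
    refine ⟨fun i => (a.1 i).val, fun i => (a.2 i).val, fun t ht => ?_⟩
    have hmem : red p K d M (fun i => ⟨(a.1 i).val + t * ρ i, hbd _ t _ ht (hρ i)⟩,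
        fun i => ⟨(a.2 i).val + t * σ i, hbd _ t _ ht (hσ i)⟩) ∈ A := by
      convert ha t ht using 1
      unfold red
      ext i
      · simp
      · simp
    exact ⟨⟨_, hmem⟩, fun i => rfl, fun i => rfl⟩

end Pool.Agent.Zk9.KK
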