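import Pool.Agent.Zk23.KKIff

/-!
# The upper Minkowski dimension of a set of digit expansions
-/

set_option autoImplicit false

open Set Filter Topology

namespace Pool.Agent.Zk9.DigitDim

open Pool.Agent.Results.MP_4b405e_nt.AlgebraicSets (coverNum upperMinkowski)

theorem coverNum_le' {n : ℕ} {B : Set (EuclideanSpace ℝ (Fin n))} {δ : ℝ} {ι : Type} [Fintype ι]
    (U : ι → Set (EuclideanSpace ℝ (Fin n))) (h1 : ∀ i, ∀ x ∈ U i, ∀ y ∈ U i, dist x y ≤ δ)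
    (h2 : B ⊆ ⋃ i, U i) : coverNum B δ ≤ Fintype.card ι := by
  refine Nat.sInf_le ⟨fun i => U ((Fintype.equivFin ι).symm i), fun i => h1 _, ?_⟩
  intro b hb
  obtain ⟨i, hi⟩ := mem_iUnion.1 (h2 hb)
  refine mem_iUnion.2 ⟨Fintype.equivFin ι i, ?_⟩
  simpa using hi

theorem upperMinkowski_le' {n : ℕ} {B : Set (EuclideanSpace ℝ (Fin n))} {C t : ℝ} (hC : 0 < C)
    (ht : 0 ≤ t) (h : ∀ δ : ℝ, 0 < δ → δ < 1 → (coverNum B δ : ℝ) ≤ C * δ ^ (-t)) :
    upperMinkowski B ≤ (t : EReal) := by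
  have h1 : Tendsto (fun δ : ℝ => (max (Real.log C) 0 / Real.log (1 / δ) + t : ℝ)) (𝓝[>] 0)
      (𝓝 (0 + t)) := by
    apply Tendsto.add_const
    apply Tendsto.div_atTop tendsto_const_nhds
    have : (fun δ : ℝ => Real.log (1 / δ)) = fun δ => -Real.log δ := by
      ext δ
      rw [one_div, Real.log_inv]
    rw [this]
    exact tendsto_neg_atBot_atTop.comp Real.tendsto_log_nhdsGT_zero
  rw [zero_add] at h1
  have h2 : Tendsto (fun δ : ℝ => ((max (Real.log C) 0 / Real.log (1 / δ) + t : ℝ) : EReal))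
      (𝓝[>] 0) (𝓝 (t : EReal)) :=
    (continuous_coe_real_ereal.tendsto _).comp h1
  rw [upperMinkowski, ← h2.limsup_eq]
  refine limsup_le_limsup ?_
  have h3 : ∀ᶠ δ : ℝ in 𝓝[>] 0, δ < 1 := mem_nhdsWithin_of_mem_nhds (Iio_mem_nhds one_pos)
  filter_upwards [h3, self_mem_nhdsWithin] with δ h4 h5
  have h5' : (0 : ℝ) < δ := h5
  have hlog : 0 < Real.log (1 / δ) := Real.log_pos (by rw [lt_div_iff₀ h5']; linarith)
  rw [EReal.coe_le_coe_iff]
  rcases Nat.eq_zero_or_pos (coverNum B δ) with h0 | h0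
  · rw [h0]
    simp only [Nat.cast_zero, Real.log_zero, zero_div]
    have : 0 ≤ max (Real.log C) 0 / Real.log (1 / δ) := div_nonneg (le_max_right _ _) hlog.le
    positivity
  · have h6 : Real.log (coverNum B δ) ≤ Real.log C + t * Real.log (1 / δ) := by
      have h7 : Real.log (C * δ ^ (-t)) = Real.log C + t * Real.log (1 / δ) := by
        rw [Real.log_mul hC.ne' (Real.rpow_pos_of_pos h5' _).ne', Real.log_rpow h5', one_div,
          Real.log_inv]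
        ring
      rw [← h7]
      exact Real.log_le_log (by exact_mod_cast h0) (h δ h5' h4)
    rw [div_add' _ _ _ hlog.ne', div_le_div_iff_of_pos_right hlog]
    linarith [le_max_left (Real.log C) 0]

/-- The norm is at most `(n + 1) c` if all the coordinates are at most `c`. -/
theorem norm_bound {n : ℕ} (x : EuclideanSpace ℝ (Fin n)) {c : ℝ} (hc : 0 ≤ c)
    (h : ∀ i, |x i| ≤ c) : ‖x‖ ≤ (n + 1) * c := by
  rw [EuclideanSpace.norm_eq]
  apply Real.sqrt_le_iff.2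
  refine ⟨by positivity, ?_⟩
  calc ∑ i, ‖x i‖ ^ 2 ≤ ∑ _i : Fin n, c ^ 2 :=
        Finset.sum_le_sum fun i _ => by
          rw [Real.norm_eq_abs]
          exact pow_le_pow_left₀ (abs_nonneg _) (h i) 2
    _ = n * c ^ 2 := by simp
    _ ≤ ((n + 1) * c) ^ 2 := by
        have hn : (0 : ℝ) ≤ n := Nat.cast_nonneg n
        have : ((n + 1) * c) ^ 2 = (n : ℝ) * c ^ 2 + (n ^ 2 + n + 1) * c ^ 2 := by ring
        rw [this]
        have : 0 ≤ ((n : ℝ) ^ 2 + n + 1) * c ^ 2 := by positivity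
        linarith

theorem geo_sum : ∑' J : ℕ, (1 / 2 : ℝ) ^ (J + 1) = 1 := by
  simp only [pow_succ]
  rw [tsum_mul_right, tsum_geometric_two]
  norm_num

theorem geo_summable : Summable fun J : ℕ => (1 / 2 : ℝ) ^ (J + 1) := by
  simp only [pow_succ]
  exact summable_geometric_two.mul_right _

theorem term_bound {N : ℕ} (hN : 2 ≤ N) {a M : ℝ} (ha : |a| ≤ M) (J : ℕ) :
    |a / (N : ℝ) ^ (J + 1)| ≤ M * (1 / 2) ^ (J + 1) := by
  have hN0 : (2 : ℝ) ≤ N := by exact_mod_cast hN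
  have h1 : (0 : ℝ) < (N : ℝ) ^ (J + 1) := by positivity
  rw [abs_div, abs_of_pos h1, div_eq_mul_inv, ← inv_pow]
  refine mul_le_mul ha ?_ (by positivity) ((abs_nonneg _).trans ha)
  refine pow_le_pow_left₀ (by positivity) ?_ _
  rw [one_div]
  exact inv_anti₀ (by norm_num) hN0

theorem sum_digits {N : ℕ} (hN : 2 ≤ N) {M : ℝ} (a : ℕ → ℝ) (ha : ∀ J, |a J| ≤ M) :
    Summable (fun J => a J / (N : ℝ) ^ (J + 1)) ∧ |∑' J, a J / (N : ℝ) ^ (J + 1)| ≤ M := by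
  have h1 : Summable fun J : ℕ => M * (1 / 2 : ℝ) ^ (J + 1) := geo_summable.mul_left M
  have h2 : ∀ J, ‖a J / (N : ℝ) ^ (J + 1)‖ ≤ M * (1 / 2) ^ (J + 1) := fun J => by
    rw [Real.norm_eq_abs]
    exact term_bound hN (ha J) J
  refine ⟨Summable.of_norm_bounded h1 h2, ?_⟩
  have h3 := tsum_of_norm_bounded h1.hasSum h2
  rw [tsum_mul_left, geo_sum, mul_one] at h3
  exact h3

theorem diff_digits {N : ℕ} (hN : 2 ≤ N) {M : ℝ} (a b : ℕ → ℝ) (ha : ∀ J, |a J| ≤ M)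
    (hb : ∀ J, |b J| ≤ M) (L : ℕ) (h : ∀ J < L, a J = b J) :
    |∑' J, a J / (N : ℝ) ^ (J + 1) - ∑' J, b J / (N : ℝ) ^ (J + 1)| ≤
      2 * M * ((N : ℝ) ^ L)⁻¹ := by
  have hN0 : (0 : ℝ) < N := by
    have : 0 < N := by omega
    exact_mod_cast this
  have s1 := (sum_digits hN a ha).1
  have s2 := (sum_digits hN b hb).1
  rw [← s1.tsum_sub s2, ← (s1.sub s2).sum_add_tsum_nat_add L]
  have h1 : ∑ J ∈ Finset.range L, (a J / (N : ℝ) ^ (J + 1) - b J / (N : ℝ) ^ (J + 1)) = 0 := by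
    refine Finset.sum_eq_zero fun J hJ => ?_
    rw [h J (Finset.mem_range.1 hJ), sub_self]
  rw [h1, zero_add]
  have h2 : ∀ J, a (J + L) / (N : ℝ) ^ (J + L + 1) - b (J + L) / (N : ℝ) ^ (J + L + 1) =
      ((N : ℝ) ^ L)⁻¹ * ((a (J + L) - b (J + L)) / (N : ℝ) ^ (J + 1)) := by
    intro J
    rw [show J + L + 1 = L + (J + 1) by ring, pow_add]
    field_simp
  simp only [h2]
  rw [tsum_mul_left, abs_mul, abs_of_pos (by positivity : (0 : ℝ) < ((N : ℝ) ^ L)⁻¹), mul_comm]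
  refine mul_le_mul_of_nonneg_right ?_ (by positivity)
  refine (sum_digits hN (fun J => a (J + L) - b (J + L)) fun J => ?_).2
  calc |a (J + L) - b (J + L)| ≤ |a (J + L)| + |b (J + L)| := abs_sub _ _
    _ ≤ M + M := add_le_add (ha _) (hb _)
    _ = 2 * M := by ring

end Pool.Agent.Zk9.DigitDim

open Pool.Agent.Results.MP_4b405e_nt.AlgebraicSets (coverNum upperMinkowski)

namespace Pool.Agent.Zk9.DigitDim

/-- Box dimension of a digit set. -/
theorem digit_dim (n N : ℕ) (hN : 2 ≤ N) (A : Finset (Fin n → ℤ)) (t : ℝ) (ht : 0 ≤ t)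
    (hA : (A.card : ℝ) ≤ (N : ℝ) ^ t) :
    Bornology.IsBounded {y : EuclideanSpace ℝ (Fin n) | ∃ α : ℕ → Fin n → ℤ, (∀ J, α J ∈ A) ∧
      ∀ i, y i = ∑' J : ℕ, (α J i : ℝ) / (N : ℝ) ^ (J + 1)} ∧
    upperMinkowski {y : EuclideanSpace ℝ (Fin n) | ∃ α : ℕ → Fin n → ℤ, (∀ J, α J ∈ A) ∧
      ∀ i, y i = ∑' J : ℕ, (α J i : ℝ) / (N : ℝ) ^ (J + 1)} ≤ (t : EReal) := by
  classical
  have hN2 : (2 : ℝ) ≤ N := by exact_mod_cast hN
  have hN0 : (0 : ℝ) < N := by linarith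
  obtain ⟨M, hM1, hM⟩ : ∃ M : ℝ, 1 ≤ M ∧ ∀ α ∈ A, ∀ i, |(α i : ℝ)| ≤ M := by
    refine ⟨1 + ∑ α ∈ A, ∑ i, |(α i : ℝ)|, ?_, fun α hα i => ?_⟩
    · have : 0 ≤ ∑ α ∈ A, ∑ i, |(α i : ℝ)| :=
        Finset.sum_nonneg fun _ _ => Finset.sum_nonneg fun _ _ => abs_nonneg _
      linarith
    · have h1 : |(α i : ℝ)| ≤ ∑ i, |(α i : ℝ)| :=
        Finset.single_le_sum (f := fun i => |(α i : ℝ)|) (fun _ _ => abs_nonneg _)
          (Finset.mem_univ i)
      have h2 : ∑ i, |(α i : ℝ)| ≤ ∑ α ∈ A, ∑ i, |(α i : ℝ)| :=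
        Finset.single_le_sum (f := fun α : Fin n → ℤ => ∑ i, |(α i : ℝ)|)
          (fun _ _ => Finset.sum_nonneg fun _ _ => abs_nonneg _) hα
      linarith
  set B := {y : EuclideanSpace ℝ (Fin n) | ∃ α : ℕ → Fin n → ℤ, (∀ J, α J ∈ A) ∧
      ∀ i, y i = ∑' J : ℕ, (α J i : ℝ) / (N : ℝ) ^ (J + 1)} with hB
  constructor
  · rw [isBounded_iff_forall_norm_le]
    refine ⟨(n + 1) * M, ?_⟩
    rintro y ⟨α, hα, hy⟩
    refine norm_bound y (by linarith) fun i => ?_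
    rw [hy i]
    exact (sum_digits hN (fun J => (α J i : ℝ)) fun J => hM _ (hα J) i).2
  · obtain ⟨D, hD⟩ : ∃ D : ℝ, D = (n + 1) * (2 * M) := ⟨_, rfl⟩
    have hn0 : (0 : ℝ) ≤ n := Nat.cast_nonneg n
    have hD1 : 1 ≤ D := by
      rw [hD]
      nlinarith
    refine upperMinkowski_le' (C := (N * D) ^ t) (by positivity) ht fun δ h0 h1 => ?_
    have hx : 1 ≤ D / δ := by
      rw [le_div_iff₀ h0]
      linarith
    obtain ⟨m, hm1, hm2⟩ := exists_nat_pow_near hx (by linarith : (1 : ℝ) < N)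
    have hL : D * ((N : ℝ) ^ (m + 1))⁻¹ ≤ δ := by
      rw [div_lt_iff₀ h0] at hm2
      rw [← div_eq_mul_inv, div_le_iff₀ (by positivity)]
      linarith
    have hcov : coverNum B δ ≤ Fintype.card (Fin (m + 1) → A) := by
      refine coverNum_le' (fun w : Fin (m + 1) → A => {y : EuclideanSpace ℝ (Fin n) |
        ∃ α : ℕ → Fin n → ℤ, (∀ J, α J ∈ A) ∧
          (∀ i, y i = ∑' J : ℕ, (α J i : ℝ) / (N : ℝ) ^ (J + 1)) ∧
          ∀ J : Fin (m + 1), α J = (w J : Fin n → ℤ)}) ?_ ?_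
      · rintro w x ⟨α, hα1, hα2, hα3⟩ y ⟨β, hβ1, hβ2, hβ3⟩
        rw [dist_eq_norm]
        refine (norm_bound (x - y) (c := 2 * M * ((N : ℝ) ^ (m + 1))⁻¹) (by positivity)
          fun i => ?_).trans ?_
        · rw [PiLp.sub_apply, hα2 i, hβ2 i]
          refine diff_digits hN (fun J => (α J i : ℝ)) (fun J => (β J i : ℝ))
            (fun J => hM _ (hα1 J) i) (fun J => hM _ (hβ1 J) i) (m + 1) fun J hJ => ?_
          have := (hα3 ⟨J, hJ⟩).trans (hβ3 ⟨J, hJ⟩).symm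
          simp only at this
          rw [this]
        · refine le_trans (le_of_eq ?_) hL
          rw [hD]
          ring
      · rintro y ⟨α, hα1, hα2⟩
        exact mem_iUnion.2 ⟨fun J => ⟨α J, hα1 J⟩, α, hα1, hα2, fun J => rfl⟩
    have hcard : (Fintype.card (Fin (m + 1) → A) : ℝ) = (A.card : ℝ) ^ (m + 1) := by
      simp
    calc (coverNum B δ : ℝ) ≤ (Fintype.card (Fin (m + 1) → A) : ℝ) := by exact_mod_cast hcov
      _ = (A.card : ℝ) ^ (m + 1) := hcard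
      _ ≤ ((N : ℝ) ^ t) ^ (m + 1) := pow_le_pow_left₀ (Nat.cast_nonneg _) hA _
      _ = ((N : ℝ) ^ (m + 1)) ^ t := by
          rw [← Real.rpow_natCast, ← Real.rpow_mul hN0.le, mul_comm, Real.rpow_mul hN0.le,
            Real.rpow_natCast]
      _ ≤ (N * (D / δ)) ^ t := by
          refine Real.rpow_le_rpow (by positivity) ?_ ht
          rw [pow_succ, mul_comm]
          exact mul_le_mul_of_nonneg_left hm1 hN0.le
      _ = (N * D) ^ t * δ ^ (-t) := by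
          rw [← mul_div_assoc, Real.div_rpow (by positivity) h0.le, Real.rpow_neg h0.le]
          ring

end Pool.Agent.Zk9.DigitDim
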