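import Pool.Agent.Zk55.RF.Word

set_option autoImplicit false

/-!
The folding of the lines near a vertex preserves the area and is injective; almost every direction is
blocked.
-/

namespace Pool.Agent.Zk9.RF

open Complex Set MeasureTheory Filter Topology Pool.Agent.W780.PG Pool.Agent.W780.BB
  Pool.Agent.TH578.BE Pool.Agent.K3h17.BK Pool.Agent.Zk55.CF Pool.Agent.Zk55.RF

open scoped Real ComplexConjugate

variable {n : ℕ} {p : Fin (n + 3) → ℂ}

/-! ### The folding preserves the area -/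

theorem lb_mp (v : ℂ) : MeasurePreserving (fun x : ℝ × ℝ => lb v x.1 x.2) := by
  have hc : Continuous fun q : ℝ × ℝ => (conj (dir q.1) * v).im + q.2 := (cont_lb v).snd
  have h : MeasurePreserving (fun x : ℝ × ℝ => ((fun a : ℝ => a) x.1,
      (fun (a s : ℝ) => (conj (dir a) * v).im + s) x.1 x.2))
      ((volume : Measure ℝ).prod volume) ((volume : Measure ℝ).prod volume) := by
    refine MeasurePreserving.skew_product
      (g := fun (a s : ℝ) => (conj (dir a) * v).im + s)
      (MeasurePreserving.id volume) hc.measurable ?_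
    exact Filter.Eventually.of_forall fun a => (measurePreserving_add_left volume _).map_eq
  exact h

theorem fl_mp (i : Fin (n + 3)) : MeasurePreserving (fl p i) := by
  have hc : Continuous fun q : ℝ × ℝ => (conj (dir q.1) * p i).im +
      (conj (dir (2 * tau p i - q.1)) * p i).im - q.2 := (continuous_fl i).snd
  have h : MeasurePreserving (fun x : ℝ × ℝ => ((fun a : ℝ => 2 * tau p i - a) x.1,
      (fun (a s : ℝ) => (conj (dir a) * p i).im +
      (conj (dir (2 * tau p i - a)) * p i).im - s) x.1 x.2))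
      ((volume : Measure ℝ).prod volume) ((volume : Measure ℝ).prod volume) := by
    refine MeasurePreserving.skew_product
      (g := fun (a s : ℝ) => (conj (dir a) * p i).im + (conj (dir (2 * tau p i - a)) * p i).im - s)
      (Measure.measurePreserving_sub_left volume (2 * tau p i)) hc.measurable ?_
    exact Filter.Eventually.of_forall fun a => (Measure.measurePreserving_sub_left volume _).map_eq
  exact h

theorem fw_mp (w : List (Fin (n + 3))) : MeasurePreserving (fw p w) := by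
  induction w with
  | nil => exact MeasurePreserving.id volume
  | cons i w ih => exact ih.comp (fl_mp i)

theorem fw_cont (w : List (Fin (n + 3))) : Continuous (fw p w) := by
  induction w with
  | nil => exact continuous_id
  | cons i w ih => exact ih.comp (continuous_fl i)

theorem fw_inj (w : List (Fin (n + 3))) : Function.Injective (fw p w) := by
  induction w with
  | nil => exact fun _ _ h => h
  | cons i w ih =>
    intro x y h
    have h1 := ih h
    rw [← fl_fl (p := p) i x, h1, fl_fl]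

theorem lb_inj (v : ℂ) : Function.Injective (fun x : ℝ × ℝ => lb v x.1 x.2) := by
  intro x y h
  have h1 : x.1 = y.1 := (Prod.ext_iff.1 h).1
  have h2 : (conj (dir x.1) * v).im + x.2 = (conj (dir y.1) * v).im + y.2 := (Prod.ext_iff.1 h).2
  rw [h1] at h2
  exact Prod.ext h1 (by linarith)

/-- The folded line, with the direction shifted by a multiple of `2 * π`. -/
noncomputable def TT (p : Fin (n + 3) → ℂ) (v : ℂ) (q : List (Fin (n + 3)) × ℤ) (x : ℝ × ℝ) :
    ℝ × ℝ :=
  ((fw p q.1 (lb v x.1 x.2)).1 - 2 * π * q.2, (fw p q.1 (lb v x.1 x.2)).2)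

theorem TT_cont (v : ℂ) (q : List (Fin (n + 3)) × ℤ) : Continuous (TT p v q) := by
  have h := (fw_cont (p := p) q.1).comp (cont_lb v)
  exact (h.fst.sub continuous_const).prodMk h.snd

theorem TT_inj (v : ℂ) (q : List (Fin (n + 3)) × ℤ) : Function.Injective (TT p v q) := by
  intro x y h
  have h1 : (fw p q.1 (lb v x.1 x.2)).1 - 2 * π * q.2 = (fw p q.1 (lb v y.1 y.2)).1 - 2 * π * q.2 :=
    (Prod.ext_iff.1 h).1
  have h2 : (fw p q.1 (lb v x.1 x.2)).2 = (fw p q.1 (lb v y.1 y.2)).2 := (Prod.ext_iff.1 h).2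
  exact lb_inj v (fw_inj q.1 (Prod.ext (by linarith) h2))

theorem TT_mp (v : ℂ) (q : List (Fin (n + 3)) × ℤ) : MeasurePreserving (TT p v q) := by
  have h1 : MeasurePreserving (fun x : ℝ × ℝ => (x.1 - 2 * π * q.2, x.2))
      ((volume : Measure ℝ).prod volume) ((volume : Measure ℝ).prod volume) :=
    (measurePreserving_sub_right volume (2 * π * (q.2 : ℝ))).prod (MeasurePreserving.id volume)
  exact (show MeasurePreserving (fun x : ℝ × ℝ => (x.1 - 2 * π * q.2, x.2)) from h1).comp
    ((fw_mp q.1).comp (lb_mp v))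

theorem TT_emb (v : ℂ) (q : List (Fin (n + 3)) × ℤ) : MeasurableEmbedding (TT p v q) :=
  (TT_cont v q).measurableEmbedding (TT_inj v q)

theorem TT_vol (v : ℂ) (q : List (Fin (n + 3)) × ℤ) (A : Set (ℝ × ℝ)) :
    volume (TT p v q '' A) = volume A := by
  rw [← (TT_mp v q).measure_preimage_emb (TT_emb v q), preimage_image_eq _ (TT_inj v q)]

/-! ### Injectivity -/

theorem key_le (hp : IsConvexPolygon p) (j : Fin (n + 3)) {a c r : ℝ} (hac : c < a + 2 * π)
    {w w' : List (Fin (n + 3))} {x x' : ℝ × ℝ} {m : ℤ} (hl : w.length ≤ w'.length)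
    (hw : w ≠ []) (h1 : x.1 ∈ Icc a c) (h2 : x.1 ∈ As p (p j) w r)
    (h3 : |x.2| ≤ r / 2) (h1' : x'.1 ∈ Icc a c) (h2' : x'.1 ∈ As p (p j) w' r)
    (h3' : |x'.2| ≤ r / 2)
    (he : fw p w (lb (p j) x.1 x.2) = ((fw p w' (lb (p j) x'.1 x'.2)).1 + 2 * π * m,
      (fw p w' (lb (p j) x'.1 x'.2)).2)) : w = w' ∧ x = x' := by
  obtain ⟨hr1, -⟩ := Pool.Agent.W347.BB.ref n p hp
  have hr0 : 0 ≤ r := by
    have := abs_nonneg x.2
    linarith
  have hR : RW p w (lb (p j) x.1 x.2) := RW_of_As h2 (by linarith)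
  have hR' : RW p w' (lb (p j) x'.1 x'.2) := RW_of_As h2' (by linarith)
  set u := w'.take (w'.length - w.length) with hu
  set w1 := w'.drop (w'.length - w.length) with hw1
  have hsplit : u ++ w1 = w' := List.take_append_drop _ _
  have hlen : w.length = w1.length := by
    rw [hw1, List.length_drop]
    omega
  rw [← hsplit, RW_append] at hR'
  rw [← hsplit, fw_append] at he
  obtain ⟨e1, m', e2⟩ := back_uniq hp w w1 _ _ m hlen hR hR'.2 he
  by_cases hu0 : u = []
  · rw [hu0, fw] at e2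
    rw [hu0, List.nil_append] at hsplit
    refine ⟨e1.trans hsplit, ?_⟩
    have f1 : x.1 = x'.1 + 2 * π * m' := congrArg Prod.fst e2
    have f2 : (conj (dir x.1) * p j).im + x.2 = (conj (dir x'.1) * p j).im + x'.2 :=
      congrArg Prod.snd e2
    have hpi := Real.pi_pos
    have hm' : m' = 0 := by
      have g1 : (m' : ℝ) < 1 := by
        by_contra hcon
        push Not at hcon
        have : 2 * π * 1 ≤ 2 * π * m' := mul_le_mul_of_nonneg_left hcon (by positivity)
        linarith [h1.2, h1'.1]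
      have g2 : (-1 : ℝ) < m' := by
        by_contra hcon
        push Not at hcon
        have : 2 * π * m' ≤ 2 * π * (-1) := mul_le_mul_of_nonneg_left hcon (by positivity)
        linarith [h1.1, h1'.2]
      have g3 : m' < 1 := by exact_mod_cast g1
      have g4 : -1 < m' := by exact_mod_cast g2
      omega
    rw [hm', Int.cast_zero, mul_zero, add_zero] at f1
    rw [f1] at f2
    exact Prod.ext f1 (by linarith)
  · exfalso
    have k1 : |ph (lb (p j) x'.1 x'.2) (uf p u (p j))| = |x.2| := by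
      have h5 := ph_fw hr1 u (lb (p j) x'.1 x'.2) (p j)
      have h6 : ph (fw p u (lb (p j) x'.1 x'.2)) (p j) = - x.2 := by
        rw [← ph_per (fw p u (lb (p j) x'.1 x'.2)) m' (p j), ← e2, ph_lb, sub_self, mul_zero,
          Complex.zero_im, zero_sub]
      rw [h6] at h5
      have h7 := congrArg abs h5
      rw [abs_neg, abs_mul, abs_pow, abs_neg, abs_one, one_pow, one_mul] at h7
      exact h7.symm
    set σ := x'.2 + ph (lb (p j) x'.1 x'.2) (uf p u (p j)) with hσ
    have k2 : |σ| ≤ r := by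
      rw [hσ]
      have := abs_add_le x'.2 (ph (lb (p j) x'.1 x'.2) (uf p u (p j)))
      rw [k1] at this
      linarith
    have k3 : RW p (u ++ w) (lb (p j) x'.1 σ) := by
      rw [e1, hsplit]
      exact RW_of_As h2' k2
    refine no_vertex hp hu0 hw k3 j ?_
    rw [ph_lb, hσ, ph_lb]
    ring

theorem key (hp : IsConvexPolygon p) (j : Fin (n + 3)) {a c r : ℝ} (hac : c < a + 2 * π)
    {w w' : List (Fin (n + 3))} {x x' : ℝ × ℝ} {m : ℤ}
    (hw : w ≠ []) (h1 : x.1 ∈ Icc a c) (h2 : x.1 ∈ As p (p j) w r)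
    (h3 : |x.2| ≤ r / 2) (hw' : w' ≠ []) (h1' : x'.1 ∈ Icc a c) (h2' : x'.1 ∈ As p (p j) w' r)
    (h3' : |x'.2| ≤ r / 2)
    (he : fw p w (lb (p j) x.1 x.2) = ((fw p w' (lb (p j) x'.1 x'.2)).1 + 2 * π * m,
      (fw p w' (lb (p j) x'.1 x'.2)).2)) : w = w' ∧ x = x' := by
  rcases le_total w.length w'.length with hl | hl
  · exact key_le hp j hac hl hw h1 h2 h3 h1' h2' h3' he
  · have he' : fw p w' (lb (p j) x'.1 x'.2) = ((fw p w (lb (p j) x.1 x.2)).1 + 2 * π * (-m : ℤ),
        (fw p w (lb (p j) x.1 x.2)).2) := by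
      rw [he]
      ext
      · show _ = _
        push_cast
        ring
      · rfl
    obtain ⟨e1, e2⟩ := key_le hp j hac hl hw' h1' h2' h3' h1 h2 h3 he'
    exact ⟨e1.symm, e2.symm⟩

/-! ### The flux -/

theorem flux (hp : IsConvexPolygon p) (j : Fin (n + 3)) {a c r : ℝ} (hac : c < a + 2 * π)
    (hr : 0 < r) {S : List (Fin (n + 3)) → Set (ℝ × ℝ)} (hSm : ∀ w, MeasurableSet (S w))
    (hS : ∀ w, ∀ x ∈ S w, w ≠ [] ∧ x.1 ∈ Icc a c ∧ x.1 ∈ As p (p j) w r ∧ |x.2| ≤ r / 2)
    {B : Set (ℝ × ℝ)} (hB : MeasurableSet B)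
    (hper : ∀ θ s, (θ + 2 * π, s) ∈ B ↔ (θ, s) ∈ B) :
    ∑' w, volume {x ∈ S w | fw p w (lb (p j) x.1 x.2) ∈ B} ≤
      volume (B ∩ (Ico 0 (2 * π) ×ˢ univ)) := by
  have _ := hr
  have hpi := Real.pi_pos
  -- all periods
  have hperN : ∀ (m : ℕ) (θ s : ℝ), (θ + 2 * π * m, s) ∈ B ↔ (θ, s) ∈ B := by
    intro m
    induction m with
    | zero => intro θ s; simp
    | succ m ih =>
      intro θ s
      rw [show θ + 2 * π * ((m + 1 : ℕ) : ℝ) = (θ + 2 * π * m) + 2 * π by push_cast; ring, hper, ih]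
  have hperZ : ∀ (m : ℤ) (θ s : ℝ), (θ - 2 * π * m, s) ∈ B ↔ (θ, s) ∈ B := by
    intro m θ s
    obtain ⟨k, rfl | rfl⟩ := m.eq_nat_or_neg
    · rw [← hperN k (θ - 2 * π * ((k : ℤ) : ℝ)) s]
      rw [show θ - 2 * π * ((k : ℤ) : ℝ) + 2 * π * (k : ℝ) = θ by push_cast; ring]
    · rw [show θ - 2 * π * ((-(k : ℤ) : ℤ) : ℝ) = θ + 2 * π * (k : ℝ) by push_cast; ring]
      exact hperN k θ s
  -- the pieces
  set A : List (Fin (n + 3)) × ℤ → Set (ℝ × ℝ) := fun q =>
    {x | x ∈ S q.1 ∧ TT p (p j) q x ∈ B ∩ (Ico 0 (2 * π) ×ˢ univ)} with hA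
  have hAm : ∀ q, MeasurableSet (A q) := by
    intro q
    exact (hSm q.1).inter ((TT_mp (p j) q).measurable (hB.inter
      (measurableSet_Ico.prod MeasurableSet.univ)))
  have hunion : ∀ w, {x ∈ S w | fw p w (lb (p j) x.1 x.2) ∈ B} = ⋃ m : ℤ, A (w, m) := by
    intro w
    ext x
    simp only [mem_iUnion, hA, mem_ofPred_eq, TT]
    constructor
    · rintro ⟨hx, hxB⟩
      set y := fw p w (lb (p j) x.1 x.2) with hy
      have h1 := Int.floor_le (y.1 / (2 * π))
      have h2 := Int.lt_floor_add_one (y.1 / (2 * π))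
      rw [le_div_iff₀ (by positivity)] at h1
      rw [div_lt_iff₀ (by positivity)] at h2
      refine ⟨⌊y.1 / (2 * π)⌋, hx, (hperZ _ _ _).2 hxB, ⟨?_, ?_⟩, mem_univ _⟩
      · show 0 ≤ y.1 - 2 * π * (⌊y.1 / (2 * π)⌋ : ℝ)
        linarith
      · show y.1 - 2 * π * (⌊y.1 / (2 * π)⌋ : ℝ) < 2 * π
        linarith
    · rintro ⟨m, hx, hxB, -⟩
      exact ⟨hx, (hperZ _ _ _).1 hxB⟩
  -- the images are disjoint
  have hinj : ∀ q q' : List (Fin (n + 3)) × ℤ, ∀ x ∈ A q, ∀ x' ∈ A q',
      TT p (p j) q x = TT p (p j) q' x' → q = q' := by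
    rintro ⟨w, m⟩ ⟨w', m'⟩ x ⟨hx, hxB⟩ x' ⟨hx', hxB'⟩ he
    obtain ⟨a1, a2, a3, a4⟩ := hS w x hx
    obtain ⟨b1, b2, b3, b4⟩ := hS w' x' hx'
    have he1 : (fw p w (lb (p j) x.1 x.2)).1 - 2 * π * m =
        (fw p w' (lb (p j) x'.1 x'.2)).1 - 2 * π * m' := (Prod.ext_iff.1 he).1
    have he2 : (fw p w (lb (p j) x.1 x.2)).2 = (fw p w' (lb (p j) x'.1 x'.2)).2 :=
      (Prod.ext_iff.1 he).2
    have he' : fw p w (lb (p j) x.1 x.2) =
        ((fw p w' (lb (p j) x'.1 x'.2)).1 + 2 * π * ((m - m' : ℤ) : ℝ),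
        (fw p w' (lb (p j) x'.1 x'.2)).2) := by
      ext
      · show _ = _
        push_cast
        linarith
      · exact he2
    obtain ⟨k1, k2⟩ := key hp j hac a1 a2 a3 a4 b1 b2 b3 b4 he'
    subst k1
    subst k2
    have : (2 * π) * (m : ℝ) = 2 * π * m' := by linarith
    have h3 : (m : ℝ) = m' := mul_left_cancel₀ (by positivity) this
    have h4 : m = m' := by exact_mod_cast h3
    rw [h4]
  have hdisj : Pairwise (Function.onFun Disjoint fun q => TT p (p j) q '' A q) := by
    intro q q' hne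
    refine Set.disjoint_left.2 ?_
    rintro y ⟨x, hx, rfl⟩ ⟨x', hx', he⟩
    exact hne (hinj q q' x hx x' hx' he.symm)
  have hdisj' : ∀ w, Pairwise (Function.onFun Disjoint fun m : ℤ => A (w, m)) := by
    intro w m m' hne
    refine Set.disjoint_left.2 ?_
    rintro x ⟨hx, hxB⟩ ⟨hx', hxB'⟩
    simp only [TT, mem_inter_iff, mem_prod, mem_Ico] at hxB hxB'
    set y := fw p w (lb (p j) x.1 x.2)
    obtain ⟨-, ⟨c1, c2⟩, -⟩ := hxB
    obtain ⟨-, ⟨d1, d2⟩, -⟩ := hxB'
    apply hne
    have g1 : (m : ℝ) < m' + 1 := by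
      by_contra hcon
      push Not at hcon
      have : 2 * π * (m' + 1) ≤ 2 * π * m := mul_le_mul_of_nonneg_left hcon (by positivity)
      linarith
    have g2 : (m' : ℝ) < m + 1 := by
      by_contra hcon
      push Not at hcon
      have : 2 * π * (m + 1) ≤ 2 * π * m' := mul_le_mul_of_nonneg_left hcon (by positivity)
      linarith
    have g3 : m < m' + 1 := by exact_mod_cast g1
    have g4 : m' < m + 1 := by exact_mod_cast g2
    omega
  calc ∑' w, volume {x ∈ S w | fw p w (lb (p j) x.1 x.2) ∈ B}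
      = ∑' w, ∑' m : ℤ, volume (A (w, m)) := by
        congr 1
        ext w
        rw [hunion w, measure_iUnion (hdisj' w) fun m => hAm (w, m)]
    _ = ∑' q : List (Fin (n + 3)) × ℤ, volume (A q) := (ENNReal.tsum_prod (f := fun w m =>
        volume (A (w, m)))).symm
    _ = ∑' q : List (Fin (n + 3)) × ℤ, volume (TT p (p j) q '' A q) := by
        congr 1
        ext q
        rw [TT_vol]
    _ = volume (⋃ q, TT p (p j) q '' A q) :=
        (measure_iUnion hdisj fun q => (TT_emb (p j) q).measurableSet_image.2 (hAm q)).symm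
    _ ≤ volume (B ∩ (Ico 0 (2 * π) ×ˢ univ)) := by
        apply measure_mono
        intro y hy
        obtain ⟨q, x, hx, rfl⟩ := mem_iUnion.1 hy
        exact hx.2

/-! ### Blocked directions -/

theorem isOpen_As (v : ℂ) (w : List (Fin (n + 3))) (r : ℝ) : IsOpen (As p v w r) := by
  have h : ∀ s : ℝ, Continuous fun φ : ℝ => lb v φ s := fun s =>
    (cont_lb v).comp (continuous_id.prodMk continuous_const)
  exact ((isOpen_RW w).preimage (h r)).inter ((isOpen_RW w).preimage (h (-r)))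

/-- The lines that meet the polygon. -/
def BM (p : Fin (n + 3) → ℂ) : Set (ℝ × ℝ) := {y | ∃ z ∈ reg p, ph y z = 0}

theorem isOpen_BM (hp : IsConvexPolygon p) : IsOpen (BM p) := by
  have h : BM p = ⋃ t : ℝ, (fun y => pt y t) ⁻¹' reg p := by
    ext y
    simp only [BM, mem_ofPred_eq, mem_iUnion, mem_preimage]
    constructor
    · rintro ⟨z, hz, h0⟩
      exact ⟨tt y z, by rw [pt_of_ph h0]; exact hz⟩
    · rintro ⟨t, ht⟩
      exact ⟨_, ht, ph_pt y t⟩
  rw [h]
  refine isOpen_iUnion fun t => (reg_op hp).preimage ?_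
  exact cont_pt.comp (continuous_id.prodMk continuous_const)

theorem BM_finite (hp : IsConvexPolygon p) :
    volume (BM p ∩ (Ico 0 (2 * π) ×ˢ univ)) ≠ ⊤ := by
  obtain ⟨C, hC⟩ := (reg_bounded hp).exists_norm_le
  have h : BM p ∩ (Ico 0 (2 * π) ×ˢ univ) ⊆ Icc 0 (2 * π) ×ˢ Icc (-C) C := by
    rintro y ⟨⟨z, hz, h0⟩, hy, -⟩
    refine ⟨⟨hy.1, hy.2.le⟩, ?_⟩
    have h1 := (abs_im_le y.1 z).trans (hC z hz)
    have h2 : y.2 = (conj (dir y.1) * z).im := by
      unfold ph at h0
      linarith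
    rw [← h2] at h1
    exact abs_le.1 h1
  refine ne_top_of_le_ne_top ?_ (measure_mono h)
  exact (isCompact_Icc.prod isCompact_Icc).measure_lt_top.ne

theorem blocked (hp : IsConvexPolygon p) (j : Fin (n + 3)) {r : ℝ} (hr : 0 < r) :
    ∀ᵐ φ : ℝ, ∃ N : ℕ, ∀ w : List (Fin (n + 3)), w.length = N → φ ∉ As p (p j) w r := by
  classical
  set U : Set ℝ := {φ | ∀ N : ℕ, ∃ w : List (Fin (n + 3)), w.length = N ∧ φ ∈ As p (p j) w r}
    with hU
  have hUm : MeasurableSet U := by
    have : U = ⋂ N : ℕ, ⋃ w : List (Fin (n + 3)), ⋃ _ : w.length = N, As p (p j) w r := by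
      ext φ
      simp [hU]
    rw [this]
    refine MeasurableSet.iInter fun N => ?_
    exact (isOpen_iUnion fun w => isOpen_iUnion fun _ => isOpen_As _ w r).measurableSet
  have key : ∀ k : ℤ, volume (U ∩ Icc (k : ℝ) (k + 1)) = 0 := by
    intro k
    set V := U ∩ Icc (k : ℝ) (k + 1) with hV
    have hVm : MeasurableSet V := hUm.inter measurableSet_Icc
    set J := Icc (-(r / 2)) (r / 2) with hJ
    set S : List (Fin (n + 3)) → Set (ℝ × ℝ) := fun w =>
      if w = [] then ∅ else (V ∩ As p (p j) w r) ×ˢ J with hSdef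
    have hSm : ∀ w, MeasurableSet (S w) := by
      intro w
      simp only [hSdef]
      split_ifs
      · exact MeasurableSet.empty
      · exact (hVm.inter (isOpen_As _ w r).measurableSet).prod measurableSet_Icc
    have hpi : (3 : ℝ) < π := Real.pi_gt_three
    have hS : ∀ w, ∀ x ∈ S w, w ≠ [] ∧ x.1 ∈ Icc (k : ℝ) (k + 1) ∧ x.1 ∈ As p (p j) w r ∧
        |x.2| ≤ r / 2 := by
      intro w x hx
      simp only [hSdef] at hx
      split_ifs at hx with h
      · exact absurd hx (notMem_empty x)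
      · exact ⟨h, hx.1.1.2, hx.1.2, abs_le.2 hx.2⟩
    have hper : ∀ θ s, (θ + 2 * π, s) ∈ BM p ↔ (θ, s) ∈ BM p := by
      intro θ s
      have h := fun z => ph_per ((θ, s) : ℝ × ℝ) 1 z
      simp only [Int.cast_one, mul_one] at h
      simp only [BM, mem_ofPred_eq, h]
    have hfl := flux hp j (a := (k : ℝ)) (c := k + 1) (by linarith) hr hSm hS
      (isOpen_BM hp).measurableSet hper
    have hSB : ∀ w, {x ∈ S w | fw p w (lb (p j) x.1 x.2) ∈ BM p} = S w := by
      intro w
      ext x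
      simp only [mem_ofPred_eq, and_iff_left_iff_imp]
      intro hx
      obtain ⟨a1, a2, a3, a4⟩ := hS w x hx
      exact meets hp a1 (RW_of_As a3 (by linarith))
    simp only [hSB] at hfl
    have htop : ∑' w, volume (S w) ≠ ⊤ := ne_top_of_le_ne_top (BM_finite hp) hfl
    -- the sums over the words of a given length
    set g : ℕ → ENNReal := fun N => ∑' w : List (Fin (n + 3)), if w.length = N then volume (S w)
      else 0 with hg
    have hgsum : ∑' N, g N = ∑' w, volume (S w) := by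
      simp only [hg]
      rw [ENNReal.tsum_comm]
      congr 1
      ext w
      rw [tsum_eq_single w.length]
      · simp
      · intro N hN
        rw [if_neg (Ne.symm hN)]
    have hg0 : Tendsto g atTop (𝓝 0) :=
      ENNReal.tendsto_atTop_zero_of_tsum_ne_top (by rw [hgsum]; exact htop)
    have hlow : ∀ N, 1 ≤ N → volume V * volume J ≤ g N := by
      intro N hN
      have h1 : V ×ˢ J ⊆ ⋃ w : List (Fin (n + 3)), if w.length = N then S w else ∅ := by
        rintro x ⟨hx1, hx2⟩
        obtain ⟨w, hw1, hw2⟩ := hx1.1 N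
        refine mem_iUnion.2 ⟨w, ?_⟩
        rw [if_pos hw1]
        simp only [hSdef]
        rw [if_neg (by rintro rfl; simp at hw1; omega)]
        exact ⟨⟨hx1, hw2⟩, hx2⟩
      calc volume V * volume J = volume (V ×ˢ J) := by
            rw [Measure.volume_eq_prod, Measure.prod_prod]
        _ ≤ volume (⋃ w : List (Fin (n + 3)), if w.length = N then S w else ∅) := measure_mono h1
        _ ≤ ∑' w : List (Fin (n + 3)), volume (if w.length = N then S w else ∅) :=
            measure_iUnion_le _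
        _ = g N := by
            simp only [hg]
            congr 1
            ext w
            split_ifs <;> simp
    have h0 : volume V * volume J ≤ 0 :=
      ge_of_tendsto hg0 (eventually_atTop.2 ⟨1, fun N hN => hlow N hN⟩)
    rcases mul_eq_zero.1 (le_antisymm h0 bot_le) with h | h
    · exact h
    · exfalso
      rw [hJ, Real.volume_Icc, ENNReal.ofReal_eq_zero] at h
      linarith
  have hUz : volume U = 0 := by
    have hcov : U ⊆ ⋃ k : ℤ, U ∩ Icc (k : ℝ) (k + 1) := by
      intro φ hφ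
      exact mem_iUnion.2 ⟨⌊φ⌋, hφ, Int.floor_le φ, (Int.lt_floor_add_one φ).le⟩
    exact measure_mono_null hcov (measure_iUnion_null key)
  have : ∀ᵐ φ : ℝ, φ ∉ U := measure_eq_zero_iff_ae_notMem.1 hUz
  filter_upwards [this] with φ hφ
  simp only [hU, mem_ofPred_eq] at hφ
  push Not at hφ
  exact hφ

end Pool.Agent.Zk9.RF
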