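import Mathlib

set_option autoImplicit false

/-!
A bound for the sum of the Green functions of the one-dimensional lattice at the interior energies.
-/

namespace Pool.Agent.Zk60.AE

open Finset

theorem std_eq (L : ℕ) [NeZero L] (q : ZMod L) : (ZMod.stdAddChar q : ℂ) =
    Complex.exp (((2 * Real.pi * q.val / L : ℝ) : ℂ) * Complex.I) := by
  have h : ((q.val : ℤ) : ZMod L) = q := by simp
  conv_lhs => rw [← h]
  rw [ZMod.stdAddChar_coe]
  congr 1
  push_cast
  ring

/-- The angle. -/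
noncomputable def ang (L k : ℕ) : ℝ := 2 * Real.pi * k / L

theorem std_re (L : ℕ) [NeZero L] (q : ZMod L) :
    (ZMod.stdAddChar q : ℂ).re = Real.cos (ang L q.val) := by
  rw [std_eq, Complex.exp_ofReal_mul_I_re]
  rfl

theorem std_im (L : ℕ) [NeZero L] (q : ZMod L) :
    (ZMod.stdAddChar q : ℂ).im = Real.sin (ang L q.val) := by
  rw [std_eq, Complex.exp_ofReal_mul_I_im]
  rfl

theorem cos_diff {c x y : ℝ} (hx : 0 ≤ x) (hxy : x ≤ y) (hy : y ≤ Real.pi) (h1 : c ≤ Real.sin x)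
    (h2 : c ≤ Real.sin y) : 2 * c / Real.pi * (y - x) ≤ Real.cos x - Real.cos y := by
  have hpi := Real.pi_pos
  have hm0 : 0 ≤ Real.sin ((x + y) / 2) := Real.sin_nonneg_of_nonneg_of_le_pi (by linarith)
    (by linarith)
  have hu0 : 0 ≤ (y - x) / 2 := by linarith
  have hu1 : (y - x) / 2 ≤ Real.pi / 2 := by linarith
  have h3 : Real.sin x + Real.sin y = 2 * Real.sin ((x + y) / 2) * Real.cos ((x - y) / 2) :=
    Real.sin_add_sin x y
  have h4 : Real.cos ((x - y) / 2) ≤ 1 := Real.cos_le_one _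
  have h5 : c ≤ Real.sin ((x + y) / 2) := by nlinarith
  have h6 : Real.cos x - Real.cos y = 2 * Real.sin ((x + y) / 2) * Real.sin ((y - x) / 2) := by
    rw [Real.cos_sub_cos, show (x - y) / 2 = -((y - x) / 2) by ring, Real.sin_neg]
    ring
  have h7 : 2 / Real.pi * ((y - x) / 2) ≤ Real.sin ((y - x) / 2) := Real.mul_le_sin hu0 hu1
  have h8 : 0 ≤ 2 / Real.pi * ((y - x) / 2) := by positivity
  rw [h6]
  calc 2 * c / Real.pi * (y - x) = 2 * (c * (2 / Real.pi * ((y - x) / 2))) := by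
        field_simp
    _ ≤ 2 * (Real.sin ((x + y) / 2) * Real.sin ((y - x) / 2)) := by
        have : c * (2 / Real.pi * ((y - x) / 2)) ≤
            Real.sin ((x + y) / 2) * Real.sin ((y - x) / 2) := mul_le_mul h5 h7 h8 hm0
        linarith
    _ = _ := by ring

theorem card_le_diam (S : Finset ℕ) {D : ℝ} (hD : 0 ≤ D) (h : ∀ a ∈ S, ∀ b ∈ S, (b : ℝ) - a ≤ D) :
    (S.card : ℝ) ≤ D + 1 := by
  rcases S.eq_empty_or_nonempty with rfl | hne
  · simp
    linarith
  · have h1 : S ⊆ Icc (S.min' hne) (S.max' hne) := fun a ha =>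
      mem_Icc.2 ⟨S.min'_le a ha, S.le_max' a ha⟩
    have h2 := card_le_card h1
    rw [Nat.card_Icc] at h2
    have h3 := h _ (S.min'_mem hne) _ (S.max'_mem hne)
    have h4 : S.min' hne ≤ S.max' hne := S.min'_le _ (S.max'_mem hne)
    have h5 : S.card ≤ S.max' hne - S.min' hne + 1 := by omega
    have h6 : (S.card : ℝ) ≤ (S.max' hne : ℝ) - S.min' hne + 1 := by
      rw [← Nat.cast_sub h4]
      exact_mod_cast h5
    linarith

theorem arc_count {c : ℝ} (hc : 0 < c) {L : ℕ} (hL : 0 < L) (φ : ℕ → ℝ) (a : ℝ)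
    (hφ : ∀ k, φ k = ang L k - a) (S : Finset ℕ) {r E : ℝ} (hr : 0 ≤ r)
    (hS : ∀ k ∈ S, 0 ≤ φ k ∧ φ k ≤ Real.pi ∧ c ≤ Real.sin (φ k) ∧ |Real.cos (φ k) - E| ≤ r / 2) :
    (S.card : ℝ) ≤ L * r / (4 * c) + 1 := by
  have hpi := Real.pi_pos
  have hL0 : (0 : ℝ) < L := by exact_mod_cast hL
  refine card_le_diam S (by positivity) fun k hk l hl => ?_
  obtain ⟨a1, a2, a3, a4⟩ := hS k hk
  obtain ⟨b1, b2, b3, b4⟩ := hS l hl
  rcases le_total l k with hlk | hkl
  · have : (l : ℝ) ≤ k := by exact_mod_cast hlk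
    have h0 : 0 ≤ L * r / (4 * c) := by positivity
    linarith
  · have hkl' : (k : ℝ) ≤ l := by exact_mod_cast hkl
    have h1 : φ l - φ k = 2 * Real.pi * (l - k) / L := by
      rw [hφ, hφ]
      unfold ang
      ring
    have h2 : φ k ≤ φ l := by
      have : 0 ≤ 2 * Real.pi * ((l : ℝ) - k) / L := by
        have : 0 ≤ (l : ℝ) - k := by linarith
        positivity
      linarith
    have h3 := cos_diff a1 h2 b2 a3 b3
    have h4 : Real.cos (φ k) - Real.cos (φ l) ≤ r := by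
      have := (abs_le.1 a4).2
      have := (abs_le.1 b4).1
      linarith
    rw [h1] at h3
    have h5 : 2 * c / Real.pi * (2 * Real.pi * ((l : ℝ) - k) / L) = 4 * c * (l - k) / L := by
      field_simp
      ring
    rw [h5] at h3
    have h6 : 4 * c * ((l : ℝ) - k) / L ≤ r := h3.trans h4
    rw [div_le_iff₀ hL0] at h6
    rw [le_div_iff₀ (by positivity)]
    linarith

theorem count {c : ℝ} (hc : 0 < c) (L : ℕ) [NeZero L] {r : ℝ} (hr : 0 ≤ r) (E : ℝ) :
    ((((univ : Finset (ZMod L)).filter (fun q => c ≤ |(ZMod.stdAddChar q : ℂ).im|)).filter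
      (fun q => |2 - 2 * (ZMod.stdAddChar q : ℂ).re - E| ≤ r)).card : ℝ) ≤
        2 * (L * r / (4 * c) + 1) := by
  classical
  have hpi := Real.pi_pos
  have hL : 0 < L := Nat.pos_of_ne_zero (NeZero.ne L)
  have hL0 : (0 : ℝ) < L := by exact_mod_cast hL
  set T := (((univ : Finset (ZMod L)).filter (fun q => c ≤ |(ZMod.stdAddChar q : ℂ).im|)).filter
      (fun q => |2 - 2 * (ZMod.stdAddChar q : ℂ).re - E| ≤ r)).image ZMod.val with hT
  have hcard : (((univ : Finset (ZMod L)).filter (fun q => c ≤ |(ZMod.stdAddChar q : ℂ).im|)).filter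
      (fun q => |2 - 2 * (ZMod.stdAddChar q : ℂ).re - E| ≤ r)).card = T.card :=
    (card_image_of_injective _ (ZMod.val_injective L)).symm
  rw [hcard]
  have hmem : ∀ k ∈ T, k < L ∧ c ≤ |Real.sin (ang L k)| ∧
      |2 - 2 * Real.cos (ang L k) - E| ≤ r := by
    intro k hk
    rw [hT, mem_image] at hk
    obtain ⟨q, hq, rfl⟩ := hk
    rw [mem_filter, mem_filter, std_re, std_im] at hq
    exact ⟨ZMod.val_lt q, hq.1.2, hq.2⟩
  have hang : ∀ k, k < L → 0 ≤ ang L k ∧ ang L k < 2 * Real.pi := by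
    intro k hk
    have hk' : (k : ℝ) < L := by exact_mod_cast hk
    unfold ang
    constructor
    · positivity
    · rw [div_lt_iff₀ hL0]
      exact mul_lt_mul_of_pos_left hk' (by positivity)
  -- the two arcs
  have h1 : ((T.filter fun k => ang L k ≤ Real.pi).card : ℝ) ≤ L * r / (4 * c) + 1 := by
    refine arc_count hc hL (fun k => ang L k) 0 (fun k => by ring) _ (E := (2 - E) / 2) hr ?_
    intro k hk
    rw [mem_filter] at hk
    obtain ⟨m1, m2, m3⟩ := hmem k hk.1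
    obtain ⟨n1, n2⟩ := hang k m1
    have hs : 0 ≤ Real.sin (ang L k) := Real.sin_nonneg_of_nonneg_of_le_pi n1 hk.2
    refine ⟨n1, hk.2, by rwa [abs_of_nonneg hs] at m2, ?_⟩
    rw [abs_le] at m3 ⊢
    constructor <;> linarith [m3.1, m3.2]
  have h2 : ((T.filter fun k => ¬ ang L k ≤ Real.pi).card : ℝ) ≤ L * r / (4 * c) + 1 := by
    refine arc_count hc hL (fun k => ang L k - Real.pi) Real.pi (fun k => rfl) _
      (E := -((2 - E) / 2)) hr ?_
    intro k hk
    rw [mem_filter, not_le] at hk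
    obtain ⟨m1, m2, m3⟩ := hmem k hk.1
    obtain ⟨n1, n2⟩ := hang k m1
    have hk2 := hk.2
    have hs : 0 ≤ Real.sin (ang L k - Real.pi) :=
      Real.sin_nonneg_of_nonneg_of_le_pi (by linarith) (by linarith)
    have hse : Real.sin (ang L k - Real.pi) = - Real.sin (ang L k) := Real.sin_sub_pi _
    have hce : Real.cos (ang L k - Real.pi) = - Real.cos (ang L k) := Real.cos_sub_pi _
    refine ⟨by linarith, by linarith, ?_, ?_⟩
    · rw [hse] at hs ⊢
      rw [abs_of_nonpos (by linarith)] at m2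
      exact m2
    · rw [hce]
      rw [abs_le] at m3 ⊢
      constructor <;> linarith [m3.1, m3.2]
  have h3 : (T.filter fun k => ang L k ≤ Real.pi).card +
      (T.filter fun k => ¬ ang L k ≤ Real.pi).card = T.card :=
    card_filter_add_card_filter_not _
  have h4 : (T.card : ℝ) = ((T.filter fun k => ang L k ≤ Real.pi).card : ℝ) +
      ((T.filter fun k => ¬ ang L k ≤ Real.pi).card : ℝ) := by exact_mod_cast h3.symm
  rw [h4]
  linarith

theorem pointwise {η : ℝ} (hη : 0 < η) {J : ℕ} (hJ : 1 ≤ 2 ^ J * η) (X : ℝ) :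
    (X ^ 2 + η ^ 2) ^ (-(1 / 2) : ℝ) ≤
      ∑ j ∈ range (J + 1), (if |X| ≤ 2 ^ j * η then 2 * (2 ^ j * η)⁻¹ else 0) + 1 := by
  have e0 : (X ^ 2 + η ^ 2) ^ (-(1 / 2) : ℝ) = (√(X ^ 2 + η ^ 2))⁻¹ := by
    rw [Real.rpow_neg (by positivity), Real.sqrt_eq_rpow]
  have hs1 : |X| ≤ √(X ^ 2 + η ^ 2) := by
    apply Real.le_sqrt_of_sq_le
    rw [sq_abs]
    nlinarith [sq_nonneg η]
  have hs2 : η ≤ √(X ^ 2 + η ^ 2) := by
    apply Real.le_sqrt_of_sq_le
    nlinarith [sq_nonneg X]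
  have hs0 : 0 < √(X ^ 2 + η ^ 2) := hη.trans_le hs2
  have hnn : ∀ j ∈ range (J + 1), 0 ≤ (if |X| ≤ 2 ^ j * η then 2 * (2 ^ j * η)⁻¹ else 0) := by
    intro j _
    split_ifs
    · positivity
    · exact le_rfl
  rw [e0]
  by_cases hX : |X| ≤ 2 ^ J * η
  · have hex : ∃ j : ℕ, |X| ≤ 2 ^ j * η := ⟨J, hX⟩
    classical
    set j := Nat.find hex with hj
    have hj1 : |X| ≤ 2 ^ j * η := Nat.find_spec hex
    have hj2 : j ≤ J := Nat.find_min' hex hX
    have h1 : (√(X ^ 2 + η ^ 2))⁻¹ ≤ 2 * (2 ^ j * η)⁻¹ := by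
      rcases Nat.eq_zero_or_pos j with h0 | h0
      · rw [h0, pow_zero, one_mul]
        have : (√(X ^ 2 + η ^ 2))⁻¹ ≤ η⁻¹ := inv_anti₀ hη hs2
        have : 0 < η⁻¹ := by positivity
        linarith
      · obtain ⟨i, hi⟩ : ∃ i, j = i + 1 := ⟨j - 1, by omega⟩
        have hi1 : ¬ |X| ≤ 2 ^ i * η := Nat.find_min hex (by omega)
        rw [not_le] at hi1
        have h2 : (√(X ^ 2 + η ^ 2))⁻¹ ≤ (2 ^ i * η)⁻¹ :=
          inv_anti₀ (by positivity) (hi1.le.trans hs1)
        refine h2.trans (le_of_eq ?_)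
        rw [hi, pow_succ]
        field_simp
    have h2 := single_le_sum hnn (mem_range.2 (Nat.lt_succ_of_le hj2))
    rw [if_pos hj1] at h2
    linarith
  · rw [not_le] at hX
    have h1 : (√(X ^ 2 + η ^ 2))⁻¹ ≤ 1 := inv_le_one_of_one_le₀ (by linarith)
    have h2 := sum_nonneg hnn
    linarith

theorem one_d (c : ℝ) (hc : 0 < c) : ∃ C : ℝ, 0 < C ∧ ∀ (L : ℕ) [NeZero L] (η : ℝ),
    1 / (L : ℝ) ≤ η → η ≤ 1 / 2 → ∀ E : ℝ,
      (1 / (L : ℝ)) * ∑ q ∈ (Finset.univ : Finset (ZMod L)).filter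
        (fun q => c ≤ |(ZMod.stdAddChar q : ℂ).im|),
          ((2 - 2 * (ZMod.stdAddChar q : ℂ).re - E) ^ 2 + η ^ 2) ^ (-(1 / 2) : ℝ) ≤
            C * Real.log (1 / η) := by
  have hl2 : 0 < Real.log 2 := Real.log_pos (by norm_num)
  refine ⟨(3 * (1 / c + 4) + 1) / Real.log 2, by positivity, fun L _ η h1 h2 E => ?_⟩
  have hL : 0 < L := Nat.pos_of_ne_zero (NeZero.ne L)
  have hL0 : (0 : ℝ) < L := by exact_mod_cast hL
  have hη : 0 < η := lt_of_lt_of_le (by positivity) h1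
  have hηL : η⁻¹ ≤ L := by
    rw [inv_le_comm₀ hη hL0, ← one_div]
    exact h1
  set J := ⌈Real.log (1 / η) / Real.log 2⌉₊ with hJdef
  have hlog : Real.log 2 ≤ Real.log (1 / η) := by
    apply Real.log_le_log (by norm_num)
    rw [le_div_iff₀ hη]
    linarith
  have hJ1 : 1 ≤ 2 ^ J * η := by
    have h3 : Real.log (1 / η) / Real.log 2 ≤ J := Nat.le_ceil _
    rw [div_le_iff₀ hl2] at h3
    have h4 : Real.log (1 / η) ≤ Real.log ((2 : ℝ) ^ J) := by
      rw [Real.log_pow]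
      exact h3
    have h5 := (Real.log_le_log_iff (by positivity) (by positivity)).1 h4
    rwa [div_le_iff₀ hη] at h5
  have hJ2 : (J : ℝ) ≤ Real.log (1 / η) / Real.log 2 + 1 :=
    (Nat.ceil_lt_add_one (div_nonneg (hl2.le.trans hlog) hl2.le)).le
  have hJ3 : (J : ℝ) + 1 ≤ 3 * (Real.log (1 / η) / Real.log 2) := by
    have : 1 ≤ Real.log (1 / η) / Real.log 2 := by
      rw [le_div_iff₀ hl2]
      linarith
    linarith
  set S := (Finset.univ : Finset (ZMod L)).filter (fun q => c ≤ |(ZMod.stdAddChar q : ℂ).im|)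
    with hS
  have hcardS : (S.card : ℝ) ≤ L := by
    have : S.card ≤ (Finset.univ : Finset (ZMod L)).card := card_filter_le _ _
    rw [card_univ, ZMod.card] at this
    exact_mod_cast this
  have hsum : ∑ q ∈ S, ((2 - 2 * (ZMod.stdAddChar q : ℂ).re - E) ^ 2 + η ^ 2) ^ (-(1 / 2) : ℝ) ≤
      L * ((J + 1) * (1 / c + 4) + 1) := by
    calc ∑ q ∈ S, ((2 - 2 * (ZMod.stdAddChar q : ℂ).re - E) ^ 2 + η ^ 2) ^ (-(1 / 2) : ℝ)
        ≤ ∑ q ∈ S, (∑ j ∈ range (J + 1), (if |2 - 2 * (ZMod.stdAddChar q : ℂ).re - E| ≤ 2 ^ j * η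
            then 2 * (2 ^ j * η)⁻¹ else 0) + 1) := sum_le_sum fun q _ => pointwise hη hJ1 _
      _ = ∑ j ∈ range (J + 1), ∑ q ∈ S, (if |2 - 2 * (ZMod.stdAddChar q : ℂ).re - E| ≤ 2 ^ j * η
            then 2 * (2 ^ j * η)⁻¹ else 0) + S.card := by
          rw [sum_add_distrib, sum_comm, sum_const, nsmul_eq_mul, mul_one]
      _ ≤ ∑ j ∈ range (J + 1), (L * (1 / c + 4)) + L := by
          refine add_le_add (sum_le_sum fun j _ => ?_) hcardS
          rw [← sum_filter, sum_const, nsmul_eq_mul]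
          have h6 := count hc L (r := 2 ^ j * η) (by positivity) E
          rw [← hS] at h6
          have hpos : 0 < (2 : ℝ) ^ j * η := by positivity
          have h7 : (2 ^ j * η)⁻¹ ≤ L := by
            refine (inv_anti₀ hη ?_).trans hηL
            have : (1 : ℝ) ≤ 2 ^ j := one_le_pow₀ (by norm_num)
            nlinarith
          calc _ ≤ 2 * (L * (2 ^ j * η) / (4 * c) + 1) * (2 * (2 ^ j * η)⁻¹) :=
                mul_le_mul_of_nonneg_right h6 (by positivity)
            _ = L * (1 / c) + 4 * (2 ^ j * η)⁻¹ := by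
                field_simp
                ring
            _ ≤ L * (1 / c) + 4 * L := by linarith
            _ = L * (1 / c + 4) := by ring
      _ = L * ((J + 1) * (1 / c + 4) + 1) := by
          rw [sum_const, card_range, nsmul_eq_mul]
          push_cast
          ring
  calc (1 / (L : ℝ)) * ∑ q ∈ S, ((2 - 2 * (ZMod.stdAddChar q : ℂ).re - E) ^ 2 + η ^ 2) ^
        (-(1 / 2) : ℝ)
      ≤ (1 / (L : ℝ)) * (L * ((J + 1) * (1 / c + 4) + 1)) :=
        mul_le_mul_of_nonneg_left hsum (by positivity)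
    _ = (J + 1) * (1 / c + 4) + 1 := by
        field_simp
    _ ≤ 3 * (Real.log (1 / η) / Real.log 2) * (1 / c + 4) + Real.log (1 / η) / Real.log 2 := by
        have h8 : ((J : ℝ) + 1) * (1 / c + 4) ≤
            3 * (Real.log (1 / η) / Real.log 2) * (1 / c + 4) :=
          mul_le_mul_of_nonneg_right hJ3 (by positivity)
        have h9 : 1 ≤ Real.log (1 / η) / Real.log 2 := by
          rw [le_div_iff₀ hl2]
          linarith
        linarith
    _ = _ := by ring

end Pool.Agent.Zk60.AE
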