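import Mathlib

set_option autoImplicit false
set_option linter.unusedSectionVars false

namespace Pool.Agent.Zk60.AE

open MeasureTheory Matrix Finset

variable {ι n : Type} [Fintype ι] [DecidableEq ι] [Fintype n] [DecidableEq n]

theorem spec1 {X : Matrix n n ℂ} (hX : X.IsHermitian) : ∃ (U : Matrix n n ℂ) (l : n → ℝ),
    Uᴴ * U = 1 ∧ U * Uᴴ = 1 ∧ X = U * diagonal (fun i => ((l i : ℝ) : ℂ)) * Uᴴ := by
  refine ⟨hX.eigenvectorUnitary, hX.eigenvalues, Unitary.coe_star_mul_self hX.eigenvectorUnitary,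
    Unitary.coe_mul_star_self hX.eigenvectorUnitary, ?_⟩
  conv_lhs => rw [hX.spectral_theorem, Unitary.conjStarAlgAut_apply]
  rfl

theorem spec {X : Matrix n n ℂ} (hX : X.IsHermitian) : ∃ (U : Matrix n n ℂ) (l : n → ℝ),
    Uᴴ * U = 1 ∧ U * Uᴴ = 1 ∧
      ∀ k : ℕ, X ^ k = U * diagonal (fun i => ((l i ^ k : ℝ) : ℂ)) * Uᴴ := by
  obtain ⟨U, l, hU1, hU2, h1⟩ := spec1 hX
  refine ⟨U, l, hU1, hU2, fun k => ?_⟩
  induction k with
  | zero =>
    have : (fun i : n => ((l i ^ 0 : ℝ) : ℂ)) = fun _ => 1 := by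
      ext i
      simp
    rw [this, pow_zero, diagonal_one, mul_one, hU2]
  | succ k ih =>
    have e0 : X ^ (k + 1) = (U * diagonal (fun i => ((l i ^ k : ℝ) : ℂ)) * Uᴴ) *
        (U * diagonal (fun i => ((l i : ℝ) : ℂ)) * Uᴴ) := by
      rw [pow_succ, ih, ← h1]
    have e : U * diagonal (fun i => ((l i ^ k : ℝ) : ℂ)) * Uᴴ *
        (U * diagonal (fun i => ((l i : ℝ) : ℂ)) * Uᴴ) =
        U * (diagonal (fun i => ((l i ^ k : ℝ) : ℂ)) * (Uᴴ * U) *
        diagonal (fun i => ((l i : ℝ) : ℂ))) * Uᴴ := by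
      simp only [Matrix.mul_assoc]
    rw [e0, e, hU1, mul_one, diagonal_mul_diagonal]
    congr 3
    ext i
    push_cast
    ring

/-- The trace of a product of powers of two Hermitian matrices with a Hermitian matrix. -/
theorem tr_formula {X Y D : Matrix n n ℂ} (hX : X.IsHermitian) (hY : Y.IsHermitian)
    (hD : D.IsHermitian) : ∃ (l g : n → ℝ) (w : n → n → ℝ), (∀ i j, 0 ≤ w i j) ∧
      ∀ a c : ℕ, (trace (D * X ^ a * (D * Y ^ c))).re = ∑ i, ∑ j, l i ^ a * g j ^ c * w i j := by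
  obtain ⟨U, l, hU1, hU2, hU⟩ := spec hX
  obtain ⟨W, g, hW1, hW2, hW⟩ := spec hY
  set E := Wᴴ * D * U with hE
  have hE' : Uᴴ * D * W = Eᴴ := by
    rw [hE, conjTranspose_mul, conjTranspose_mul, conjTranspose_conjTranspose, hD.eq,
      Matrix.mul_assoc]
  refine ⟨l, g, fun i j => ‖E j i‖ ^ 2, fun i j => sq_nonneg _, fun a c => ?_⟩
  have h1 : trace (D * X ^ a * (D * Y ^ c)) =
      trace (E * diagonal (fun i => ((l i ^ a : ℝ) : ℂ)) * (Eᴴ *
        diagonal (fun i => ((g i ^ c : ℝ) : ℂ)))) := by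
    rw [hU, hW]
    have e1 : D * (U * diagonal (fun i => ((l i ^ a : ℝ) : ℂ)) * Uᴴ) *
        (D * (W * diagonal (fun i => ((g i ^ c : ℝ) : ℂ)) * Wᴴ)) =
        (D * U * diagonal (fun i => ((l i ^ a : ℝ) : ℂ)) * (Uᴴ * D * W) *
          diagonal (fun i => ((g i ^ c : ℝ) : ℂ))) * Wᴴ := by
      simp only [Matrix.mul_assoc]
    rw [e1, trace_mul_comm, hE', hE]
    simp only [Matrix.mul_assoc]
  rw [h1]
  simp only [trace, diag_apply, mul_apply (M := E * _), mul_diagonal, conjTranspose_apply]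
  rw [Finset.sum_comm, Complex.re_sum]
  refine Finset.sum_congr rfl fun i _ => ?_
  rw [Complex.re_sum]
  refine Finset.sum_congr rfl fun j _ => ?_
  have e2 : E j i * ((l i ^ a : ℝ) : ℂ) * (star (E j i) * ((g j ^ c : ℝ) : ℂ)) =
      ((l i ^ a * g j ^ c * ‖E j i‖ ^ 2 : ℝ) : ℂ) := by
    have : E j i * star (E j i) = ((‖E j i‖ ^ 2 : ℝ) : ℂ) := by
      rw [Complex.star_def, Complex.mul_conj, Complex.normSq_eq_norm_sq]
    push_cast at this ⊢
    linear_combination ((l i : ℂ) ^ a * (g j : ℂ) ^ c) * this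
  rw [e2, Complex.ofReal_re]

theorem pow_pair (x y : ℝ) (a c q : ℕ) (h : a + c = 2 * q) :
    x ^ a * y ^ c + x ^ c * y ^ a ≤ x ^ (2 * q) + y ^ (2 * q) := by
  have h1 : x ^ (2 * q) = |x| ^ a * |x| ^ c := by
    rw [← pow_add, h, (even_two_mul q).pow_abs]
  have h2 : y ^ (2 * q) = |y| ^ a * |y| ^ c := by
    rw [← pow_add, h, (even_two_mul q).pow_abs]
  have h3 : x ^ a * y ^ c ≤ |x| ^ a * |y| ^ c := by
    rw [← abs_pow, ← abs_pow, ← abs_mul]
    exact le_abs_self _
  have h4 : x ^ c * y ^ a ≤ |x| ^ c * |y| ^ a := by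
    rw [← abs_pow, ← abs_pow, ← abs_mul]
    exact le_abs_self _
  have h5 : 0 ≤ (|x| ^ a - |y| ^ a) * (|x| ^ c - |y| ^ c) := by
    rcases le_total |x| |y| with h | h
    · apply mul_nonneg_of_nonpos_of_nonpos
      · have := pow_le_pow_left₀ (abs_nonneg x) h a
        linarith
      · have := pow_le_pow_left₀ (abs_nonneg x) h c
        linarith
    · apply mul_nonneg
      · have := pow_le_pow_left₀ (abs_nonneg y) h a
        linarith
      · have := pow_le_pow_left₀ (abs_nonneg y) h c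
        linarith
  rw [h1, h2]
  nlinarith

theorem pow_sum (x y : ℝ) (q : ℕ) :
    ∑ a ∈ range (2 * q + 1), x ^ a * y ^ (2 * q - a) ≤
      (2 * q + 1 : ℕ) / 2 * (x ^ (2 * q) + y ^ (2 * q)) := by
  have h1 : ∑ a ∈ range (2 * q + 1), x ^ a * y ^ (2 * q - a) =
      ∑ a ∈ range (2 * q + 1), x ^ (2 * q - a) * y ^ a := by
    rw [← Finset.sum_range_reflect]
    refine Finset.sum_congr rfl fun a ha => ?_
    have : a < 2 * q + 1 := Finset.mem_range.1 ha
    congr 2
    omega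
  have h2 : ∑ a ∈ range (2 * q + 1), (x ^ a * y ^ (2 * q - a) + x ^ (2 * q - a) * y ^ a) ≤
      ∑ a ∈ range (2 * q + 1), (x ^ (2 * q) + y ^ (2 * q)) := by
    refine Finset.sum_le_sum fun a ha => ?_
    have : a < 2 * q + 1 := Finset.mem_range.1 ha
    exact pow_pair x y a (2 * q - a) q (by omega)
  rw [Finset.sum_add_distrib, ← h1, Finset.sum_const, Finset.card_range, nsmul_eq_mul] at h2
  linarith

theorem pow_sub_pow' {R : Type} [Ring R] (X Y : R) (N : ℕ) :
    X ^ (N + 1) - Y ^ (N + 1) = ∑ j ∈ range (N + 1), X ^ j * (X - Y) * Y ^ (N - j) := by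
  induction N with
  | zero => simp
  | succ N ih =>
    rw [Finset.sum_range_succ, Nat.sub_self, pow_zero, mul_one]
    have h1 : ∑ j ∈ range (N + 1), X ^ j * (X - Y) * Y ^ (N + 1 - j) =
        (∑ j ∈ range (N + 1), X ^ j * (X - Y) * Y ^ (N - j)) * Y := by
      rw [Finset.sum_mul]
      refine Finset.sum_congr rfl fun j hj => ?_
      have : j < N + 1 := Finset.mem_range.1 hj
      rw [show N + 1 - j = (N - j) + 1 by omega, pow_succ, mul_assoc, mul_assoc, mul_assoc]
    rw [h1, ← ih, pow_succ X (N + 1), pow_succ Y (N + 1)]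
    noncomm_ring

/-- The main inequality for two Hermitian matrices. -/
theorem two_mat {X Y D : Matrix n n ℂ} (hX : X.IsHermitian) (hY : Y.IsHermitian)
    (hD : D = X - Y) (q : ℕ) :
    (trace (D * (X ^ (2 * q + 1) - Y ^ (2 * q + 1)))).re ≤
      (2 * q + 1 : ℕ) / 2 * ((trace (D * X ^ (2 * q) * D)).re + (trace (D * Y ^ (2 * q) * D)).re) := by
  have hDh : D.IsHermitian := by rw [hD]; exact hX.sub hY
  obtain ⟨l, g, w, hw, hf⟩ := tr_formula hX hY hDh
  have h1 : (trace (D * (X ^ (2 * q + 1) - Y ^ (2 * q + 1)))).re =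
      ∑ a ∈ range (2 * q + 1), ∑ i, ∑ j, l i ^ a * g j ^ (2 * q - a) * w i j := by
    rw [pow_sub_pow', ← hD, Finset.mul_sum, trace_sum, Complex.re_sum]
    refine Finset.sum_congr rfl fun a _ => ?_
    rw [← hf]
    simp only [Matrix.mul_assoc]
  have h2 : (trace (D * X ^ (2 * q) * D)).re = ∑ i, ∑ j, l i ^ (2 * q) * w i j := by
    have := hf (2 * q) 0
    simp only [pow_zero, mul_one] at this
    exact this
  have h3 : (trace (D * Y ^ (2 * q) * D)).re = ∑ i, ∑ j, g j ^ (2 * q) * w i j := by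
    have := hf 0 (2 * q)
    simp only [pow_zero, mul_one, one_mul] at this
    rw [← this, trace_mul_comm]
  rw [h1, h2, h3, Finset.sum_comm, ← Finset.sum_add_distrib, Finset.mul_sum]
  refine Finset.sum_le_sum fun i _ => ?_
  rw [Finset.sum_comm, ← Finset.sum_add_distrib, Finset.mul_sum]
  refine Finset.sum_le_sum fun j _ => ?_
  rw [← Finset.sum_mul, ← add_mul, ← mul_assoc]
  exact mul_le_mul_of_nonneg_right (pow_sum _ _ _) (hw i j)

/-! ### One coordinate -/

section one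

variable {μ : Measure ℝ} [IsProbabilityMeasure μ] {b m : ℝ}

theorem cont_int1 (hμ : ∀ᵐ s ∂μ, |s - m| ≤ b) {g : ℝ → ℝ} (hg : Continuous g) :
    Integrable g μ := by
  obtain ⟨C, hC⟩ := (isCompact_Icc (a := m - b) (b := m + b)).exists_bound_of_continuousOn
    hg.continuousOn
  refine Integrable.of_bound hg.aestronglyMeasurable C ?_
  filter_upwards [hμ] with s hs
  exact hC s ⟨by linarith [(abs_le.1 hs).1], by linarith [(abs_le.1 hs).2]⟩

theorem one_dim (hμ : ∀ᵐ s ∂μ, |s - m| ≤ b) (hm : ∫ s, s ∂μ = m) {g h : ℝ → ℝ}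
    (hg : Continuous g) (hh : Continuous h) (hh0 : ∀ t, 0 ≤ h t) {K : ℝ} (hK : 0 ≤ K)
    (key : ∀ s t, (s - t) * (g s - g t) ≤ K * (s - t) ^ 2 * (h s + h t)) :
    ∫ t, (t - m) * g t ∂μ ≤ 4 * K * b ^ 2 * ∫ t, h t ∂μ := by
  have hint : ∀ {f : ℝ → ℝ}, Continuous f → Integrable f μ := fun hf => cont_int1 hμ hf
  set G := ∫ t, g t ∂μ with hG
  set TG := ∫ t, t * g t ∂μ with hTG
  set H := ∫ t, h t ∂μ with hH
  have e1 : ∀ s, ∫ t, (s - t) * (g s - g t) ∂μ = s * g s - s * G - (m * g s - TG) := by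
    intro s
    have e : (fun t => (s - t) * (g s - g t)) =
        fun t => (s * g s - s * g t) - (t * g s - t * g t) := by
      ext t
      ring
    rw [e, integral_sub (hint (by fun_prop)) (hint (by fun_prop)),
      integral_sub (hint (by fun_prop)) (hint (by fun_prop)),
      integral_sub (hint (by fun_prop)) (hint (by fun_prop)), integral_const_mul,
      integral_mul_const, hm]
    simp [hG, hTG, integral_const_mul]
  have h1 : ∀ᵐ s ∂μ, s * g s - s * G - (m * g s - TG) ≤ 4 * K * b ^ 2 * (h s + H) := by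
    filter_upwards [hμ] with s hs
    rw [← e1 s]
    have e2 : 4 * K * b ^ 2 * (h s + H) = ∫ t, 4 * K * b ^ 2 * (h s + h t) ∂μ := by
      rw [integral_const_mul, integral_add (hint (by fun_prop)) (hint hh)]
      simp [hH]
    rw [e2]
    refine integral_mono_ae (hint (by fun_prop)) (hint (by fun_prop)) ?_
    filter_upwards [hμ] with t ht
    refine (key s t).trans ?_
    have h3 : (s - t) ^ 2 ≤ 4 * b ^ 2 := by
      have a1 := abs_le.1 hs
      have a2 := abs_le.1 ht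
      nlinarith
    have h4 : 0 ≤ h s + h t := add_nonneg (hh0 s) (hh0 t)
    have h5 : K * (s - t) ^ 2 ≤ K * (4 * b ^ 2) := mul_le_mul_of_nonneg_left h3 hK
    calc K * (s - t) ^ 2 * (h s + h t) ≤ K * (4 * b ^ 2) * (h s + h t) :=
          mul_le_mul_of_nonneg_right h5 h4
      _ = 4 * K * b ^ 2 * (h s + h t) := by ring
  have h2 := integral_mono_ae (hint (by fun_prop)) (hint (by fun_prop)) h1
  rw [integral_sub (hint (by fun_prop)) (hint (by fun_prop)),
    integral_sub (hint (by fun_prop)) (hint (by fun_prop)),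
    integral_sub (hint (by fun_prop)) (hint (by fun_prop)), integral_mul_const,
    integral_const_mul, integral_const_mul, hm, integral_add (hint hh) (hint (by fun_prop))] at h2
  have e3 : ∫ t, (t - m) * g t ∂μ = TG - m * G := by
    have e : (fun t => (t - m) * g t) = fun t => t * g t - m * g t := by
      ext t
      ring
    rw [e, integral_sub (hint (by fun_prop)) (hint (by fun_prop)), integral_const_mul]
  rw [e3]
  simp only [integral_const, probReal_univ, smul_eq_mul, one_mul] at h2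
  rw [← hTG, ← hG, ← hH] at h2
  linarith

end one

/-! ### Several coordinates -/

section many

variable {μ : Measure ℝ} [IsProbabilityMeasure μ] {b m : ℝ}

theorem ae_box (hμ : ∀ᵐ s ∂μ, |s - m| ≤ b) :
    ∀ᵐ V ∂(Measure.pi fun _ : ι => μ), ∀ i, |V i - m| ≤ b := by
  rw [ae_all_iff]
  intro i
  exact (Measure.tendsto_eval_ae_ae (μ := fun _ : ι => μ) (i := i)).eventually hμ

theorem cont_int (hμ : ∀ᵐ s ∂μ, |s - m| ≤ b) {f : (ι → ℝ) → ℝ} (hf : Continuous f) :
    Integrable f (Measure.pi fun _ : ι => μ) := by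
  obtain ⟨C, hC⟩ := (isCompact_univ_pi fun _ : ι => isCompact_Icc (a := m - b) (b := m + b)).exists_bound_of_continuousOn
    hf.continuousOn
  refine Integrable.of_bound hf.aestronglyMeasurable C ?_
  filter_upwards [ae_box hμ] with V hV
  exact hC V fun i _ => ⟨by linarith [(abs_le.1 (hV i)).1], by linarith [(abs_le.1 (hV i)).2]⟩

theorem cont_upd (x : ι) : Continuous fun q : (ι → ℝ) × ℝ => Function.update q.1 x q.2 :=
  continuous_fst.update x continuous_snd

variable (μ) in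
theorem upd_map (x : ι) : Measure.map (fun q : (ι → ℝ) × ℝ => Function.update q.1 x q.2)
    ((Measure.pi fun _ : ι => μ).prod μ) = Measure.pi fun _ : ι => μ := by
  symm
  refine Measure.pi_eq fun s hs => ?_
  rw [Measure.map_apply (cont_upd x).measurable (MeasurableSet.univ_pi hs)]
  have e : (fun q : (ι → ℝ) × ℝ => Function.update q.1 x q.2) ⁻¹' (Set.pi Set.univ s) =
      (Set.pi Set.univ (Function.update s x Set.univ)) ×ˢ s x := by
    ext q
    simp only [Set.mem_preimage, Set.mem_pi, Set.mem_univ, true_implies, Set.mem_prod]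
    constructor
    · intro h
      refine ⟨fun i => ?_, ?_⟩
      · by_cases hi : i = x
        · subst hi
          simp
        · have := h i
          rw [Function.update_of_ne hi] at this
          rwa [Function.update_of_ne hi]
      · have := h x
        rwa [Function.update_self] at this
    · rintro ⟨h1, h2⟩ i
      by_cases hi : i = x
      · subst hi
        rwa [Function.update_self]
      · have := h1 i
        rw [Function.update_of_ne hi] at this
        rwa [Function.update_of_ne hi]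
  rw [e, Measure.prod_prod, Measure.pi_pi, ← Finset.prod_erase_mul _ _ (Finset.mem_univ x),
    ← Finset.prod_erase_mul (s := Finset.univ) (fun i => μ (s i)) (Finset.mem_univ x),
    Function.update_self, measure_univ, mul_one]
  congr 1
  refine Finset.prod_congr rfl fun i hi => ?_
  rw [Function.update_of_ne (Finset.ne_of_mem_erase hi)]

theorem upd_int (hμ : ∀ᵐ s ∂μ, |s - m| ≤ b) (x : ι) {f : (ι → ℝ) → ℝ} (hf : Continuous f) :
    Integrable (fun q : (ι → ℝ) × ℝ => f (Function.update q.1 x q.2))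
      ((Measure.pi fun _ : ι => μ).prod μ) := by
  have h := cont_int (ι := ι) hμ hf
  rw [← upd_map μ x] at h
  exact (integrable_map_measure hf.aestronglyMeasurable (cont_upd x).aemeasurable).1 h

theorem resample (hμ : ∀ᵐ s ∂μ, |s - m| ≤ b) (x : ι) {f : (ι → ℝ) → ℝ} (hf : Continuous f) :
    ∫ V, f V ∂(Measure.pi fun _ : ι => μ) =
      ∫ V, ∫ t, f (Function.update V x t) ∂μ ∂(Measure.pi fun _ : ι => μ) := by
  conv_lhs => rw [← upd_map μ x]
  rw [integral_map (cont_upd x).aemeasurable hf.aestronglyMeasurable,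
    integral_prod _ (upd_int hμ x hf)]

end many

/-! ### The random matrix -/

/-- The matrix `∑ (V x - m) A x`. -/
noncomputable def XM (A : ι → Matrix n n ℂ) (m : ℝ) (V : ι → ℝ) : Matrix n n ℂ :=
  ∑ x, ((V x - m : ℝ) : ℂ) • A x

theorem XM_herm {A : ι → Matrix n n ℂ} (hA : ∀ x, (A x).IsHermitian) (m : ℝ) (V : ι → ℝ) :
    (XM A m V).IsHermitian := by
  unfold XM IsHermitian
  rw [conjTranspose_sum]
  refine Finset.sum_congr rfl fun x _ => ?_
  rw [conjTranspose_smul, (hA x).eq]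
  simp

theorem XM_mul (A : ι → Matrix n n ℂ) (m : ℝ) (V : ι → ℝ) (M : Matrix n n ℂ) :
    XM A m V * M = ∑ x, ((V x - m : ℝ) : ℂ) • (A x * M) := by
  unfold XM
  rw [Finset.sum_mul]
  exact Finset.sum_congr rfl fun x _ => Matrix.smul_mul _ _ _

theorem XM_cont (A : ι → Matrix n n ℂ) (m : ℝ) : Continuous (XM A m) := by
  unfold XM
  fun_prop

theorem XM_upd (A : ι → Matrix n n ℂ) (m : ℝ) (V : ι → ℝ) (x : ι) (s t : ℝ) :
    XM A m (Function.update V x s) - XM A m (Function.update V x t) = ((s - t : ℝ) : ℂ) • A x := by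
  unfold XM
  rw [← Finset.sum_sub_distrib, Finset.sum_eq_single x]
  · rw [Function.update_self, Function.update_self, ← sub_smul]
    congr 1
    push_cast
    ring
  · intro y _ hy
    rw [Function.update_of_ne hy, Function.update_of_ne hy, sub_self]
  · intro h
    exact absurd (Finset.mem_univ x) h

theorem tr_mul_conj (C : Matrix n n ℂ) : (trace (C * Cᴴ)).re = ∑ i, ∑ k, ‖C i k‖ ^ 2 := by
  simp only [trace, diag_apply, mul_apply, conjTranspose_apply]
  rw [Complex.re_sum]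
  refine Finset.sum_congr rfl fun i _ => ?_
  rw [Complex.re_sum]
  refine Finset.sum_congr rfl fun k _ => ?_
  rw [Complex.star_def, Complex.mul_conj, Complex.normSq_eq_norm_sq, Complex.ofReal_re]

theorem h_eq {A X : Matrix n n ℂ} (hA : A.IsHermitian) (hX : X.IsHermitian) (q : ℕ) :
    (trace (A * X ^ (2 * q) * A)).re = ∑ i, ∑ k, ‖(A * X ^ q) i k‖ ^ 2 := by
  rw [← tr_mul_conj, conjTranspose_mul, hA.eq, conjTranspose_pow, hX.eq, two_mul, pow_add]
  simp only [Matrix.mul_assoc]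

theorem e_eq {X : Matrix n n ℂ} (hX : X.IsHermitian) (q : ℕ) :
    (trace (X ^ (2 * q))).re = ∑ i, ∑ k, ‖(X ^ q) i k‖ ^ 2 := by
  rw [← tr_mul_conj, conjTranspose_pow, hX.eq, two_mul, pow_add]

section main

variable {A : ι → Matrix n n ℂ} {b v m : ℝ} {μ : Measure ℝ} [IsProbabilityMeasure μ]

theorem sum_h (hA : ∀ x, (A x).IsHermitian)
    (hv : ∀ z : n → ℂ, ∑ x, ∑ i, ‖((A x).mulVec z) i‖ ^ 2 ≤ v * ∑ i, ‖z i‖ ^ 2)
    {X : Matrix n n ℂ} (hX : X.IsHermitian) (q : ℕ) :
    ∑ x, (trace (A x * X ^ (2 * q) * A x)).re ≤ v * (trace (X ^ (2 * q))).re := by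
  rw [e_eq hX, Finset.sum_congr rfl fun x _ => h_eq (hA x) hX q]
  have h1 : ∀ x, ∑ i, ∑ k, ‖(A x * X ^ q) i k‖ ^ 2 =
      ∑ k, ∑ i, ‖((A x).mulVec fun l => (X ^ q) l k) i‖ ^ 2 := by
    intro x
    rw [Finset.sum_comm]
    rfl
  rw [Finset.sum_congr rfl fun x _ => h1 x, Finset.sum_comm, Finset.sum_comm (s := Finset.univ)
    (t := Finset.univ) (f := fun i k => ‖(X ^ q) i k‖ ^ 2), Finset.mul_sum]
  exact Finset.sum_le_sum fun k _ => hv _

theorem step_x (hA : ∀ x, (A x).IsHermitian) (hμ : ∀ᵐ s ∂μ, |s - m| ≤ b)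
    (hm : ∫ s, s ∂μ = m) (q : ℕ) (x : ι) :
    ∫ V, (V x - m) * (trace (A x * XM A m V ^ (2 * q + 1))).re ∂(Measure.pi fun _ : ι => μ) ≤
      2 * (2 * q + 1) * b ^ 2 * ∫ V, (trace (A x * XM A m V ^ (2 * q) * A x)).re
        ∂(Measure.pi fun _ : ι => μ) := by
  have hX := XM_cont A m
  have hg : Continuous fun V : ι → ℝ => (trace (A x * XM A m V ^ (2 * q + 1))).re := by
    fun_prop
  have hh : Continuous fun V : ι → ℝ => (trace (A x * XM A m V ^ (2 * q) * A x)).re := by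
    fun_prop
  have hu : ∀ V : ι → ℝ, Continuous fun t : ℝ => Function.update V x t := fun V =>
    continuous_const.update x continuous_id
  have hf1 : Continuous fun V : ι → ℝ => (V x - m) * (trace (A x * XM A m V ^ (2 * q + 1))).re := by
    fun_prop
  rw [resample hμ x hf1, resample hμ x hh, ← integral_const_mul]
  refine integral_mono (upd_int hμ x hf1).integral_prod_left
    ((upd_int hμ x hh).integral_prod_left.const_mul _) fun V => ?_
  have hone := one_dim (μ := μ) (b := b) (m := m) hμ hm (hg.comp (hu V)) (hh.comp (hu V))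
    (K := (2 * q + 1 : ℕ) / 2) (fun t => ?_) (by positivity) (fun s t => ?_)
  · simp only [Function.update_self]
    refine hone.trans (le_of_eq ?_)
    push_cast
    simp only [Function.comp_def]
    ring
  · simp only [Function.comp_apply]
    rw [h_eq (hA x) (XM_herm hA m _)]
    positivity
  · have h1 := two_mat (XM_herm hA m (Function.update V x s)) (XM_herm hA m (Function.update V x t))
      (XM_upd A m V x s t).symm q
    simp only [Function.comp_apply]
    have e1 : (trace (((s - t : ℝ) : ℂ) • A x * (XM A m (Function.update V x s) ^ (2 * q + 1) -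
        XM A m (Function.update V x t) ^ (2 * q + 1)))).re =
        (s - t) * ((trace (A x * XM A m (Function.update V x s) ^ (2 * q + 1))).re -
          (trace (A x * XM A m (Function.update V x t) ^ (2 * q + 1))).re) := by
      rw [Matrix.smul_mul, trace_smul, smul_eq_mul, Complex.re_ofReal_mul, mul_sub (A x),
        trace_sub, Complex.sub_re]
    have e2 : ∀ r : ℝ, (trace (((s - t : ℝ) : ℂ) • A x *
        XM A m (Function.update V x r) ^ (2 * q) * ((s - t : ℝ) : ℂ) • A x)).re =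
        (s - t) ^ 2 * (trace (A x * XM A m (Function.update V x r) ^ (2 * q) * A x)).re := by
      intro r
      rw [Matrix.smul_mul, Matrix.smul_mul, Matrix.mul_smul, trace_smul, trace_smul, smul_eq_mul,
        smul_eq_mul, Complex.re_ofReal_mul, Complex.re_ofReal_mul]
      ring
    rw [e1, e2, e2] at h1
    refine h1.trans (le_of_eq ?_)
    ring

theorem step (hA : ∀ x, (A x).IsHermitian) (hb : 0 ≤ b) (hv0 : 0 ≤ v)
    (hv : ∀ z : n → ℂ, ∑ x, ∑ i, ‖((A x).mulVec z) i‖ ^ 2 ≤ v * ∑ i, ‖z i‖ ^ 2)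
    (hμ : ∀ᵐ s ∂μ, |s - m| ≤ b) (hm : ∫ s, s ∂μ = m) (q : ℕ) :
    ∫ V, (trace (XM A m V ^ (2 * (q + 1)))).re ∂(Measure.pi fun _ : ι => μ) ≤
      2 * (2 * q + 1) * b ^ 2 * (v * ∫ V, (trace (XM A m V ^ (2 * q))).re
        ∂(Measure.pi fun _ : ι => μ)) := by
  have hX := XM_cont A m
  have e1 : ∀ V : ι → ℝ, (trace (XM A m V ^ (2 * (q + 1)))).re =
      ∑ x, (V x - m) * (trace (A x * XM A m V ^ (2 * q + 1))).re := by
    intro V
    rw [show 2 * (q + 1) = (2 * q + 1) + 1 by ring, pow_succ', XM_mul, trace_sum, Complex.re_sum]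
    refine Finset.sum_congr rfl fun x _ => ?_
    rw [trace_smul, smul_eq_mul, Complex.re_ofReal_mul]
  simp only [e1]
  rw [integral_finsetSum _ fun x _ => cont_int hμ (by fun_prop)]
  calc ∑ x, ∫ V, (V x - m) * (trace (A x * XM A m V ^ (2 * q + 1))).re
        ∂(Measure.pi fun _ : ι => μ)
      ≤ ∑ x, 2 * (2 * q + 1) * b ^ 2 * ∫ V, (trace (A x * XM A m V ^ (2 * q) * A x)).re
        ∂(Measure.pi fun _ : ι => μ) := Finset.sum_le_sum fun x _ => step_x hA hμ hm q x
    _ = 2 * (2 * q + 1) * b ^ 2 * ∫ V, ∑ x, (trace (A x * XM A m V ^ (2 * q) * A x)).re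
        ∂(Measure.pi fun _ : ι => μ) := by
        rw [integral_finsetSum _ fun x _ => cont_int hμ (by fun_prop), Finset.mul_sum]
    _ ≤ 2 * (2 * q + 1) * b ^ 2 * ∫ V, v * (trace (XM A m V ^ (2 * q))).re
        ∂(Measure.pi fun _ : ι => μ) := by
        refine mul_le_mul_of_nonneg_left ?_ (by positivity)
        exact integral_mono (cont_int hμ (by fun_prop)) (cont_int hμ (by fun_prop)) fun V =>
          sum_h hA hv (XM_herm hA m V) q
    _ = _ := by rw [integral_const_mul]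

theorem e_nonneg (hA : ∀ x, (A x).IsHermitian) (q : ℕ) :
    0 ≤ ∫ V, (trace (XM A m V ^ (2 * q))).re ∂(Measure.pi fun _ : ι => μ) := by
  refine integral_nonneg fun V => ?_
  show 0 ≤ (trace (XM A m V ^ (2 * q))).re
  rw [e_eq (XM_herm hA m V)]
  positivity

end main

/-- Matrix Khintchine inequality for the moments. -/
theorem khin (A : ι → Matrix n n ℂ) (hA : ∀ x, (A x).IsHermitian) (b v m : ℝ) (hb : 0 ≤ b)
    (hv0 : 0 ≤ v) (hv : ∀ z : n → ℂ, ∑ x, ∑ i, ‖((A x).mulVec z) i‖ ^ 2 ≤ v * ∑ i, ‖z i‖ ^ 2)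
    (μ : Measure ℝ) [IsProbabilityMeasure μ] (hμ : ∀ᵐ s ∂μ, |s - m| ≤ b) (hm : ∫ s, s ∂μ = m)
    (p : ℕ) :
    ∫ V, (Matrix.trace ((∑ x, ((V x - m : ℝ) : ℂ) • A x) ^ (2 * p))).re
      ∂(Measure.pi fun _ : ι => μ) ≤ Fintype.card n * (4 * b ^ 2 * p * v) ^ p := by
  have main : ∀ q : ℕ, ∫ V, (trace (XM A m V ^ (2 * q))).re ∂(Measure.pi fun _ : ι => μ) ≤
      Fintype.card n * (4 * b ^ 2 * q * v) ^ q := by
    intro q
    induction q with
    | zero => simp
    | succ q ih =>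
      refine (step hA hb hv0 hv hμ hm q).trans ?_
      have h0 := e_nonneg (μ := μ) (m := m) hA q
      have h1 : (4 * b ^ 2 * q * v) ^ q ≤ (4 * b ^ 2 * ((q + 1 : ℕ) : ℝ) * v) ^ q := by
        refine pow_le_pow_left₀ (by positivity) ?_ q
        push_cast
        have : 0 ≤ 4 * b ^ 2 * v := by positivity
        nlinarith
      have h2 : (0 : ℝ) ≤ Fintype.card n := by positivity
      have h3 : (2 * (2 * (q : ℝ) + 1) * b ^ 2) * v ≤ 4 * b ^ 2 * ((q + 1 : ℕ) : ℝ) * v := by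
        push_cast
        have : 0 ≤ b ^ 2 * v := by positivity
        nlinarith
      calc 2 * (2 * (q : ℝ) + 1) * b ^ 2 * (v * ∫ V, (trace (XM A m V ^ (2 * q))).re
            ∂(Measure.pi fun _ : ι => μ))
          = (2 * (2 * (q : ℝ) + 1) * b ^ 2) * v * ∫ V, (trace (XM A m V ^ (2 * q))).re
            ∂(Measure.pi fun _ : ι => μ) := by ring
        _ ≤ (4 * b ^ 2 * ((q + 1 : ℕ) : ℝ) * v) *
            (Fintype.card n * (4 * b ^ 2 * ((q + 1 : ℕ) : ℝ) * v) ^ q) := by
            refine mul_le_mul h3 (ih.trans (mul_le_mul_of_nonneg_left h1 h2)) h0 (by positivity)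
        _ = _ := by ring
  exact main p

theorem norm_of_trace {X : Matrix n n ℂ} (hX : X.IsHermitian) {p : ℕ} (hp : 1 ≤ p) {s : ℝ}
    (hs : 0 < s) (h : (trace (X ^ (2 * p))).re ≤ s ^ (2 * p)) (z : n → ℂ) :
    ∑ i, ‖(X.mulVec z) i‖ ^ 2 ≤ s ^ 2 * ∑ i, ‖z i‖ ^ 2 := by
  obtain ⟨U, l, hU1, hU2, hU⟩ := spec hX
  have hnsq : ∀ y : n → ℂ, ((∑ i, ‖y i‖ ^ 2 : ℝ) : ℂ) = star y ⬝ᵥ y := by
    intro y
    rw [dotProduct, Complex.ofReal_sum]
    refine Finset.sum_congr rfl fun i _ => ?_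
    rw [Pi.star_apply, Complex.star_def, mul_comm, Complex.mul_conj, Complex.normSq_eq_norm_sq]
  have hiso : ∀ (W : Matrix n n ℂ), Wᴴ * W = 1 → ∀ y : n → ℂ,
      ∑ i, ‖(W.mulVec y) i‖ ^ 2 = ∑ i, ‖y i‖ ^ 2 := by
    intro W hW y
    have : ((∑ i, ‖(W.mulVec y) i‖ ^ 2 : ℝ) : ℂ) = ((∑ i, ‖y i‖ ^ 2 : ℝ) : ℂ) := by
      rw [hnsq, hnsq, star_mulVec, dotProduct_mulVec, vecMul_vecMul, hW, vecMul_one]
    exact_mod_cast this
  have htr : (trace (X ^ (2 * p))).re = ∑ i, l i ^ (2 * p) := by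
    rw [hU, trace_mul_comm, ← Matrix.mul_assoc, hU1, one_mul, trace_diagonal, ← Complex.ofReal_sum,
      Complex.ofReal_re]
  rw [htr] at h
  have hl : ∀ i, l i ^ 2 ≤ s ^ 2 := by
    intro i
    have h1 : l i ^ (2 * p) ≤ s ^ (2 * p) :=
      (Finset.single_le_sum (f := fun i => l i ^ (2 * p))
        (fun i _ => (even_two_mul p).pow_nonneg _) (Finset.mem_univ i)).trans h
    rw [pow_mul, pow_mul] at h1
    exact (pow_le_pow_iff_left₀ (sq_nonneg _) (sq_nonneg _) (by omega)).1 h1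
  have hX1 : X.mulVec z = U.mulVec ((diagonal (fun i => ((l i : ℝ) : ℂ))).mulVec (Uᴴ.mulVec z)) := by
    have := hU 1
    simp only [pow_one] at this
    conv_lhs => rw [this]
    rw [mulVec_mulVec, mulVec_mulVec]
  have hU2' : (Uᴴ)ᴴ * Uᴴ = 1 := by rw [conjTranspose_conjTranspose, hU2]
  rw [hX1, hiso U hU1, ← hiso Uᴴ hU2' z, Finset.mul_sum]
  refine Finset.sum_le_sum fun i _ => ?_
  rw [mulVec_diagonal, norm_mul, mul_pow, Complex.norm_real, Real.norm_eq_abs, sq_abs]
  exact mul_le_mul_of_nonneg_right (hl i) (sq_nonneg _)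

/-- Matrix Khintchine inequality for the tails. -/
theorem khin_tail (A : ι → Matrix n n ℂ) (hA : ∀ x, (A x).IsHermitian) (b v m : ℝ) (hb : 0 ≤ b)
    (hv0 : 0 ≤ v) (hv : ∀ z : n → ℂ, ∑ x, ∑ i, ‖((A x).mulVec z) i‖ ^ 2 ≤ v * ∑ i, ‖z i‖ ^ 2)
    (μ : Measure ℝ) [IsProbabilityMeasure μ] (hμ : ∀ᵐ s ∂μ, |s - m| ≤ b) (hm : ∫ s, s ∂μ = m)
    (p : ℕ) (hp : 1 ≤ p) (s : ℝ) (hs : 0 < s) :
    ∃ Bad : Set (ι → ℝ), MeasurableSet Bad ∧
      (Measure.pi fun _ : ι => μ).real Bad ≤ Fintype.card n * (4 * b ^ 2 * p * v / s ^ 2) ^ p ∧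
      ∀ V, V ∉ Bad → ∀ z : n → ℂ,
        ∑ i, ‖((∑ x, ((V x - m : ℝ) : ℂ) • A x).mulVec z) i‖ ^ 2 ≤ s ^ 2 * ∑ i, ‖z i‖ ^ 2 := by
  have hX := XM_cont A m
  have hc : Continuous fun V : ι → ℝ => (trace (XM A m V ^ (2 * p))).re := by fun_prop
  have hs2 : 0 < s ^ (2 * p) := by positivity
  refine ⟨{V | s ^ (2 * p) ≤ (trace (XM A m V ^ (2 * p))).re},
    (isClosed_le continuous_const hc).measurableSet, ?_, ?_⟩
  · have h1 := mul_meas_ge_le_integral_of_nonneg (μ := Measure.pi fun _ : ι => μ)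
      (f := fun V : ι → ℝ => (trace (XM A m V ^ (2 * p))).re)
      (Filter.Eventually.of_forall fun V => ?_) (cont_int hμ hc) (s ^ (2 * p))
    · have h2 := h1.trans (khin A hA b v m hb hv0 hv μ hμ hm p)
      have e : (Fintype.card n : ℝ) * (4 * b ^ 2 * p * v / s ^ 2) ^ p =
          (Fintype.card n * (4 * b ^ 2 * p * v) ^ p) / s ^ (2 * p) := by
        rw [div_pow, ← pow_mul, mul_div_assoc]
      rw [e, le_div_iff₀ hs2, mul_comm]
      exact h2
    · show 0 ≤ (trace (XM A m V ^ (2 * p))).re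
      rw [e_eq (XM_herm hA m V)]
      positivity
  · intro V hV z
    have h1 : (trace (XM A m V ^ (2 * p))).re ≤ s ^ (2 * p) := by
      by_contra hcon
      exact hV (le_of_lt (not_le.1 hcon))
    exact norm_of_trace (XM_herm hA m V) hp hs h1 z

end Pool.Agent.Zk60.AE
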