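import Mathlib

set_option autoImplicit false

/-!
Finite marginals of an infinite product of one probability measure.
-/

namespace Pool.Agent.Zk60.AE

open MeasureTheory

theorem meas_comp {ι κ : Type} (f : ι → κ) :
    Measurable fun (V : κ → ℝ) (x : ι) => V (f x) :=
  measurable_pi_lambda _ fun x => measurable_pi_apply (f x)

theorem marg {ι κ : Type} [Fintype ι] [Countable κ] (f : ι → κ) (hf : Function.Injective f)
    (μ : Measure ℝ) [IsProbabilityMeasure μ] :
    (Measure.infinitePi fun _ : κ => μ).map (fun V x => V (f x)) = Measure.pi fun _ : ι => μ := by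
  classical
  symm
  refine Measure.pi_eq fun s hs => ?_
  rw [Measure.map_apply (meas_comp f) (MeasurableSet.univ_pi hs)]
  -- the sets on the image
  set t : κ → Set ℝ := fun y => if h : ∃ x, f x = y then s h.choose else Set.univ with ht
  have htf : ∀ x, t (f x) = s x := by
    intro x
    have h : ∃ x', f x' = f x := ⟨x, rfl⟩
    simp only [ht]
    rw [dif_pos h, hf h.choose_spec]
  have e : (fun (V : κ → ℝ) (x : ι) => V (f x)) ⁻¹' (Set.pi Set.univ s) =
      Set.pi ((Finset.univ.image f : Finset κ) : Set κ) t := by
    ext V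
    simp only [Set.mem_preimage, Set.mem_pi, Set.mem_univ, true_implies, Finset.mem_coe,
      Finset.mem_image, Finset.mem_univ, true_and]
    constructor
    · rintro h y ⟨x, rfl⟩
      rw [htf]
      exact h x
    · intro h x
      rw [← htf]
      exact h (f x) ⟨x, rfl⟩
  have hm : ∀ y ∈ (Finset.univ.image f : Finset κ), MeasurableSet (t y) := by
    intro y hy
    obtain ⟨x, -, rfl⟩ := Finset.mem_image.1 hy
    rw [htf]
    exact hs x
  rw [e, Measure.infinitePi_pi _ hm, Finset.prod_image fun x _ x' _ h => hf h]
  exact Finset.prod_congr rfl fun x _ => by rw [htf]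

theorem bad_pull {ι κ : Type} [Fintype ι] [Countable κ] (f : ι → κ) (hf : Function.Injective f)
    (μ : Measure ℝ) [IsProbabilityMeasure μ] {Bad : Set (ι → ℝ)} (hBad : MeasurableSet Bad) :
    MeasurableSet {V : κ → ℝ | (fun x => V (f x)) ∈ Bad} ∧
      (Measure.infinitePi fun _ : κ => μ).real {V | (fun x => V (f x)) ∈ Bad} =
        (Measure.pi fun _ : ι => μ).real Bad := by
  refine ⟨(meas_comp f) hBad, ?_⟩
  rw [← marg f hf μ, map_measureReal_apply (meas_comp f) hBad]
  rfl

end Pool.Agent.Zk60.AE
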