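import Pool.Agent.H974R2.Lattice

/-!
The number of clusters after adding an edge.
-/

set_option autoImplicit false
set_option linter.all false

namespace Pool.Agent.Zk60.NW

open H974 Finset

theorem reach_insert (F : Set Edg) (e : Edg) (v u : Vtx) :
    Reach (insert e F) v u ↔ Reach F v u ∨ (Reach F v (src e) ∧ Reach F (tgt e) u) ∨
      (Reach F v (tgt e) ∧ Reach F (src e) u) := by
  constructor
  · intro h
    induction h with
    | refl => exact Or.inl (Reach.refl F v)
    | @tail b c hab hs ih =>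
      obtain ⟨e', he', hh⟩ := hs
      rcases he' with rfl | he'
      · rcases hh with ⟨rfl, rfl⟩ | ⟨rfl, rfl⟩
        · rcases ih with ih | ⟨i1, i2⟩ | ⟨i1, i2⟩
          · exact Or.inr (Or.inl ⟨ih, Reach.refl _ _⟩)
          · exact Or.inr (Or.inl ⟨i1, Reach.refl _ _⟩)
          · exact Or.inl i1
        · rcases ih with ih | ⟨i1, i2⟩ | ⟨i1, i2⟩
          · exact Or.inr (Or.inr ⟨ih, Reach.refl _ _⟩)
          · exact Or.inl i1
          · exact Or.inr (Or.inr ⟨i1, Reach.refl _ _⟩)
      · have hst : Reach F b c := Adj.reach ⟨e', he', hh⟩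
        rcases ih with ih | ⟨i1, i2⟩ | ⟨i1, i2⟩
        · exact Or.inl (ih.trans hst)
        · exact Or.inr (Or.inl ⟨i1, i2.trans hst⟩)
        · exact Or.inr (Or.inr ⟨i1, i2.trans hst⟩)
  · have hm : F ⊆ insert e F := Set.subset_insert _ _
    have he : Reach (insert e F) (src e) (tgt e) :=
      Adj.reach ⟨e, Set.mem_insert _ _, Or.inl ⟨rfl, rfl⟩⟩
    rintro (h | ⟨h1, h2⟩ | ⟨h1, h2⟩)
    · exact h.mono hm
    · exact ((h1.mono hm).trans he).trans (h2.mono hm)
    · exact ((h1.mono hm).trans he.symm).trans (h2.mono hm)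

theorem card_image_le_of {α β γ : Type*} [DecidableEq β] [DecidableEq γ] (W : Finset α) (c : α → β) (c' : α → γ)
    (h : ∀ v ∈ W, ∀ u ∈ W, c v = c u → c' v = c' u) :
    (W.image c').card ≤ (W.image c).card := by
  rcases W.eq_empty_or_nonempty with rfl | ⟨w, hw⟩
  · simp
  classical
  let g : β → γ := fun C => if hC : ∃ v ∈ W, c v = C then c' hC.choose else c' w
  have h1 : W.image c' ⊆ (W.image c).image g := by
    intro y hy
    obtain ⟨v, hv, rfl⟩ := Finset.mem_image.1 hy
    refine Finset.mem_image.2 ⟨c v, Finset.mem_image_of_mem _ hv, ?_⟩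
    have hC : ∃ v' ∈ W, c v' = c v := ⟨v, hv, rfl⟩
    simp only [g, dif_pos hC]
    exact h _ hC.choose_spec.1 _ hv hC.choose_spec.2
  exact (Finset.card_le_card h1).trans Finset.card_image_le

/-- joining two classes of an equivalence relation -/
theorem card_classes {α : Type*} [DecidableEq (Finset α)] (V : Finset α) (R R' : α → α → Prop)
    [∀ v u, Decidable (R v u)] [∀ v u, Decidable (R' v u)] (hr : ∀ v, R v v)
    (hs : ∀ v u, R v u → R u v) (ht : ∀ v u w, R v u → R u w → R v w) {a b : α} (ha : a ∈ V)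
    (hb : b ∈ V) (hR : ∀ v u, R' v u ↔ R v u ∨ (R v a ∧ R b u) ∨ (R v b ∧ R a u)) :
    (V.image fun v => V.filter fun u => R' v u).card =
        (V.image fun v => V.filter fun u => R v u).card ∨
      (V.image fun v => V.filter fun u => R' v u).card + 1 =
        (V.image fun v => V.filter fun u => R v u).card := by
  by_cases hab : R a b
  · left
    have : ∀ v u, R' v u ↔ R v u := by
      intro v u
      rw [hR]
      constructor
      · rintro (h | ⟨h1, h2⟩ | ⟨h1, h2⟩)
        · exact h
        · exact ht _ _ _ h1 (ht _ _ _ hab h2)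
        · exact ht _ _ _ h1 (ht _ _ _ (hs _ _ hab) h2)
      · exact Or.inl
    simp only [this]
  · right
    set c : α → Finset α := fun v => V.filter fun u => R v u with hc
    set c' : α → Finset α := fun v => V.filter fun u => R' v u with hc'
    have hcc : ∀ v ∈ V, ∀ u ∈ V, c v = c u ↔ R v u := by
      intro v hv u hu
      constructor
      · intro h
        have h1 : u ∈ c u := Finset.mem_filter.2 ⟨hu, hr u⟩
        rw [← h] at h1
        exact (Finset.mem_filter.1 h1).2
      · intro h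
        ext w
        simp only [hc, Finset.mem_filter]
        constructor
        · rintro ⟨h1, h2⟩; exact ⟨h1, ht _ _ _ (hs _ _ h) h2⟩
        · rintro ⟨h1, h2⟩; exact ⟨h1, ht _ _ _ h h2⟩
    have hr' : ∀ v, R' v v := fun v => (hR v v).2 (Or.inl (hr v))
    have hcc'1 : ∀ v ∈ V, ∀ u ∈ V, c' v = c' u → R' v u := by
      intro v hv u hu h
      have h1 : u ∈ c' u := Finset.mem_filter.2 ⟨hu, hr' u⟩
      rw [← h] at h1
      exact (Finset.mem_filter.1 h1).2
    have hcR : ∀ v u, R v u → c' v = c' u := by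
      intro v u h
      ext w
      simp only [hc', Finset.mem_filter, hR]
      constructor
      · rintro ⟨h1, h2 | ⟨h2, h3⟩ | ⟨h2, h3⟩⟩
        · exact ⟨h1, Or.inl (ht _ _ _ (hs _ _ h) h2)⟩
        · exact ⟨h1, Or.inr (Or.inl ⟨ht _ _ _ (hs _ _ h) h2, h3⟩)⟩
        · exact ⟨h1, Or.inr (Or.inr ⟨ht _ _ _ (hs _ _ h) h2, h3⟩)⟩
      · rintro ⟨h1, h2 | ⟨h2, h3⟩ | ⟨h2, h3⟩⟩
        · exact ⟨h1, Or.inl (ht _ _ _ h h2)⟩
        · exact ⟨h1, Or.inr (Or.inl ⟨ht _ _ _ h h2, h3⟩)⟩
        · exact ⟨h1, Or.inr (Or.inr ⟨ht _ _ _ h h2, h3⟩)⟩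
    have hab' : c' a = c' b := by
      ext w
      simp only [hc', Finset.mem_filter, hR]
      constructor
      · rintro ⟨h1, h2 | ⟨h2, h3⟩ | ⟨h2, h3⟩⟩
        · exact ⟨h1, Or.inr (Or.inr ⟨hr b, h2⟩)⟩
        · exact ⟨h1, Or.inl h3⟩
        · exact absurd h2 hab
      · rintro ⟨h1, h2 | ⟨h2, h3⟩ | ⟨h2, h3⟩⟩
        · exact ⟨h1, Or.inr (Or.inl ⟨hr a, h2⟩)⟩
        · exact absurd (hs _ _ h2) hab
        · exact ⟨h1, Or.inl h3⟩
    set W := V.filter fun v => ¬ R b v with hW
    have haW : a ∈ W := Finset.mem_filter.2 ⟨ha, fun h => hab (hs _ _ h)⟩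
    have hWV : W ⊆ V := Finset.filter_subset _ _
    have e1 : V.image c' = W.image c' := by
      apply le_antisymm
      · intro y hy
        obtain ⟨v, hv, rfl⟩ := Finset.mem_image.1 hy
        by_cases hbv : R b v
        · refine Finset.mem_image.2 ⟨a, haW, ?_⟩
          rw [hab', hcR b v hbv]
        · exact Finset.mem_image_of_mem _ (Finset.mem_filter.2 ⟨hv, hbv⟩)
      · exact Finset.image_subset_image hWV
    have e2 : V.image c = insert (c b) (W.image c) := by
      ext y
      rw [Finset.mem_insert]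
      constructor
      · intro hy
        obtain ⟨v, hv, rfl⟩ := Finset.mem_image.1 hy
        by_cases hbv : R b v
        · exact Or.inl ((hcc v hv b hb).2 (hs _ _ hbv))
        · exact Or.inr (Finset.mem_image_of_mem _ (Finset.mem_filter.2 ⟨hv, hbv⟩))
      · rintro (rfl | hy)
        · exact Finset.mem_image_of_mem _ hb
        · exact Finset.image_subset_image hWV hy
    have e3 : c b ∉ W.image c := by
      intro h
      obtain ⟨v, hv, hvb⟩ := Finset.mem_image.1 h
      have h1 := (hcc v (hWV hv) b hb).1 hvb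
      exact (Finset.mem_filter.1 hv).2 (hs _ _ h1)
    have hW' : ∀ v ∈ W, ∀ u ∈ W, R' v u → R v u := by
      intro v hv u hu h
      rcases (hR v u).1 h with h | ⟨h1, h2⟩ | ⟨h1, h2⟩
      · exact h
      · exact absurd h2 (Finset.mem_filter.1 hu).2
      · exact absurd (hs _ _ h1) (Finset.mem_filter.1 hv).2
    have e4 : (W.image c').card = (W.image c).card := by
      apply le_antisymm
      · refine card_image_le_of W c c' fun v hv u hu h => ?_
        exact hcR _ _ ((hcc v (hWV hv) u (hWV hu)).1 h)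
      · refine card_image_le_of W c' c fun v hv u hu h => ?_
        exact (hcc v (hWV hv) u (hWV hu)).2
          (hW' v hv u hu (hcc'1 v (hWV hv) u (hWV hu) h))
    rw [e1, e2, Finset.card_insert_of_notMem e3, e4]

end Pool.Agent.Zk60.NW
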