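import Pool.Agent.Zk29.Mu.C0

set_option autoImplicit false

/-!
The chordal distance: elementary properties.
-/

open Filter Topology
open scoped OnePoint

namespace Pool.Agent.Zk29.Mu

open Pool.Agent.Helper114.Herman

theorem chord_nonneg (x y : OnePoint ℂ) : 0 ≤ chord x y := by
  unfold chord
  positivity

theorem chord_self (x : OnePoint ℂ) : chord x x = 0 := by
  unfold chord
  rw [sub_self, norm_zero, zero_div]

theorem chord_comm (x y : OnePoint ℂ) : chord x y = chord y x := by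
  unfold chord
  rw [norm_sub_rev, mul_comm (√(‖(hco x).1‖ ^ 2 + ‖(hco x).2‖ ^ 2))]

theorem chord_coe (z w : ℂ) : chord (z : OnePoint ℂ) (w : OnePoint ℂ) =
    ‖z - w‖ / (√(‖z‖ ^ 2 + 1) * √(‖w‖ ^ 2 + 1)) := by
  have h1 : hco (z : OnePoint ℂ) = (z, 1) := rfl
  have h2 : hco (w : OnePoint ℂ) = (w, 1) := rfl
  unfold chord
  rw [h1, h2]
  simp only [mul_one, norm_one, one_pow]

theorem chord_le_dist (z w : ℂ) : chord (z : OnePoint ℂ) (w : OnePoint ℂ) ≤ ‖z - w‖ := by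
  rw [chord_coe]
  have h1 : ∀ z : ℂ, 1 ≤ √(‖z‖ ^ 2 + 1) := fun z => by
    rw [Real.one_le_sqrt]
    nlinarith [sq_nonneg ‖z‖]
  have h2 : 1 ≤ √(‖z‖ ^ 2 + 1) * √(‖w‖ ^ 2 + 1) := one_le_mul_of_one_le_of_one_le (h1 z) (h1 w)
  exact div_le_self (norm_nonneg _) h2

theorem dist_le_chord {R : ℝ} {z w : ℂ} (hz : ‖z‖ ≤ R) (hw : ‖w‖ ≤ R) :
    ‖z - w‖ ≤ (1 + R ^ 2) * chord (z : OnePoint ℂ) (w : OnePoint ℂ) := by
  rw [chord_coe]
  have hR : 0 ≤ R := (norm_nonneg z).trans hz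
  have h1 : ∀ z : ℂ, ‖z‖ ≤ R → √(‖z‖ ^ 2 + 1) ≤ √(1 + R ^ 2) := fun z hz => by
    apply Real.sqrt_le_sqrt
    have := pow_le_pow_left₀ (norm_nonneg z) hz 2
    linarith
  have h0 : ∀ z : ℂ, 0 < √(‖z‖ ^ 2 + 1) := fun z => Real.sqrt_pos.2 (by positivity)
  have h2 : √(‖z‖ ^ 2 + 1) * √(‖w‖ ^ 2 + 1) ≤ 1 + R ^ 2 := by
    calc √(‖z‖ ^ 2 + 1) * √(‖w‖ ^ 2 + 1) ≤ √(1 + R ^ 2) * √(1 + R ^ 2) :=
          mul_le_mul (h1 z hz) (h1 w hw) (h0 w).le (Real.sqrt_nonneg _)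
      _ = 1 + R ^ 2 := Real.mul_self_sqrt (by positivity)
  have h3 : 0 < √(‖z‖ ^ 2 + 1) * √(‖w‖ ^ 2 + 1) := mul_pos (h0 z) (h0 w)
  calc ‖z - w‖ = (√(‖z‖ ^ 2 + 1) * √(‖w‖ ^ 2 + 1)) *
        (‖z - w‖ / (√(‖z‖ ^ 2 + 1) * √(‖w‖ ^ 2 + 1))) := by
        field_simp
    _ ≤ (1 + R ^ 2) * (‖z - w‖ / (√(‖z‖ ^ 2 + 1) * √(‖w‖ ^ 2 + 1))) :=
        mul_le_mul_of_nonneg_right h2 (by positivity)

/-- The norm of a vector. -/
noncomputable def nm (u v : ℂ) : ℝ := √(‖u‖ ^ 2 + ‖v‖ ^ 2)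

theorem nm_smul (t u v : ℂ) : nm (t * u) (t * v) = ‖t‖ * nm u v := by
  unfold nm
  rw [norm_mul, norm_mul, mul_pow, mul_pow, ← mul_add, Real.sqrt_mul (sq_nonneg _),
    Real.sqrt_sq (norm_nonneg _)]

theorem nm_pos {u v : ℂ} (h : ¬(u = 0 ∧ v = 0)) : 0 < nm u v := by
  unfold nm
  apply Real.sqrt_pos.2
  by_cases hu : u = 0
  · have hv : v ≠ 0 := fun hv => h ⟨hu, hv⟩
    have := norm_pos_iff.2 hv
    positivity
  · have := norm_pos_iff.2 hu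
    positivity

theorem hco_pr {u v : ℂ} (h : ¬(u = 0 ∧ v = 0)) : ∃ t : ℂ, t ≠ 0 ∧
    u = t * (hco (pr u v)).1 ∧ v = t * (hco (pr u v)).2 := by
  by_cases hv : v = 0
  · subst hv
    have hu : u ≠ 0 := fun hu => h ⟨hu, rfl⟩
    refine ⟨u, hu, ?_, ?_⟩
    · rw [pr_zero]
      show u = u * 1
      rw [mul_one]
    · rw [pr_zero]
      show (0 : ℂ) = u * 0
      rw [mul_zero]
  · refine ⟨v, hv, ?_, ?_⟩
    · rw [pr_ne hv]
      show u = v * (u / v)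
      field_simp
    · rw [pr_ne hv]
      show v = v * 1
      rw [mul_one]

theorem chord_pr {u v u' v' : ℂ} (h : ¬(u = 0 ∧ v = 0)) (h' : ¬(u' = 0 ∧ v' = 0)) :
    chord (pr u v) (pr u' v') = ‖u * v' - u' * v‖ / (nm u v * nm u' v') := by
  obtain ⟨t, ht, e1, e2⟩ := hco_pr h
  obtain ⟨t', ht', e1', e2'⟩ := hco_pr h'
  have hc : chord (pr u v) (pr u' v') =
      ‖(hco (pr u v)).1 * (hco (pr u' v')).2 - (hco (pr u' v')).1 * (hco (pr u v)).2‖ /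
      (nm (hco (pr u v)).1 (hco (pr u v)).2 * nm (hco (pr u' v')).1 (hco (pr u' v')).2) := rfl
  rw [hc]
  generalize (hco (pr u v)).1 = a at *
  generalize (hco (pr u v)).2 = c at *
  generalize (hco (pr u' v')).1 = a' at *
  generalize (hco (pr u' v')).2 = c' at *
  have hn : ‖t‖ ≠ 0 := norm_ne_zero_iff.2 ht
  have hn' : ‖t'‖ ≠ 0 := norm_ne_zero_iff.2 ht'
  have h4 := (nm_pos h).ne'
  have h5 := (nm_pos h').ne'
  have h1 : nm u v = ‖t‖ * nm a c := by rw [e1, e2, nm_smul]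
  have h2 : nm u' v' = ‖t'‖ * nm a' c' := by rw [e1', e2', nm_smul]
  have h3 : u * v' - u' * v = (t * t') * (a * c' - a' * c) := by
    rw [e1, e2, e1', e2']
    ring
  rw [h1] at h4
  rw [h2] at h5
  have h6 : nm a c ≠ 0 := right_ne_zero_of_mul h4
  have h7 : nm a' c' ≠ 0 := right_ne_zero_of_mul h5
  rw [h1, h2, h3, norm_mul, norm_mul]
  field_simp

theorem nm_mob (b u v : ℂ) : nm (b * u + v) u ≤ √(2 * ‖b‖ ^ 2 + 2) * nm u v ∧
    nm u v ≤ √(2 * ‖b‖ ^ 2 + 2) * nm (b * u + v) u := by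
  unfold nm
  rw [← Real.sqrt_mul (by positivity), ← Real.sqrt_mul (by positivity)]
  constructor
  · apply Real.sqrt_le_sqrt
    have h1 : ‖b * u + v‖ ≤ ‖b‖ * ‖u‖ + ‖v‖ := (norm_add_le _ _).trans (by rw [norm_mul])
    have h2 := pow_le_pow_left₀ (norm_nonneg _) h1 2
    have h3 := sq_nonneg (‖b‖ * ‖u‖ - ‖v‖)
    have h4 : 0 ≤ ‖b‖ ^ 2 * ‖v‖ ^ 2 := by positivity
    nlinarith [sq_nonneg ‖u‖]
  · apply Real.sqrt_le_sqrt
    have h1 : ‖v‖ ≤ ‖b * u + v‖ + ‖b‖ * ‖u‖ := by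
      have : v = (b * u + v) - b * u := by ring
      conv_lhs => rw [this]
      exact (norm_sub_le _ _).trans (by rw [norm_mul])
    have h2 := pow_le_pow_left₀ (norm_nonneg _) h1 2
    have h3 := sq_nonneg (‖b * u + v‖ - ‖b‖ * ‖u‖)
    have h4 : 0 ≤ ‖b‖ ^ 2 * ‖b * u + v‖ ^ 2 := by positivity
    nlinarith [sq_nonneg ‖u‖]

theorem mob_lip (b : ℂ) : ∃ L : ℝ, 1 ≤ L ∧ ∀ h : OnePoint ℂ → OnePoint ℂ,
    (∀ u v : ℂ, ¬ (u = 0 ∧ v = 0) → h (pr u v) = pr (b * u + v) u) →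
      ∀ x y : OnePoint ℂ, chord (h x) (h y) ≤ L * chord x y ∧
        chord x y ≤ L * chord (h x) (h y) := by
  set ℓ := √(2 * ‖b‖ ^ 2 + 2) with hℓ
  have hℓ2 : ℓ * ℓ = 2 * ‖b‖ ^ 2 + 2 := Real.mul_self_sqrt (by positivity)
  have hℓ0 : 0 ≤ ℓ := Real.sqrt_nonneg _
  refine ⟨ℓ * ℓ, by rw [hℓ2]; nlinarith [sq_nonneg ‖b‖], fun h hh x y => ?_⟩
  obtain ⟨u, v, huv, rfl⟩ := exists_pr x
  obtain ⟨u', v', huv', rfl⟩ := exists_pr y
  have k1 : ¬(u = 0 ∧ v = 0) := by tauto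
  have k2 : ¬(u' = 0 ∧ v' = 0) := by tauto
  have k3 : ¬(b * u + v = 0 ∧ u = 0) := by
    rintro ⟨a1, a2⟩
    rw [a2, mul_zero, zero_add] at a1
    exact k1 ⟨a2, a1⟩
  have k4 : ¬(b * u' + v' = 0 ∧ u' = 0) := by
    rintro ⟨a1, a2⟩
    rw [a2, mul_zero, zero_add] at a1
    exact k2 ⟨a2, a1⟩
  rw [hh u v k1, hh u' v' k2, chord_pr k3 k4, chord_pr k1 k2]
  have hdet : ‖(b * u + v) * u' - (b * u' + v') * u‖ = ‖u * v' - u' * v‖ := by
    rw [← norm_neg]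
    congr 1
    ring
  rw [hdet]
  have p1 := nm_pos k1
  have p2 := nm_pos k2
  have p3 := nm_pos k3
  have p4 := nm_pos k4
  obtain ⟨m1, m2⟩ := nm_mob b u v
  obtain ⟨m3, m4⟩ := nm_mob b u' v'
  rw [← hℓ] at m1 m2 m3 m4
  have hd := norm_nonneg (u * v' - u' * v)
  constructor
  · have h5 : nm u v * nm u' v' ≤ ℓ * ℓ * (nm (b * u + v) u * nm (b * u' + v') u') := by
      calc nm u v * nm u' v' ≤ (ℓ * nm (b * u + v) u) * (ℓ * nm (b * u' + v') u') :=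
            mul_le_mul m2 m4 p2.le (by positivity)
        _ = _ := by ring
    rw [← mul_div_assoc, div_le_div_iff₀ (by positivity) (by positivity)]
    calc ‖u * v' - u' * v‖ * (nm u v * nm u' v')
        ≤ ‖u * v' - u' * v‖ * (ℓ * ℓ * (nm (b * u + v) u * nm (b * u' + v') u')) :=
          mul_le_mul_of_nonneg_left h5 hd
      _ = _ := by ring
  · have h5 : nm (b * u + v) u * nm (b * u' + v') u' ≤ ℓ * ℓ * (nm u v * nm u' v') := by
      calc nm (b * u + v) u * nm (b * u' + v') u' ≤ (ℓ * nm u v) * (ℓ * nm u' v') :=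
            mul_le_mul m1 m3 p4.le (by positivity)
        _ = _ := by ring
    rw [← mul_div_assoc, div_le_div_iff₀ (by positivity) (by positivity)]
    calc ‖u * v' - u' * v‖ * (nm (b * u + v) u * nm (b * u' + v') u')
        ≤ ‖u * v' - u' * v‖ * (ℓ * ℓ * (nm u v * nm u' v')) :=
          mul_le_mul_of_nonneg_left h5 hd
      _ = _ := by ring

theorem chord_deriv {F : OnePoint ℂ → OnePoint ℂ} {g : ℂ → ℂ} {v : ℂ} {R B : ℝ} (hv : ‖v‖ ≤ R)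
    (hF : ∀ᶠ y : ℂ in 𝓝 v, F (y : OnePoint ℂ) = ((g y : ℂ) : OnePoint ℂ))
    (hg : DifferentiableAt ℂ g v) (hB : ‖deriv g v‖ < B) :
    ∀ᶠ y : OnePoint ℂ in 𝓝 (v : OnePoint ℂ),
      chord (F y) (F (v : OnePoint ℂ)) ≤ B * (1 + (R + 1) ^ 2) * chord y (v : OnePoint ℂ) := by
  rw [OnePoint.nhds_coe_eq, Filter.eventually_map]
  have hB0 : 0 ≤ B := (norm_nonneg _).trans hB.le
  have h1 := (hasDerivAt_iff_isLittleO.1 hg.hasDerivAt).def (sub_pos.2 hB)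
  have h2 : ∀ᶠ y : ℂ in 𝓝 v, ‖y‖ < R + 1 :=
    (continuous_norm.tendsto v).eventually (gt_mem_nhds (show ‖v‖ < R + 1 by linarith))
  filter_upwards [h1, h2, hF] with y hy hyR hyF
  rw [hyF, hF.self_of_nhds]
  have h3 : ‖g y - g v‖ ≤ B * ‖y - v‖ := by
    have e : g y - g v = (g y - g v - (y - v) • deriv g v) + (y - v) • deriv g v := by ring
    rw [e]
    refine (norm_add_le _ _).trans ?_
    rw [norm_smul]
    linarith
  calc chord (g y : OnePoint ℂ) (g v : OnePoint ℂ) ≤ ‖g y - g v‖ := chord_le_dist _ _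
    _ ≤ B * ‖y - v‖ := h3
    _ ≤ B * ((1 + (R + 1) ^ 2) * chord (y : OnePoint ℂ) (v : OnePoint ℂ)) :=
        mul_le_mul_of_nonneg_left (dist_le_chord hyR.le (by linarith)) hB0
    _ = _ := by ring

theorem chord_conj {F G : OnePoint ℂ → OnePoint ℂ} {h : OnePoint ℂ ≃ₜ OnePoint ℂ} {L M : ℝ}
    (hL0 : 0 ≤ L) (hM : 0 ≤ M)
    (hL : ∀ x y, chord (h x) (h y) ≤ L * chord x y ∧ chord x y ≤ L * chord (h x) (h y))
    (hc : ∀ x, G (h x) = h (F x)) {v : OnePoint ℂ}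
    (hv : ∀ᶠ y in 𝓝 v, chord (F y) (F v) ≤ M * chord y v) :
    ∀ᶠ y in 𝓝 (h v), chord (G y) (G (h v)) ≤ L * M * L * chord y (h v) := by
  have h1 : Tendsto h.symm (𝓝 (h v)) (𝓝 v) := by
    have := h.symm.continuous.tendsto (h v)
    rwa [h.symm_apply_apply] at this
  filter_upwards [h1.eventually hv] with y hy
  set y' := h.symm y with hy'
  have h2 : y = h y' := by rw [hy', h.apply_symm_apply]
  rw [h2, hc, hc]
  calc chord (h (F y')) (h (F v)) ≤ L * chord (F y') (F v) := (hL _ _).1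
    _ ≤ L * (M * chord y' v) := mul_le_mul_of_nonneg_left hy hL0
    _ ≤ L * (M * (L * chord (h y') (h v))) :=
        mul_le_mul_of_nonneg_left (mul_le_mul_of_nonneg_left (hL _ _).2 hM) hL0
    _ = _ := by ring

end Pool.Agent.Zk29.Mu
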