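import Mathlib

set_option autoImplicit false

/-!
Greedy colouring.
-/

namespace Pool.Agent.Zk9.KK

/-- greedy colouring -/
theorem exists_coloring {ι : Type} [Fintype ι] (R : ι → ι → Prop)
    (hR : ∀ a b, R a b → R b a) (Δ : ℕ) (hΔ : ∀ a, {b | b ≠ a ∧ R a b}.ncard ≤ Δ) :
    ∃ c : ι → Fin (Δ + 1), ∀ a b, a ≠ b → R a b → c a ≠ c b := by
  classical
  -- partial colourings
  have main : ∀ S : Finset ι, ∃ c : ι → Fin (Δ + 1), ∀ a ∈ S, ∀ b ∈ S, a ≠ b → R a b →
      c a ≠ c b := by
    intro S
    induction S using Finset.induction_on with
    | empty => exact ⟨fun _ => 0, fun a ha => absurd ha (Finset.notMem_empty a)⟩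
    | insert x S hx ih =>
      obtain ⟨c, hc⟩ := ih
      set N : Finset ι := Finset.univ.filter fun b => b ≠ x ∧ R x b with hN
      have hmem : ∀ b, b ≠ x → R x b → b ∈ N := by
        intro b h1 h2
        simp only [hN, Finset.mem_filter, Finset.mem_univ, true_and]
        exact ⟨h1, h2⟩
      have hNc : N.card ≤ Δ := by
        have h1 : {b | b ≠ x ∧ R x b} = (N : Set ι) := by
          ext b
          simp [hN]
        have h2 := hΔ x
        rwa [h1, Set.ncard_coe_finset] at h2
      have h3 : (N.image c).card < (Finset.univ : Finset (Fin (Δ + 1))).card := by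
        rw [Finset.card_univ, Fintype.card_fin]
        exact lt_of_le_of_lt (Finset.card_image_le.trans hNc) (Nat.lt_succ_self _)
      obtain ⟨k, -, hk⟩ := Finset.exists_mem_notMem_of_card_lt_card h3
      refine ⟨Function.update c x k, fun a ha b hb hab hr => ?_⟩
      rw [Finset.mem_insert] at ha hb
      by_cases hax : a = x
      · subst hax
        have hba : b ≠ a := Ne.symm hab
        rw [Function.update_self, Function.update_of_ne hba]
        intro he
        apply hk
        rw [he]
        exact Finset.mem_image_of_mem c (hmem _ hba hr)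
      · by_cases hbx : b = x
        · subst hbx
          rw [Function.update_self, Function.update_of_ne hax]
          intro he
          apply hk
          rw [← he]
          exact Finset.mem_image_of_mem c (hmem _ hax (hR _ _ hr))
        · rw [Function.update_of_ne hax, Function.update_of_ne hbx]
          exact hc a (ha.resolve_left hax) b (hb.resolve_left hbx) hab hr
  obtain ⟨c, hc⟩ := main Finset.univ
  exact ⟨c, fun a b => hc a (Finset.mem_univ a) b (Finset.mem_univ b)⟩

end Pool.Agent.Zk9.KK
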