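import Mathlib

set_option autoImplicit false

/-!
The absolute value of a polynomial near a point of an ultrametric field, and the value group of a
finite extension of `ℚ_p`.
-/

open Polynomial

namespace Pool.Agent.Zk9.HT

theorem norm_near (L : Type) [NormedField L] [IsUltrametricDist L] (P : L[X]) (hP : P ≠ 0) (ρ : L) :
    ∃ κ ε : ℝ, 0 < κ ∧ 0 < ε ∧ ∀ τ : L, 0 < ‖τ - ρ‖ → ‖τ - ρ‖ < ε →
      ‖P.eval τ‖ = ‖τ - ρ‖ ^ P.rootMultiplicity ρ * κ := by
  set R := P /ₘ (X - C ρ) ^ P.rootMultiplicity ρ with hR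
  have h1 : (X - C ρ) ^ P.rootMultiplicity ρ * R = P := P.pow_mul_divByMonic_rootMultiplicity_eq ρ
  have h2 : R.eval ρ ≠ 0 := eval_divByMonic_pow_rootMultiplicity_ne_zero ρ hP
  have hc : Filter.Tendsto (fun τ => R.eval τ) (nhds ρ) (nhds (R.eval ρ)) :=
    R.continuous.tendsto ρ
  obtain ⟨ε, hε, hball⟩ := Metric.tendsto_nhds_nhds.1 hc ‖R.eval ρ‖ (norm_pos_iff.2 h2)
  refine ⟨‖R.eval ρ‖, ε, norm_pos_iff.2 h2, hε, fun τ _ hτ => ?_⟩
  have h3 : ‖R.eval τ - R.eval ρ‖ < ‖R.eval ρ‖ := by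
    have := hball (x := τ) (by rw [dist_eq_norm]; exact hτ)
    rwa [dist_eq_norm] at this
  have h4 : ‖R.eval τ‖ = ‖R.eval ρ‖ := by
    have e : R.eval τ = (R.eval τ - R.eval ρ) + R.eval ρ := by ring
    rw [e, IsUltrametricDist.norm_add_eq_max_of_norm_ne_norm h3.ne, max_eq_right h3.le]
  have h5 : P.eval τ = (τ - ρ) ^ P.rootMultiplicity ρ * R.eval τ := by
    conv_lhs => rw [← h1]
    simp
  rw [h5, norm_mul, norm_pow, h4]

theorem disc (p : ℕ) [Fact p.Prime] (L : IntermediateField ℚ_[p] (PadicAlgCl p))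
    (hL : FiniteDimensional ℚ_[p] L) : ∃ D : ℕ, 1 ≤ D ∧ ∀ z ∈ L, z ≠ 0 → ∃ i : ℤ,
      ‖z‖ ^ D = (p : ℝ) ^ i := by
  set m := Module.finrank ℚ_[p] L with hm
  refine ⟨m.factorial, Nat.factorial_pos _, fun z hz hz0 => ?_⟩
  have hp0 : (p : ℝ) ≠ 0 := by exact_mod_cast (Fact.out : p.Prime).ne_zero
  set P := minpoly ℚ_[p] z with hPdef
  have hdeg : P.natDegree ≤ m := by
    have h1 : minpoly ℚ_[p] (⟨z, hz⟩ : L) = P :=
      minpoly.algebraMap_eq (algebraMap L (PadicAlgCl p)).injective (⟨z, hz⟩ : L) |>.symm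
    rw [← h1]
    exact minpoly.natDegree_le (⟨z, hz⟩ : L)
  have hnz : ‖z‖ = spectralValue P := (PadicAlgCl.spectralNorm_eq p z).symm
  have hmem : spectralValue P ∈ Set.range (spectralValueTerms P) := by
    unfold spectralValue iSup
    exact (Set.range_nonempty _).csSup_mem (spectralValueTerms_finite_range P)
  obtain ⟨k, hk⟩ := hmem
  have hpos : 0 < ‖z‖ := norm_pos_iff.2 hz0
  have hklt : k < P.natDegree := by
    by_contra hcon
    rw [spectralValueTerms_of_natDegree_le P (not_lt.1 hcon), ← hnz] at hk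
    linarith
  rw [spectralValueTerms_of_lt_natDegree P hklt, ← hnz] at hk
  set a := P.coeff k with ha
  set e := P.natDegree - k with he
  have he1 : 1 ≤ e := by omega
  have hem : e ≤ m := by omega
  have hcast : ((P.natDegree : ℝ) - k) = (e : ℝ) := by
    rw [he, Nat.cast_sub hklt.le]
  rw [hcast] at hk
  have ha0 : a ≠ 0 := by
    intro h
    rw [h, norm_zero, Real.zero_rpow (by positivity)] at hk
    linarith
  have h6 : ‖z‖ ^ e = ‖a‖ := by
    rw [← hk, ← Real.rpow_natCast, ← Real.rpow_mul (norm_nonneg _), one_div,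
      inv_mul_cancel₀ (by positivity), Real.rpow_one]
  obtain ⟨q, hq⟩ : e ∣ m.factorial := Nat.dvd_factorial (by omega) hem
  obtain ⟨i, hi⟩ : ∃ i : ℤ, ‖a‖ = (p : ℝ) ^ i := by
    exact ⟨-a.valuation, Padic.norm_eq_zpow_neg_valuation ha0⟩
  refine ⟨i * q, ?_⟩
  rw [hq, pow_mul, h6, hi, zpow_mul, zpow_natCast]

end Pool.Agent.Zk9.HT
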