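import Pool.Agent.Zk12.HT.Stm
import Pool.Agent.Zk9.HT

set_option autoImplicit false

/-!
The parts `S_NORM` and `S_DISC` of the project HT.
-/

namespace Pool.Agent.Zk9.HT

theorem s_norm : Pool.Agent.Zk12.HT.S_NORM := fun L _ _ P hP ρ => norm_near L P hP ρ

theorem s_disc : Pool.Agent.Zk12.HT.S_DISC := fun p _ L hL => disc p L hL

end Pool.Agent.Zk9.HT
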