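import Mathlib
import Pool.Agent.Zk11.LC.St

/-!
Products in a class modulo a prime.
-/

set_option autoImplicit false

namespace Pool.Agent.Zk9

open Finset Pool.Agent.Zk11.LC

section
variable {p : ℕ} [Fact p.Prime]

theorem lcinj {L : ℕ} (hL : ¬ p ∣ L) {i j : ℕ} (hi : i < p) (hj : j < p)
    (h : (L : ZMod p) * i = L * j) : i = j := by
  have hL0 : (L : ZMod p) ≠ 0 := by
    rw [Ne, ZMod.natCast_eq_zero_iff]
    exact hL
  have h1 := mul_left_cancel₀ hL0 h
  have h2 := (ZMod.natCast_eq_natCast_iff' i j p).1 h1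
  rwa [Nat.mod_eq_of_lt hi, Nat.mod_eq_of_lt hj] at h2

/-- the number of representations -/
def nn (S T : Finset (ZMod p)) (u : ZMod p) : ℕ := ((S ×ˢ T).filter fun v => v.1 - v.2 = u).card

theorem rr_nn (S T : Finset (ZMod p)) (u : ZMod p) : rr S T u = (nn S T u : ℂ) := by
  unfold rr nn
  rw [card_filter, sum_product]
  push_cast
  rfl

theorem nn_ge {L N : ℕ} (hL : ¬ p ∣ L) (h2N : 2 * N ≤ p) (c0 : ZMod p) {s : ℕ} (hs : s < N) :
    N ≤ nn ((range (2 * N)).image fun t : ℕ => c0 + (L : ZMod p) * (t : ZMod p))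
      ((range N).image fun t : ℕ => (L : ZMod p) * (t : ZMod p)) (c0 + (L : ZMod p) * (s : ZMod p)) := by
  unfold nn
  have h1 : ((range N).image fun j : ℕ => (c0 + (L : ZMod p) * ((s + j : ℕ) : ZMod p),
      (L : ZMod p) * (j : ZMod p))).card = N := by
    rw [card_image_of_injOn, card_range]
    intro i hi j hj h
    rw [mem_coe, mem_range] at hi hj
    have h2 : (L : ZMod p) * (i : ZMod p) = (L : ZMod p) * (j : ZMod p) := congrArg Prod.snd h
    exact lcinj hL (by omega) (by omega) h2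
  conv_lhs => rw [← h1]
  refine card_le_card ?_
  intro w hw
  obtain ⟨j, hj, rfl⟩ := mem_image.1 hw
  rw [mem_range] at hj
  rw [mem_filter, mem_product]
  refine ⟨⟨mem_image.2 ⟨s + j, mem_range.2 (by omega), rfl⟩,
    mem_image.2 ⟨j, mem_range.2 hj, rfl⟩⟩, ?_⟩
  push_cast
  ring

end

theorem lc_box1 (h : Pool.Agent.Zk11.LC.KB) : Pool.Agent.Zk11.LC.Box1 := by
  classical
  intro p _ L H K a0 b0 δ hL hH hK hHp hKp hδ
  have hp0 : (0 : ℝ) < p := by exact_mod_cast (Fact.out : p.Prime).pos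
  obtain ⟨S, hS⟩ : ∃ S, S = (range (2 * H)).image fun t : ℕ => a0 + (L : ZMod p) * (t : ZMod p) := ⟨_, rfl⟩
  obtain ⟨T, hT⟩ : ∃ T, T = (range H).image fun t : ℕ => (L : ZMod p) * (t : ZMod p) := ⟨_, rfl⟩
  obtain ⟨S', hS'⟩ : ∃ S, S = (range (2 * K)).image fun t : ℕ => b0 + (L : ZMod p) * (t : ZMod p) := ⟨_, rfl⟩
  obtain ⟨T', hT'⟩ : ∃ T, T = (range K).image fun t : ℕ => (L : ZMod p) * (t : ZMod p) := ⟨_, rfl⟩
  have cS : (S.card : ℝ) ≤ 2 * H := by
    have : S.card ≤ 2 * H := by rw [hS]; exact card_image_le.trans (card_range _).le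
    exact_mod_cast this
  have cT : (T.card : ℝ) ≤ H := by
    have : T.card ≤ H := by rw [hT]; exact card_image_le.trans (card_range _).le
    exact_mod_cast this
  have cS' : (S'.card : ℝ) ≤ 2 * K := by
    have : S'.card ≤ 2 * K := by rw [hS']; exact card_image_le.trans (card_range _).le
    exact_mod_cast this
  have cT' : (T'.card : ℝ) ≤ K := by
    have : T'.card ≤ K := by rw [hT']; exact card_image_le.trans (card_range _).le
    exact_mod_cast this
  have key := hyp h S T S' T' δ hδ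
  obtain ⟨F, hF⟩ : ∃ F : (ZMod p)ˣ → ℕ, F = fun x : (ZMod p)ˣ =>
      nn S T (x : ZMod p) * nn S' T' (δ * ((x⁻¹ : (ZMod p)ˣ) : ZMod p)) := ⟨_, rfl⟩
  have e1 : ∑ x : (ZMod p)ˣ, rr S T x * rr S' T' (δ * ((x⁻¹ : (ZMod p)ˣ) : ZMod p)) =
      ((∑ x : (ZMod p)ˣ, F x : ℕ) : ℂ) := by
    rw [Nat.cast_sum]
    refine sum_congr rfl fun x _ => ?_
    rw [rr_nn, rr_nn, hF]
    push_cast
    rfl
  rw [e1, Complex.norm_natCast] at key
  -- the upper bound
  have hSq : ∀ {a b n : ℝ}, 0 ≤ a → 0 ≤ b → 0 ≤ n → a ≤ 2 * n → b ≤ n →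
      Real.sqrt (a * b) ≤ Real.sqrt 2 * n := by
    intro a b n ha hb hn h1 h2
    rw [← Real.sqrt_sq hn, ← Real.sqrt_mul (by norm_num)]
    refine Real.sqrt_le_sqrt ?_
    nlinarith [mul_le_mul h1 h2 hb (by linarith)]
  have q1 := hSq (Nat.cast_nonneg _) (Nat.cast_nonneg _) (Nat.cast_nonneg H) cS cT
  have q2 := hSq (Nat.cast_nonneg _) (Nat.cast_nonneg _) (Nat.cast_nonneg K) cS' cT'
  have upper : ((∑ x : (ZMod p)ˣ, F x : ℕ) : ℝ) ≤
      (4 * H * K / p + 4 * Real.sqrt p) * (H * K) := by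
    refine key.trans ?_
    have u1 : (S.card : ℝ) * T.card ≤ (2 * H) * H :=
      mul_le_mul cS cT (Nat.cast_nonneg _) (by positivity)
    have u2 : (S'.card : ℝ) * T'.card ≤ (2 * K) * K :=
      mul_le_mul cS' cT' (Nat.cast_nonneg _) (by positivity)
    have u3 : (S.card : ℝ) * T.card * (S'.card * T'.card) ≤ ((2 * H) * H) * ((2 * K) * K) :=
      mul_le_mul u1 u2 (by positivity) (by positivity)
    have u4 : Real.sqrt (S.card * T.card) * Real.sqrt (S'.card * T'.card) ≤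
        (Real.sqrt 2 * H) * (Real.sqrt 2 * K) :=
      mul_le_mul q1 q2 (Real.sqrt_nonneg _) (by positivity)
    have u5 : (Real.sqrt 2 * H) * (Real.sqrt 2 * K) = 2 * (H * K) := by
      have : Real.sqrt 2 * Real.sqrt 2 = 2 := Real.mul_self_sqrt (by norm_num)
      calc (Real.sqrt 2 * H) * (Real.sqrt 2 * K) = (Real.sqrt 2 * Real.sqrt 2) * (H * K) := by ring
        _ = _ := by rw [this]
    rw [u5] at u4
    calc _ ≤ ((2 * H) * H) * ((2 * K) * K) / p + 2 * Real.sqrt p * (2 * (H * K)) := by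
          gcongr
      _ = _ := by
          field_simp
          ring
  -- the lower bound
  obtain ⟨W, hW⟩ : ∃ W, W = (range H ×ˢ range K).filter fun v : ℕ × ℕ =>
    (a0 + (L : ZMod p) * v.1) * (b0 + (L : ZMod p) * v.2) = δ := ⟨_, rfl⟩
  have hWm : ∀ v ∈ W, v.1 < H ∧ v.2 < K ∧
      (a0 + (L : ZMod p) * v.1) * (b0 + (L : ZMod p) * v.2) = δ := by
    intro v hv
    rw [hW, mem_filter, mem_product, mem_range, mem_range] at hv
    exact ⟨hv.1.1, hv.1.2, hv.2⟩
  have hne : ∀ v ∈ W, a0 + (L : ZMod p) * v.1 ≠ 0 := by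
    intro v hv h0
    have := (hWm v hv).2.2
    rw [h0, zero_mul] at this
    exact hδ this.symm
  obtain ⟨u, hu⟩ : ∃ u : ℕ × ℕ → (ZMod p)ˣ, ∀ v ∈ W, ((u v : (ZMod p)ˣ) : ZMod p) =
      a0 + (L : ZMod p) * v.1 := by
    refine ⟨fun v => if h0 : a0 + (L : ZMod p) * v.1 ≠ 0 then Units.mk0 _ h0 else 1, ?_⟩
    intro v hv
    beta_reduce
    rw [dif_pos (hne v hv), Units.val_mk0]
  have hinv : ∀ v ∈ W, δ * (((u v)⁻¹ : (ZMod p)ˣ) : ZMod p) = b0 + (L : ZMod p) * v.2 := by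
    intro v hv
    have h1 := (hWm v hv).2.2
    rw [← hu v hv] at h1
    rw [← h1, mul_comm, ← mul_assoc, Units.inv_mul, one_mul]
  have huinj : Set.InjOn u (W : Set (ℕ × ℕ)) := by
    intro v hv w hw hvw
    rw [mem_coe] at hv hw
    have h1 : a0 + (L : ZMod p) * v.1 = a0 + (L : ZMod p) * w.1 := by
      rw [← hu v hv, ← hu w hw, hvw]
    have h2 : b0 + (L : ZMod p) * v.2 = b0 + (L : ZMod p) * w.2 := by
      rw [← hinv v hv, ← hinv w hw, hvw]
    have hv1 := hWm v hv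
    have hw1 := hWm w hw
    exact Prod.ext (lcinj hL (by omega) (by omega) (add_left_cancel h1))
      (lcinj hL (by omega) (by omega) (add_left_cancel h2))
  have lower : W.card * (H * K) ≤ ∑ x : (ZMod p)ˣ, F x := by
    calc W.card * (H * K) = ∑ _v ∈ W, H * K := by rw [sum_const, smul_eq_mul]
      _ ≤ ∑ v ∈ W, F (u v) := by
          refine sum_le_sum fun v hv => ?_
          rw [hF]
          show H * K ≤ nn S T ((u v : (ZMod p)ˣ) : ZMod p) *
            nn S' T' (δ * (((u v)⁻¹ : (ZMod p)ˣ) : ZMod p))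
          rw [hinv v hv, hu v hv, hS, hT, hS', hT']
          have hv1 := hWm v hv
          exact Nat.mul_le_mul (nn_ge hL hHp a0 hv1.1) (nn_ge hL hKp b0 hv1.2.1)
      _ = ∑ x ∈ W.image u, F x := (sum_image huinj).symm
      _ ≤ _ := sum_le_sum_of_subset (subset_univ _)
  have hHK : (0 : ℝ) < (H : ℝ) * K := by
    have h1 : (0 : ℝ) < H := by exact_mod_cast hH
    have h2 : (0 : ℝ) < K := by exact_mod_cast hK
    positivity
  have fin : (W.card : ℝ) * (H * K) ≤ (4 * H * K / p + 4 * Real.sqrt p) * (H * K) := by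
    refine le_trans ?_ upper
    exact_mod_cast lower
  rw [← hW]
  exact le_of_mul_le_mul_right fin hHK

end Pool.Agent.Zk9
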