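import Mathlib

set_option autoImplicit false

/-!
The coefficients of a vector-valued polynomial are bounded by its values.
-/

namespace Pool.Agent.Zk9.PolyBound

theorem poly_bound (s : ℕ) (hs : 1 ≤ s) : ∃ Λ : ℝ, 0 < Λ ∧
    ∀ {E : Type} [NormedAddCommGroup E] [NormedSpace ℝ E] (a : ℕ → E) (M τ : ℝ), 0 < τ →
      (∀ t ∈ Set.Icc (0 : ℝ) τ, ‖∑ i ∈ Finset.range s, t ^ i • a i‖ ≤ M) →
        ∀ i < s, τ ^ i * ‖a i‖ ≤ Λ * M := by
  have hs0 : (0 : ℝ) < s := by exact_mod_cast hs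
  set v : Fin s → ℝ := fun l => (l : ℝ) / s with hv
  have hinj : Function.Injective v := by
    intro l l' h
    simp only [hv] at h
    rw [div_left_inj' hs0.ne'] at h
    exact Fin.ext (by exact_mod_cast h)
  set V := Matrix.vandermonde v with hV
  have hdet : IsUnit V.det := isUnit_iff_ne_zero.2 (Matrix.det_vandermonde_ne_zero_iff.2 hinj)
  have hinv : V⁻¹ * V = 1 := Matrix.nonsing_inv_mul V hdet
  refine ⟨1 + ∑ i : Fin s, ∑ l : Fin s, |V⁻¹ i l|, ?_, ?_⟩
  · have : 0 ≤ ∑ i : Fin s, ∑ l : Fin s, |V⁻¹ i l| :=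
      Finset.sum_nonneg fun i _ => Finset.sum_nonneg fun l _ => abs_nonneg _
    linarith
  intro E _ _ a M τ hτ hM i hi
  have hM0 : 0 ≤ M := (norm_nonneg _).trans (hM 0 ⟨le_rfl, hτ.le⟩)
  set I : Fin s := ⟨i, hi⟩ with hI
  have hq : ∀ l : Fin s, ‖∑ k : Fin s, (V l k * τ ^ (k : ℕ)) • a k‖ ≤ M := by
    intro l
    have hmem : v l * τ ∈ Set.Icc (0 : ℝ) τ := by
      have h0 : 0 ≤ v l := by simp only [hv]; positivity
      have h1 : v l ≤ 1 := by
        simp only [hv]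
        rw [div_le_one hs0]
        exact_mod_cast l.2.le
      constructor
      · positivity
      · nlinarith
    have h := hM _ hmem
    rw [Finset.sum_range] at h
    have e : ∀ k : Fin s, (V l k * τ ^ (k : ℕ)) • a k = (v l * τ) ^ (k : ℕ) • a k := by
      intro k
      rw [hV, Matrix.vandermonde_apply, mul_pow]
    simp only [e]
    exact h
  have key : (τ ^ i) • a i = ∑ l : Fin s, V⁻¹ I l • ∑ k : Fin s, (V l k * τ ^ (k : ℕ)) • a k := by
    simp only [Finset.smul_sum, smul_smul]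
    rw [Finset.sum_comm]
    have e : ∀ k : Fin s, ∑ l : Fin s, (V⁻¹ I l * (V l k * τ ^ (k : ℕ))) • a k =
        if k = I then (τ ^ (k : ℕ)) • a k else 0 := by
      intro k
      rw [← Finset.sum_smul]
      have h1 : ∑ l : Fin s, V⁻¹ I l * (V l k * τ ^ (k : ℕ)) = (V⁻¹ * V) I k * τ ^ (k : ℕ) := by
        rw [Matrix.mul_apply, Finset.sum_mul]
        exact Finset.sum_congr rfl fun l _ => by ring
      rw [h1, hinv, Matrix.one_apply]
      by_cases h : k = I
      · subst h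
        simp
      · rw [if_neg h, if_neg (Ne.symm h), zero_mul, zero_smul]
    simp only [e]
    rw [Finset.sum_ite_eq' Finset.univ I]
    simp [hI]
  have hn : τ ^ i * ‖a i‖ = ‖(τ ^ i) • a i‖ := by
    rw [norm_smul, Real.norm_eq_abs, abs_of_pos (by positivity)]
  rw [hn, key]
  calc ‖∑ l : Fin s, V⁻¹ I l • ∑ k : Fin s, (V l k * τ ^ (k : ℕ)) • a k‖
      ≤ ∑ l : Fin s, ‖V⁻¹ I l • ∑ k : Fin s, (V l k * τ ^ (k : ℕ)) • a k‖ := norm_sum_le _ _
    _ ≤ ∑ l : Fin s, |V⁻¹ I l| * M := by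
        refine Finset.sum_le_sum fun l _ => ?_
        rw [norm_smul, Real.norm_eq_abs]
        exact mul_le_mul_of_nonneg_left (hq l) (abs_nonneg _)
    _ = (∑ l : Fin s, |V⁻¹ I l|) * M := (Finset.sum_mul _ _ _).symm
    _ ≤ (1 + ∑ i : Fin s, ∑ l : Fin s, |V⁻¹ i l|) * M := by
        refine mul_le_mul_of_nonneg_right ?_ hM0
        have : ∑ l : Fin s, |V⁻¹ I l| ≤ ∑ i : Fin s, ∑ l : Fin s, |V⁻¹ i l| :=
          Finset.single_le_sum (f := fun i : Fin s => ∑ l : Fin s, |V⁻¹ i l|)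
            (fun i _ => Finset.sum_nonneg fun l _ => abs_nonneg _) (Finset.mem_univ I)
        linarith

end Pool.Agent.Zk9.PolyBound
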